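import Pool.Agent.N812.WO.Ch

/-!
# Perturbations of multiplication operators: vectors with small local spectra
-/

set_option autoImplicit false

namespace Pool.Agent.N812.WO

open MeasureTheory Set Metric Filter Topology
open Pool.Agent.N812.IS
open scoped InnerProductSpace ENNReal NNReal ComplexConjugate

variable {S : Type} [MeasurableSpace S] {μ : Measure S} {φ : S → ℂ} {E : Set S} {V : S → l2}
  {U : ℕ → S → l2} {A B : ℕ → ℂ → ℂ} {n f h a : ℕ → ℝ≥0}

lemma Pr.mul {y : S → ℂ} {ξ : S → l2} {M : ℝ≥0} (hp : Pr μ φ E V U A B a y ξ M) {g : S → ℂ}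
    {L : ℝ≥0} (hg : Measurable g) (hL : ∀ z, ‖g z‖ ≤ L) :
    Pr μ φ E V U A B a (fun z => g z * y z) (fun z => g z • ξ z) (L * M) where
  ym := hg.mul hp.ym
  yb := fun z => by
    rw [norm_mul, NNReal.coe_mul]
    exact mul_le_mul (hL z) (hp.yb z) (norm_nonneg _) L.2
  y0 := fun z hz => by rw [hp.y0 z hz, mul_zero]
  xb := hp.xb.smul hg hL
  eq := by
    filter_upwards [hp.eq] with z hz
    rw [mul_smul, map_smul, ← smul_add, hz]

section

variable [SigmaFinite μ]

lemma Dat.vx_norm (D : Dat μ φ E V U A B n f h a) {y : S → ℂ} {ξ : S → l2} {M : ℝ≥0}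
    (hp : Pr μ φ E V U A B a y ξ M) : ‖vx μ φ E U y ξ‖ ≤
      M * (((μ E) ^ (1 / 2 : ℝ)).toReal + (∑' k, Rk μ E n f h a k).toReal) := by
  unfold vx
  refine (norm_add_le _ _).trans ?_
  rw [mul_add]
  exact add_le_add (Pr.norm D hp.ym hp.yb hp.y0) (D.zt_norm hp.xb)

lemma zt_zero {ξ : S → l2} (hx : ∀ᵐ z ∂(μ.restrict E), ξ z = 0) : zt μ φ E U ξ = 0 := by
  have h1 : ∀ k, zf μ φ E U k ξ = fun _ => 0 := by
    intro k
    funext w
    unfold zf
    rw [integral_congr_ae (g := fun _ => 0), integral_zero]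
    filter_upwards [hx] with z hz
    rw [hz, inner_zero_right, mul_zero]
  have h2 : ∀ k, zk μ φ E U ξ k = 0 := by
    intro k
    rw [zk]
    split_ifs with hm
    · rw [Lp.eq_zero_iff_ae_eq_zero]
      refine hm.coeFn_toLp.trans ?_
      rw [h1]
      exact ae_eq_refl _
    · rfl
  unfold zt
  simp_rw [h2]
  exact tsum_zero

lemma ind_meas {F : Set S} (hF : MeasurableSet F) :
    Measurable (F.indicator fun _ => (1 : ℂ)) := measurable_const.indicator hF

lemma ind_le (F : Set S) (z : S) : ‖F.indicator (fun _ => (1 : ℂ)) z‖ ≤ (1 : ℝ≥0) := by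
  by_cases hz : z ∈ F
  · rw [indicator_of_mem hz]
    simp
  · rw [indicator_of_notMem hz]
    simp

/-- nonvanishing -/
lemma Dat.nonzero (D : Dat μ φ E V U A B n f h a) {y : S → ℂ} {ξ : S → l2} {M : ℝ≥0}
    (hp : Pr μ φ E V U A B a y ξ M) {F : Set S} (hF : MeasurableSet F) (hFE : F ⊆ E)
    (hne : ¬ ∀ᵐ z ∂(μ.restrict F), y z = 0 ∧ ξ z = 0) :
    ∃ F' : Set S, MeasurableSet F' ∧ F' ⊆ F ∧
      vx μ φ E U (fun z => F'.indicator (fun _ => (1 : ℂ)) z * y z)
        (fun z => F'.indicator (fun _ => (1 : ℂ)) z • ξ z) ≠ 0 := by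
  by_contra hcon
  push Not at hcon
  apply hne
  have h0 : ∀ F' : Set S, MeasurableSet F' → F' ⊆ F → ∫ z in F', ξ z ∂μ = 0 := by
    intro F' hF' hs
    have h1 := D.vs_vx (hp.mul (ind_meas hF') (ind_le F'))
    rw [hcon F' hF' hs] at h1
    have h2 : vs μ V 0 = 0 := D.vsL.map_zero
    rw [h2] at h1
    rw [h1]
    have e : ∀ z, F'.indicator (fun _ => (1 : ℂ)) z • ξ z = F'.indicator ξ z := by
      intro z
      by_cases hz : z ∈ F'
      · rw [indicator_of_mem hz, indicator_of_mem hz, one_smul]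
      · rw [indicator_of_notMem hz, indicator_of_notMem hz, zero_smul]
    simp_rw [e]
    rw [integral_indicator hF', Measure.restrict_restrict hF',
      inter_eq_self_of_subset_left (hs.trans hFE)]
  have hξ : ξ =ᵐ[μ.restrict F] 0 := by
    have hi : Integrable ξ (μ.restrict F) := (D.xi_int hp.xb).mono_measure
      (Measure.restrict_mono hFE le_rfl)
    refine hi.ae_eq_zero_of_forall_setIntegral_eq_zero fun s hs _ => ?_
    rw [Measure.restrict_restrict hs]
    exact h0 _ (hs.inter hF) inter_subset_right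
  have h3 := hcon F hF subset_rfl
  unfold vx at h3
  have h4 : zt μ φ E U (fun z => F.indicator (fun _ => (1 : ℂ)) z • ξ z) = 0 := by
    apply zt_zero
    have h5 : ∀ᵐ z ∂(μ.restrict E), z ∈ F → ξ z = 0 := by
      have h6 := (ae_restrict_iff' hF).1 hξ
      exact ae_restrict_of_ae h6
    filter_upwards [h5] with z hz
    by_cases hzF : z ∈ F
    · rw [hz hzF, smul_zero]
    · rw [indicator_of_notMem hzF, zero_smul]
  rw [h4, add_zero] at h3
  have hp' := hp.mul (ind_meas hF) (ind_le F)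
  have h5 := vl_ae (Pr.memLp D hp'.ym hp'.yb hp'.y0)
  rw [h3] at h5
  have h6 : ∀ᵐ z ∂(μ.restrict F), y z = 0 := by
    rw [ae_restrict_iff' hF]
    filter_upwards [h5, Lp.coeFn_zero ℂ 2 μ] with z h7 h8 hz
    rw [h8, indicator_of_mem hz, one_mul, Pi.zero_apply] at h7
    exact h7.symm
  filter_upwards [h6, hξ] with z h7 h8
  exact ⟨h7, h8⟩

/-! ### existence of pairs -/

/-- the operator `1 - G(z)` -/
noncomputable def De (μ : Measure S) (φ : S → ℂ) (V : S → l2) (U : ℕ → S → l2) (A B : ℕ → ℂ → ℂ)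
    (a : ℕ → ℝ≥0) (z : S) : l2 →L[ℂ] l2 := 1 - GG μ φ V U A B a z

lemma Dat.De_meas (D : Dat μ φ E V U A B n f h a) : StronglyMeasurable (De μ φ V U A B a) :=
  stronglyMeasurable_const.sub D.GG_meas

lemma De_eq (z : S) (x : l2) : De μ φ V U A B a z x = x - GG μ φ V U A B a z x := rfl

/-- where `1 - G(z)` is not invertible, it has a kernel -/
lemma Dat.ker_of (D : Dat μ φ E V U A B n f h a) {z : S} (hz : ¬ IsUnit (De μ φ V U A B a z)) :
    ∃ j : ℕ, (kr (De μ φ V U A B a z)).starProjection (ee j) ≠ 0 := by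
  rcases (D.GG_compact z).hasEigenvalue_or_mem_resolventSet (μ := (1:ℂ)) one_ne_zero with h1 | h1
  · obtain ⟨v, hv⟩ := h1.exists_hasEigenvector
    have hv1 : GG μ φ V U A B a z v = v := by
      have := hv.apply_eq_smul
      simpa using this
    have hvk : v ∈ kr (De μ φ V U A B a z) := by
      rw [mem_kr, De_eq, hv1, sub_self]
    by_contra hcon
    push Not at hcon
    apply hv.2
    have h2 : ∀ j, (v : ℕ → ℂ) j = 0 := by
      intro j
      rw [← inner_ee]
      have h3 := Submodule.starProjection_inner_eq_zero (K := kr (De μ φ V U A B a z)) (ee j) v hvk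
      rw [hcon j, sub_zero] at h3
      exact h3
    ext j
    exact h2 j
  · exfalso
    apply hz
    rw [spectrum.mem_resolventSet_iff, map_one] at h1
    exact h1

lemma Dat.ker_meas' (D : Dat μ φ E V U A B n f h a) (j : ℕ) :
    StronglyMeasurable fun z => (kr (De μ φ V U A B a z)).starProjection (ee j) := by
  refine stronglyMeasurable_of_tendsto atTop
    (f := fun (N : ℕ) z => Rn (De μ φ V U A B a z) N (ee j)) (fun N => ?_) ?_
  · have h1 : StronglyMeasurable fun z => (1 : l2 →L[ℂ] l2) + (N : ℂ) •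
        (ContinuousLinearMap.adjoint (De μ φ V U A B a z) * De μ φ V U A B a z) := by
      have h2 : StronglyMeasurable fun z => ContinuousLinearMap.adjoint (De μ φ V U A B a z) :=
        (ContinuousLinearMap.adjoint (𝕜 := ℂ) (E := l2) (F := l2)).continuous.comp_stronglyMeasurable
          D.De_meas
      have h3 : StronglyMeasurable fun z =>
          ContinuousLinearMap.adjoint (De μ φ V U A B a z) * De μ φ V U A B a z := h2.mul D.De_meas
      exact stronglyMeasurable_const.add (h3.const_smul (N : ℂ))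
    exact sm_app (inverseS_meas h1) stronglyMeasurable_const
  · rw [tendsto_pi_nhds]
    exact fun z => ker_lim _ _

/-- the pairs where `1 - G(z)` is invertible -/
lemma Dat.pair1 (D : Dat μ φ E V U A B n f h a) {F : Set S} (hF : MeasurableSet F) (hFE : F ⊆ E)
    (hm : μ (F ∩ {z | IsUnit (De μ φ V U A B a z)}) ≠ 0) :
    ∃ (y : S → ℂ) (ξ : S → l2) (M : ℝ≥0), Pr μ φ E V U A B a y ξ M ∧
      ¬ ∀ᵐ z ∂(μ.restrict F), y z = 0 ∧ ξ z = 0 := by
  have hI : StronglyMeasurable fun z => Ring.inverse (De μ φ V U A B a z) :=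
    inverseS_meas D.De_meas
  set P : ℕ → Set S := fun m => F ∩ ({z | IsUnit (De μ φ V U A B a z)} ∩
    {z | ‖V z‖ ≤ m ∧ ‖Ring.inverse (De μ φ V U A B a z)‖ ≤ m}) with hP
  have hun : MeasurableSet {z | IsUnit (De μ φ V U A B a z)} := by
    borelize (l2 →L[ℂ] l2)
    exact D.De_meas.measurable Units.isOpen.measurableSet
  have hPm : ∀ m, MeasurableSet (P m) := fun m => hF.inter (hun.inter
    ((measurableSet_le D.Vm.norm.measurable measurable_const).inter
      (measurableSet_le hI.norm.measurable measurable_const)))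
  obtain ⟨m, hmm⟩ : ∃ m, μ (P m) ≠ 0 := by
    by_contra hcon
    push Not at hcon
    apply hm
    refine measure_mono_null ?_ (measure_iUnion_null hcon)
    rintro z ⟨hz1, hz2⟩
    obtain ⟨m, hm⟩ := exists_nat_ge (max ‖V z‖ ‖Ring.inverse (De μ φ V U A B a z)‖)
    exact mem_iUnion.2 ⟨m, hz1, hz2, (le_max_left _ _).trans hm, (le_max_right _ _).trans hm⟩
  refine ⟨(P m).indicator fun _ => 1,
    (P m).indicator fun z => Ring.inverse (De μ φ V U A B a z) (V z), (m * m + 1 : ℝ≥0), ?_, ?_⟩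
  · refine ⟨ind_meas (hPm m), fun z => ?_, fun z hz => ?_, ⟨(sm_app hI D.Vm).indicator (hPm m),
      fun z => ?_⟩, ?_⟩
    · refine (ind_le _ z).trans ?_
      push_cast
      nlinarith [Nat.cast_nonneg (α := ℝ) m]
    · exact indicator_of_notMem (fun h' => hz (hFE h'.1)) _
    · by_cases hz : z ∈ P m
      · rw [indicator_of_mem hz]
        refine (ContinuousLinearMap.le_opNorm _ _).trans ?_
        have h1 : ‖Ring.inverse (De μ φ V U A B a z)‖ * ‖V z‖ ≤ (m : ℝ) * m :=
          mul_le_mul hz.2.2.2 hz.2.2.1 (norm_nonneg _) (Nat.cast_nonneg _)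
        push_cast
        linarith
      · rw [indicator_of_notMem hz, norm_zero]
        positivity
    · refine Eventually.of_forall fun z => ?_
      by_cases hz : z ∈ P m
      · rw [indicator_of_mem hz, indicator_of_mem hz, one_smul]
        have h1 := Ring.mul_inverse_cancel _ hz.2.1
        have h2 := congrArg (fun R : l2 →L[ℂ] l2 => R (V z)) h1
        change De μ φ V U A B a z (Ring.inverse (De μ φ V U A B a z) (V z)) = V z at h2
        rw [De_eq] at h2
        exact (sub_eq_iff_eq_add.1 h2).symm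
      · rw [indicator_of_notMem hz, indicator_of_notMem hz, zero_smul, map_zero, add_zero]
  · intro hcon
    apply hmm
    have h1 : ∀ᵐ z ∂(μ.restrict (P m)), (P m).indicator (fun _ => (1:ℂ)) z = 0 := by
      have h2 := ae_mono (Measure.restrict_mono (show P m ⊆ F from inter_subset_left) (le_refl μ))
        hcon
      filter_upwards [h2] with z hz
      exact hz.1
    rw [ae_restrict_iff' (hPm m)] at h1
    rw [measure_eq_zero_iff_ae_notMem]
    filter_upwards [h1] with z hz hzP
    have := hz hzP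
    rw [indicator_of_mem hzP] at this
    exact one_ne_zero this

/-- the pairs where `1 - G(z)` is not invertible -/
lemma Dat.pair2 (D : Dat μ φ E V U A B n f h a) {F : Set S} (hF : MeasurableSet F)
    (hF0 : μ F ≠ 0) (hm : μ (F ∩ {z | IsUnit (De μ φ V U A B a z)}) = 0) :
    ∃ (y : S → ℂ) (ξ : S → l2) (M : ℝ≥0), Pr μ φ E V U A B a y ξ M ∧
      ¬ ∀ᵐ z ∂(μ.restrict F), y z = 0 ∧ ξ z = 0 := by
  by_contra hcon
  push Not at hcon
  have h1 : ∀ j : ℕ, ∀ᵐ z ∂(μ.restrict F),
      (kr (De μ φ V U A B a z)).starProjection (ee j) = 0 := by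
    intro j
    have hp : Pr μ φ E V U A B a (fun _ => 0)
        (fun z => (kr (De μ φ V U A B a z)).starProjection (ee j)) 1 := by
      refine ⟨measurable_const, fun z => by simp, fun z _ => rfl,
        ⟨D.ker_meas' j, fun z => ?_⟩, Eventually.of_forall fun z => ?_⟩
      · have h2 : ‖(kr (De μ φ V U A B a z)).starProjection (ee j)‖ ≤
            ‖(kr (De μ φ V U A B a z)).starProjection‖ * ‖ee j‖ :=
          ContinuousLinearMap.le_opNorm _ _
        have h3 : ‖ee j‖ = 1 := ee_orth.1 j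
        rw [h3, mul_one] at h2
        exact h2.trans (Submodule.starProjection_norm_le _)
      · rw [zero_smul, zero_add]
        have h2 : (kr (De μ φ V U A B a z)).starProjection (ee j) ∈ kr (De μ φ V U A B a z) :=
          Submodule.starProjection_apply_mem _ _
        rw [mem_kr, De_eq, sub_eq_zero] at h2
        exact h2.symm
    filter_upwards [hcon _ _ _ hp] with z hz
    exact hz.2
  apply hF0
  have h2 : ∀ᵐ z ∂(μ.restrict F), False := by
    rw [ae_restrict_iff' hF]
    have h3 := (ae_restrict_iff' hF).1 (ae_all_iff.2 h1)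
    have h4 := measure_eq_zero_iff_ae_notMem.1 hm
    filter_upwards [h3, h4] with z h5 h6 hz
    have h7 : ¬ IsUnit (De μ φ V U A B a z) := fun h' => h6 ⟨hz, h'⟩
    obtain ⟨j, hj⟩ := D.ker_of h7
    exact hj (h5 hz j)
  have h3 : (μ.restrict F) univ = 0 := by
    rw [ae_iff] at h2
    simpa using h2
  rwa [Measure.restrict_apply_univ] at h3

/-- **Vectors with small local spectra** -/
theorem Dat.half (D : Dat μ φ E V U A B n f h a) {N T : Lp ℂ 2 μ →L[ℂ] Lp ℂ 2 μ}
    (hT : Op μ φ V U N T) (c : ℂ) (r : ℝ) (hr : 0 < r) (hc : μ (E ∩ φ ⁻¹' ball c r) ≠ 0) :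
    ∃ (X : ℕ → Lp ℂ 2 μ) (C : ℝ), X 0 ≠ 0 ∧ (∀ j, ‖X j‖ ≤ C * r ^ j) ∧
      ∀ j, T (X j) - c • X j = X (j + 1) := by
  set F : Set S := E ∩ φ ⁻¹' ball c r with hFd
  have hF : MeasurableSet F := D.Em.inter (D.phi measurableSet_ball)
  have hFE : F ⊆ E := inter_subset_left
  obtain ⟨y, ξ, M, hp, hne⟩ : ∃ (y : S → ℂ) (ξ : S → l2) (M : ℝ≥0), Pr μ φ E V U A B a y ξ M ∧
      ¬ ∀ᵐ z ∂(μ.restrict F), y z = 0 ∧ ξ z = 0 := by
    by_cases hm : μ (F ∩ {z | IsUnit (De μ φ V U A B a z)}) = 0
    · exact D.pair2 hF hc hm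
    · exact D.pair1 hF hFE hm
  obtain ⟨F', hF', hs, hX⟩ := D.nonzero hp hF hFE hne
  have hp' := hp.mul (ind_meas hF') (ind_le F')
  -- the multipliers
  set g : ℕ → S → ℂ := fun j z => (φ z - c) ^ j * F'.indicator (fun _ => (1:ℂ)) z with hg
  have hgm : ∀ j, Measurable (g j) := fun j =>
    ((D.phi.sub_const c).pow_const j).mul (ind_meas hF')
  have hgb : ∀ j z, ‖g j z‖ ≤ (r.toNNReal ^ j : ℝ≥0) := by
    intro j z
    rw [NNReal.coe_pow, Real.coe_toNNReal r hr.le]
    by_cases hz : z ∈ F'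
    · simp only [hg, indicator_of_mem hz, mul_one, norm_pow]
      have h1 : φ z ∈ ball c r := (hs hz).2
      rw [mem_ball, dist_eq_norm] at h1
      exact pow_le_pow_left₀ (norm_nonneg _) h1.le j
    · simp only [hg, indicator_of_notMem hz, mul_zero, norm_zero]
      positivity
  have hpj : ∀ j, Pr μ φ E V U A B a (fun z => g j z * y z) (fun z => g j z • ξ z)
      (r.toNNReal ^ j * M) := fun j => hp.mul (hgm j) (hgb j)
  obtain ⟨b, hb⟩ := D.phib
  refine ⟨fun j => vx μ φ E U (fun z => g j z * y z) (fun z => g j z • ξ z),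
    M * (((μ E) ^ (1 / 2 : ℝ)).toReal + (∑' k, Rk μ E n f h a k).toReal), ?_, fun j => ?_,
    fun j => ?_⟩
  · have e : g 0 = F'.indicator fun _ => (1:ℂ) := by
      funext z
      simp only [hg, pow_zero, one_mul]
    show vx μ φ E U (fun z => g 0 z * y z) (fun z => g 0 z • ξ z) ≠ 0
    rw [e]
    exact hX
  · refine (D.vx_norm (hpj j)).trans (le_of_eq ?_)
    rw [NNReal.coe_mul, NNReal.coe_pow, Real.coe_toNNReal r hr.le]
    ring
  · have hbc : ∀ z, ‖φ z - c‖ ≤ (‖b‖₊ + ‖c‖₊ : ℝ≥0) := fun z => by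
      refine (norm_sub_le _ _).trans ?_
      rw [NNReal.coe_add, coe_nnnorm, coe_nnnorm]
      exact add_le_add ((hb z).trans (Real.le_norm_self b)) le_rfl
    rw [D.chain hT (hpj j) hbc]
    congr 1
    · funext z
      simp only [hg, pow_succ]
      ring
    · funext z
      simp only [hg, pow_succ, smul_smul]
      congr 1
      ring

end

end Pool.Agent.N812.WO
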