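import Pool.Agent.N812.WO.Sch

/-!
# Perturbations of multiplication operators: the kernels and the weights
-/

set_option autoImplicit false

namespace Pool.Agent.N812.WO

open MeasureTheory Set Metric Filter Topology
open Pool.Agent.N812.IS
open scoped InnerProductSpace ENNReal NNReal ComplexConjugate

variable {S : Type} [MeasurableSpace S]

lemma en_rpow {ζ : ℂ} (hζ : ζ ≠ 0) (t : ℝ) : ‖ζ‖ₑ ^ t = ENNReal.ofReal (‖ζ‖ ^ t) := by
  rw [← ofReal_norm, ENNReal.ofReal_rpow_of_pos (norm_pos_iff.2 hζ)]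

lemma pot_one {τ : ℝ} (hτ : 1 ≤ τ) (ζ : ℂ) : ‖ζ‖ₑ⁻¹ ≤ 1 + ‖ζ‖ₑ ^ (-τ) := by
  by_cases hζ : ζ = 0
  · rw [hζ, enorm_zero, ENNReal.zero_rpow_of_neg (by linarith)]
    simp
  · have h0 : 0 < ‖ζ‖ := norm_pos_iff.2 hζ
    rw [en_rpow hζ, ← ofReal_norm, ← ENNReal.ofReal_inv_of_pos h0, ← ENNReal.ofReal_one,
      ← ENNReal.ofReal_add zero_le_one (by positivity)]
    refine ENNReal.ofReal_le_ofReal ?_
    by_cases h1 : ‖ζ‖ ≤ 1
    · have h2 : ‖ζ‖ ^ (-1 : ℝ) ≤ ‖ζ‖ ^ (-τ) :=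
        Real.rpow_le_rpow_of_exponent_ge h0 h1 (by linarith)
      rw [Real.rpow_neg_one] at h2
      linarith
    · push Not at h1
      have h2 : ‖ζ‖⁻¹ ≤ 1 := inv_le_one_of_one_le₀ h1.le
      have h3 : 0 ≤ ‖ζ‖ ^ (-τ) := by positivity
      linarith

/-- the near part of the kernel -/
noncomputable def ka (r : ℝ) (ζ : ℂ) : ℂ := (ball (0:ℂ) r).indicator (fun ζ => ζ⁻¹) ζ

/-- the far part of the kernel -/
noncomputable def kb (r : ℝ) (ζ : ℂ) : ℂ := (ball (0:ℂ) r)ᶜ.indicator (fun ζ => ζ⁻¹) ζ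

lemma ka_meas (r : ℝ) : Measurable (ka r) := measurable_inv.indicator measurableSet_ball

lemma kb_meas (r : ℝ) : Measurable (kb r) := measurable_inv.indicator measurableSet_ball.compl

lemma ka_kb (r : ℝ) (ζ : ℂ) : ka r ζ + kb r ζ = ζ⁻¹ :=
  congrFun (indicator_self_add_compl (ball (0:ℂ) r) fun ζ => ζ⁻¹) ζ

lemma ka_le {r τ : ℝ} (hτ : 1 ≤ τ) (ζ : ℂ) :
    ‖ka r ζ‖ₑ ≤ ENNReal.ofReal (r ^ (τ - 1)) * ‖ζ‖ₑ ^ (-τ) := by
  unfold ka
  by_cases hz : ζ ∈ ball (0:ℂ) r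
  · rw [indicator_of_mem hz]
    by_cases hζ : ζ = 0
    · rw [hζ]
      simp
    · have h0 : 0 < ‖ζ‖ := norm_pos_iff.2 hζ
      rw [mem_ball_zero_iff] at hz
      have hr : 0 < r := h0.trans hz
      rw [en_rpow hζ, ← ENNReal.ofReal_mul (by positivity), ← ofReal_norm, norm_inv]
      refine ENNReal.ofReal_le_ofReal ?_
      have h1 : ‖ζ‖⁻¹ = ‖ζ‖ ^ (τ - 1) * ‖ζ‖ ^ (-τ) := by
        rw [← Real.rpow_add h0, ← Real.rpow_neg_one]
        congr 1
        ring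
      rw [h1]
      refine mul_le_mul_of_nonneg_right ?_ (by positivity)
      exact Real.rpow_le_rpow h0.le hz.le (by linarith)
  · rw [indicator_of_notMem hz, enorm_zero]
    exact bot_le

lemma kb_le {r τ : ℝ} (hr : 0 < r) (hτ : τ ≤ 2) (ζ : ℂ) :
    ‖kb r ζ‖ₑ ^ 2 ≤ ENNReal.ofReal (r ^ (τ - 2)) * ‖ζ‖ₑ ^ (-τ) := by
  unfold kb
  by_cases hz : ζ ∈ ball (0:ℂ) r
  · rw [indicator_of_notMem (by simpa using hz), enorm_zero]
    simp
  · rw [indicator_of_mem (by simpa using hz)]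
    rw [mem_ball_zero_iff, not_lt] at hz
    have h0 : 0 < ‖ζ‖ := hr.trans_le hz
    have hζ : ζ ≠ 0 := norm_pos_iff.1 h0
    rw [en_rpow hζ, ← ENNReal.ofReal_mul (by positivity), ← ofReal_norm, norm_inv,
      ← ENNReal.ofReal_pow (by positivity)]
    refine ENNReal.ofReal_le_ofReal ?_
    have h1 : (‖ζ‖⁻¹) ^ 2 = ‖ζ‖ ^ (τ - 2) * ‖ζ‖ ^ (-τ) := by
      rw [← Real.rpow_add h0, ← Real.rpow_natCast, ← Real.rpow_neg_one, ← Real.rpow_mul h0.le]
      congr 1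
      push_cast
      ring
    rw [h1]
    refine mul_le_mul_of_nonneg_right ?_ (by positivity)
    exact Real.rpow_le_rpow_of_nonpos hr hz (by linarith)

variable {μ : Measure S} {φ : S → ℂ} {E : Set S}

lemma pot1 {τ : ℝ} (hτ : 1 ≤ τ) (hEf : μ E ≠ ⊤) (hφ : Measurable φ) {C : ℝ≥0}
    (hC : ∀ w, ∫⁻ z in E, ‖φ z - φ w‖ₑ ^ (-τ) ∂μ ≤ C) (w : S) :
    ∫⁻ z in E, ‖φ z - φ w‖ₑ⁻¹ ∂μ ≤ ((μ E).toNNReal + C : ℝ≥0) := by
  calc ∫⁻ z in E, ‖φ z - φ w‖ₑ⁻¹ ∂μ ≤ ∫⁻ z in E, (1 + ‖φ z - φ w‖ₑ ^ (-τ)) ∂μ :=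
        lintegral_mono fun z => pot_one hτ _
    _ = μ E + ∫⁻ z in E, ‖φ z - φ w‖ₑ ^ (-τ) ∂μ := by
        rw [lintegral_add_left measurable_const, lintegral_one, Measure.restrict_apply_univ]
    _ ≤ _ := by
        rw [ENNReal.coe_add, ENNReal.coe_toNNReal hEf]
        exact add_le_add le_rfl (hC w)

lemma geo_sum {x y c d : ℝ≥0} {h n a f : ℕ → ℝ≥0} (hx : x < 1) (hy : y < 1)
    (h1 : ∀ k, h k * n k ≤ c * x ^ k) (h2 : ∀ k, a k * f k ≤ d * y ^ k) :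
    ∑' k, ((h k : ℝ≥0∞) * n k + a k * f k) ≠ ⊤ := by
  have e : ∀ k, ((h k : ℝ≥0∞) * n k + a k * f k) = ((h k * n k + a k * f k : ℝ≥0) : ℝ≥0∞) :=
    fun k => by push_cast; rfl
  simp_rw [e]
  rw [ENNReal.tsum_coe_ne_top_iff_summable]
  have s1 : Summable fun k => c * x ^ k := (NNReal.summable_geometric hx).mul_left c
  have s2 : Summable fun k => d * y ^ k := (NNReal.summable_geometric hy).mul_left d
  exact NNReal.summable_of_le (fun k => add_le_add (h1 k) (h2 k)) (s1.add s2)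

/-- the case `p = 1` -/
theorem case1 {s : ℕ → ℝ} (hs : ∀ j, 0 ≤ s j) (hsum : Summable s) {τ : ℝ} (hτ : 1 ≤ τ)
    (μ : Measure S) (E : Set S) (hE : MeasurableSet E) (hEf : μ E ≠ ⊤) (C : ℝ≥0) :
    ∃ (A B : ℕ → ℂ → ℂ) (n f h a : ℕ → ℝ≥0) (σ σ' : ℕ → ℝ) (κ : ℕ → ℕ),
      Wt σ σ' s κ h a ∧ ∀ φ : S → ℂ, Measurable φ → (∃ b : ℝ, ∀ s, ‖φ s‖ ≤ b) →
        (∀ w, ∫⁻ z in E, ‖φ z - φ w‖ₑ ^ (-τ) ∂μ ≤ C) → Kn μ φ E A B n f h a := by
  have hsq : ∀ j, ‖Real.sqrt (s j)‖ₑ ^ 2 = ENNReal.ofReal (s j) := fun j => by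
    rw [← ofReal_norm, ← ENNReal.ofReal_pow (norm_nonneg _),
      Real.norm_of_nonneg (Real.sqrt_nonneg _), Real.sq_sqrt (hs j)]
  have htot : ∑' j, ‖Real.sqrt (s j)‖ₑ ^ 2 = ENNReal.ofReal (∑' j, s j) := by
    simp_rw [hsq]
    rw [ENNReal.ofReal_tsum_of_nonneg hs hsum]
  set q0 : ℝ≥0 := ⟨Real.sqrt (∑' j, s j), Real.sqrt_nonneg _⟩ with hq0
  have hqsq : (q0 : ℝ≥0∞) ^ 2 = ENNReal.ofReal (∑' j, s j) := by
    rw [← ENNReal.ofReal_coe_nnreal, ← ENNReal.ofReal_pow (NNReal.coe_nonneg _)]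
    congr 1
    exact Real.sq_sqrt (tsum_nonneg hs)
  refine ⟨fun _ ζ => ζ⁻¹, fun _ _ => 0, fun _ => (μ E).toNNReal + C, fun _ => 0,
    fun k => if k = 0 then q0 else 0, fun k => if k = 0 then q0 else 0,
    fun j => Real.sqrt (s j), fun j => Real.sqrt (s j), fun _ => 0, ?_, ?_⟩
  · have hbd : ∀ j, ‖Real.sqrt (s j)‖ ≤ q0 := fun j => by
      rw [Real.norm_of_nonneg (Real.sqrt_nonneg _)]
      exact Real.sqrt_le_sqrt (hsum.le_tsum j fun i _ => hs i)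
    refine ⟨fun j => Real.mul_self_sqrt (hs j), fun j => ?_, fun k => ?_, ?_, q0, hbd⟩
    · rw [if_pos rfl]
      exact hbd j
    · by_cases hk : k = 0
      · rw [if_pos hk, hqsq, ← htot]
        refine ENNReal.tsum_le_tsum fun j => ?_
        rw [bw, if_pos hk.symm]
      · rw [if_neg hk]
        have : ∀ j, bw (fun j => Real.sqrt (s j)) (fun _ => 0) k j = 0 := fun j => by
          rw [bw, if_neg fun h => hk h.symm]
        simp [this]
    · rw [htot]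
      exact ENNReal.ofReal_ne_top
  · intro φ hφ hb hC
    refine ⟨hφ, hb, hE, hEf, ⟨_, pot1 hτ hEf hφ hC⟩, fun k => measurable_inv,
      fun k => measurable_const, fun k ζ => by simp, fun k w => ?_, fun k w => ?_, ?_⟩
    · exact (lintegral_mono fun z => inv_le_inv _).trans (pot1 hτ hEf hφ hC w)
    · simp
    · have e : ∀ k : ℕ, (((if k = 0 then q0 else 0 : ℝ≥0) : ℝ≥0∞) *
          (((μ E).toNNReal + C : ℝ≥0) : ℝ≥0∞) +
          ((if k = 0 then q0 else 0 : ℝ≥0) : ℝ≥0∞) * ((0 : ℝ≥0) : ℝ≥0∞)) =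
          if k = 0 then ((q0 * ((μ E).toNNReal + C) : ℝ≥0) : ℝ≥0∞) else 0 := by
        intro k
        split_ifs with hk
        · push_cast
          simp
        · simp
      simp_rw [e]
      rw [tsum_ite_eq]
      exact ENNReal.coe_ne_top

/-- powers of `1 / 2` -/
noncomputable def e2 (t : ℝ) : ℝ≥0 := ⟨(1 / 2 : ℝ) ^ t, by positivity⟩

lemma e2_coe (t : ℝ) : ((e2 t : ℝ≥0) : ℝ) = (1 / 2 : ℝ) ^ t := rfl

lemma e2_mul (s t : ℝ) : e2 s * e2 t = e2 (s + t) := by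
  apply NNReal.coe_injective
  rw [NNReal.coe_mul, e2_coe, e2_coe, e2_coe, Real.rpow_add (by norm_num)]

lemma e2_pow (t : ℝ) (k : ℕ) : e2 t ^ k = e2 (t * k) := by
  apply NNReal.coe_injective
  rw [NNReal.coe_pow, e2_coe, e2_coe, Real.rpow_mul (by norm_num), Real.rpow_natCast]

lemma e2_lt {t : ℝ} (ht : 0 < t) : e2 t < 1 := by
  rw [← NNReal.coe_lt_coe, e2_coe, NNReal.coe_one]
  exact Real.rpow_lt_one (by norm_num) (by norm_num) ht

lemma e2_rpow (s t : ℝ) : ((1 / 2 : ℝ) ^ s) ^ t = e2 (s * t) := by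
  rw [e2_coe, Real.rpow_mul (by norm_num)]

/-- the case `1 < p` -/
theorem case2 {s : ℕ → ℝ} (hs : ∀ j, 0 ≤ s j) {p τ : ℝ} (hp : 1 < p) (hpτ : p < τ) (hτ : τ < 2)
    (hsum : Summable fun j => s j ^ p)
    (μ : Measure S) (E : Set S) (hE : MeasurableSet E) (hEf : μ E ≠ ⊤) (C : ℝ≥0) :
    ∃ (A B : ℕ → ℂ → ℂ) (n f h a : ℕ → ℝ≥0) (σ σ' : ℕ → ℝ) (κ : ℕ → ℕ),
      Wt σ σ' s κ h a ∧ ∀ φ : S → ℂ, Measurable φ → (∃ b : ℝ, ∀ s, ‖φ s‖ ≤ b) →
        (∀ w, ∫⁻ z in E, ‖φ z - φ w‖ₑ ^ (-τ) ∂μ ≤ C) → Kn μ φ E A B n f h a := by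
  have hp0 : 0 < p := by linarith
  -- the exponent
  obtain ⟨γ, hγ1, hγ2⟩ : ∃ γ : ℝ, 0 < 1 - p + γ * (τ - 1) ∧ 0 < 2 - p - γ * (2 - τ) := by
    have h1 : (p - 1) / (τ - 1) < (2 - p) / (2 - τ) := by
      rw [div_lt_div_iff₀ (by linarith) (by linarith)]
      nlinarith
    obtain ⟨γ, h2, h3⟩ := exists_between h1
    refine ⟨γ, ?_, ?_⟩
    · rw [div_lt_iff₀ (by linarith)] at h2
      linarith
    · rw [lt_div_iff₀ (by linarith)] at h3
      linarith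
  -- the bound
  have hnn : ∀ j, 0 ≤ s j ^ p := fun j => Real.rpow_nonneg (hs j) p
  set P : ℝ := ∑' j, s j ^ p with hP
  have hP0 : 0 ≤ P := tsum_nonneg hnn
  set C0 : ℝ := P ^ (1 / p) + 1 with hC0
  have hC0p : 0 < C0 := by positivity
  have hsC : ∀ j, s j ≤ C0 := by
    intro j
    have h1 : s j ^ p ≤ P := hsum.le_tsum j fun i _ => hnn i
    have h2 : (s j ^ p) ^ (1 / p) ≤ P ^ (1 / p) := Real.rpow_le_rpow (hnn j) h1 (by positivity)
    rw [← Real.rpow_mul (hs j), mul_one_div_cancel hp0.ne', Real.rpow_one] at h2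
    linarith
  -- the blocks
  set κ : ℕ → ℕ := fun j => ⌊Real.logb 2 (C0 / s j)⌋₊ with hκ
  have hup : ∀ j, s j ≤ C0 * (1 / 2 : ℝ) ^ ((κ j : ℕ) : ℝ) := by
    intro j
    rcases (hs j).eq_or_lt with h0 | h0
    · rw [← h0]
      positivity
    · have h1 : 1 ≤ C0 / s j := by
        rw [le_div_iff₀ h0, one_mul]
        exact hsC j
      have h2 : (κ j : ℝ) ≤ Real.logb 2 (C0 / s j) :=
        Nat.floor_le (Real.logb_nonneg (by norm_num) h1)
      rw [Real.le_logb_iff_rpow_le (by norm_num) (by positivity), le_div_iff₀ h0] at h2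
      rw [one_div, Real.inv_rpow (by norm_num), ← div_eq_mul_inv, le_div_iff₀ (by positivity)]
      linarith
  have hlo : ∀ j, 0 < s j → C0 * (1 / 2 : ℝ) ^ ((κ j : ℝ) + 1) ≤ s j := by
    intro j h0
    have h2 : Real.logb 2 (C0 / s j) < (κ j : ℝ) + 1 := Nat.lt_floor_add_one _
    rw [Real.logb_lt_iff_lt_rpow (by norm_num) (by positivity), div_lt_iff₀ h0] at h2
    rw [one_div, Real.inv_rpow (by norm_num), ← div_eq_mul_inv, div_le_iff₀ (by positivity)]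
    linarith
  set σ : ℕ → ℝ := fun j => s j ^ (1 - p / 2) with hσ
  set σ' : ℕ → ℝ := fun j => s j ^ (p / 2) with hσ'
  have hσ0 : ∀ j, 0 ≤ σ j := fun j => Real.rpow_nonneg (hs j) _
  have hσ'0 : ∀ j, 0 ≤ σ' j := fun j => Real.rpow_nonneg (hs j) _
  have hσsq : ∀ j, ‖σ j‖ₑ ^ 2 = ENNReal.ofReal (s j ^ (2 - p)) := fun j => by
    rw [← ofReal_norm, ← ENNReal.ofReal_pow (norm_nonneg _), Real.norm_of_nonneg (hσ0 j)]
    congr 1
    simp only [hσ]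
    rw [← Real.rpow_natCast, ← Real.rpow_mul (hs j)]
    congr 1
    push_cast
    ring
  have hσ'sq : ∀ j, ‖σ' j‖ₑ ^ 2 = ENNReal.ofReal (s j ^ p) := fun j => by
    rw [← ofReal_norm, ← ENNReal.ofReal_pow (norm_nonneg _), Real.norm_of_nonneg (hσ'0 j)]
    congr 1
    simp only [hσ']
    rw [← Real.rpow_natCast, ← Real.rpow_mul (hs j)]
    congr 1
    push_cast
    ring
  -- the constants
  obtain ⟨ca, hca⟩ : ∃ ca : ℝ≥0, (ca : ℝ) = C0 ^ (1 - p / 2) := ⟨⟨_, by positivity⟩, rfl⟩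
  obtain ⟨ch, hch⟩ : ∃ ch : ℝ≥0, (ch : ℝ) = C0 ^ (1 - p) * (1 / 2 : ℝ) ^ (1 - p) * Real.sqrt P :=
    ⟨⟨_, by positivity⟩, rfl⟩
  refine ⟨fun k => ka ((1 / 2 : ℝ) ^ (γ * k)), fun k => kb ((1 / 2 : ℝ) ^ (γ * k)),
    fun k => C * e2 (γ * (τ - 1) * k), fun k => NNReal.sqrt C * e2 (γ * (τ - 2) / 2 * k),
    fun k => ch * e2 ((1 - p) * k), fun k => ca * e2 ((1 - p / 2) * k), σ, σ', κ, ?_, ?_⟩
  · refine ⟨fun j => ?_, fun j => ?_, fun k => ?_, ?_, (C0 ^ (1 - p / 2)).toNNReal, fun j => ?_⟩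
    rotate_right
    · rw [Real.norm_of_nonneg (hσ0 j), Real.coe_toNNReal _ (by positivity)]
      exact Real.rpow_le_rpow (hs j) (hsC j) (by linarith)
    · simp only [hσ, hσ']
      rcases (hs j).eq_or_lt with h0 | h0
      · rw [← h0, Real.zero_rpow (by linarith), zero_mul]
      · rw [← Real.rpow_add h0]
        have : 1 - p / 2 + p / 2 = 1 := by ring
        rw [this, Real.rpow_one]
    · rw [Real.norm_of_nonneg (hσ0 j), NNReal.coe_mul, hca, e2_coe]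
      simp only [hσ]
      calc s j ^ (1 - p / 2) ≤ (C0 * (1 / 2 : ℝ) ^ ((κ j : ℕ) : ℝ)) ^ (1 - p / 2) :=
            Real.rpow_le_rpow (hs j) (hup j) (by linarith)
        _ = C0 ^ (1 - p / 2) * (1 / 2 : ℝ) ^ ((1 - p / 2) * (κ j : ℝ)) := by
            rw [Real.mul_rpow hC0p.le (by positivity), ← Real.rpow_mul (by norm_num),
              mul_comm ((κ j : ℕ) : ℝ)]
    · have hterm : ∀ j, ‖bw σ κ k j‖ₑ ^ 2 ≤
          ENNReal.ofReal ((C0 * (1 / 2 : ℝ) ^ ((k : ℝ) + 1)) ^ (2 - 2 * p)) *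
            ENNReal.ofReal (s j ^ p) := by
        intro j
        unfold bw
        split_ifs with hk
        · rw [hσsq, ← ENNReal.ofReal_mul (by positivity)]
          refine ENNReal.ofReal_le_ofReal ?_
          rcases (hs j).eq_or_lt with h0 | h0
          · rw [← h0, Real.zero_rpow (by linarith)]
            positivity
          · have h1 : s j ^ (2 - p) = s j ^ (2 - 2 * p) * s j ^ p := by
              rw [← Real.rpow_add h0]
              congr 1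
              ring
            rw [h1]
            refine mul_le_mul_of_nonneg_right ?_ (hnn j)
            have h2 := hlo j h0
            rw [hk] at h2
            exact Real.rpow_le_rpow_of_nonpos (by positivity) h2 (by linarith)
        · simp
      refine (ENNReal.tsum_le_tsum hterm).trans ?_
      rw [ENNReal.tsum_mul_left, ← ENNReal.ofReal_tsum_of_nonneg hnn hsum,
        ← ENNReal.ofReal_mul (by positivity), ← ENNReal.ofReal_coe_nnreal,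
        ← ENNReal.ofReal_pow (NNReal.coe_nonneg _)]
      refine ENNReal.ofReal_le_ofReal (le_of_eq ?_)
      rw [NNReal.coe_mul, hch, e2_coe, ← hP]
      have h1 : (C0 * (1 / 2 : ℝ) ^ ((k : ℝ) + 1)) ^ (2 - 2 * p) =
          (C0 ^ (1 - p) * (1 / 2 : ℝ) ^ (1 - p) * (1 / 2 : ℝ) ^ ((1 - p) * (k : ℝ))) ^ 2 := by
        rw [Real.mul_rpow hC0p.le (by positivity), ← Real.rpow_mul (by norm_num), mul_pow, mul_pow,
          ← Real.rpow_natCast, ← Real.rpow_natCast, ← Real.rpow_natCast,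
          ← Real.rpow_mul hC0p.le, ← Real.rpow_mul (by norm_num), ← Real.rpow_mul (by norm_num),
          mul_assoc, ← Real.rpow_add (by norm_num)]
        congr 2
        · push_cast
          ring
        · push_cast
          ring
      rw [h1]
      have h2 : Real.sqrt P ^ 2 = P := Real.sq_sqrt hP0
      calc _ = (C0 ^ (1 - p) * (1 / 2 : ℝ) ^ (1 - p) * (1 / 2 : ℝ) ^ ((1 - p) * (k : ℝ))) ^ 2 *
            (Real.sqrt P ^ 2) := by rw [h2]
        _ = _ := by ring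
    · simp_rw [hσ'sq]
      rw [← ENNReal.ofReal_tsum_of_nonneg hnn hsum]
      exact ENNReal.ofReal_ne_top
  · intro φ hφ hb hC
    refine ⟨hφ, hb, hE, hEf, ⟨_, pot1 (by linarith) hEf hφ hC⟩, fun k => ka_meas _,
      fun k => kb_meas _, fun k ζ => ka_kb _ ζ, fun k w => ?_, fun k w => ?_, ?_⟩
    · calc ∫⁻ z in E, ‖ka ((1 / 2 : ℝ) ^ (γ * k)) (φ z - φ w)‖ₑ ∂μ
          ≤ ∫⁻ z in E, ENNReal.ofReal (((1 / 2 : ℝ) ^ (γ * k)) ^ (τ - 1)) *
              ‖φ z - φ w‖ₑ ^ (-τ) ∂μ := lintegral_mono fun z => ka_le (by linarith) _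
        _ = ENNReal.ofReal (((1 / 2 : ℝ) ^ (γ * k)) ^ (τ - 1)) *
              ∫⁻ z in E, ‖φ z - φ w‖ₑ ^ (-τ) ∂μ := by
            rw [lintegral_const_mul' _ _ ENNReal.ofReal_ne_top]
        _ ≤ ENNReal.ofReal (((1 / 2 : ℝ) ^ (γ * k)) ^ (τ - 1)) * C := mul_le_mul' le_rfl (hC w)
        _ = _ := by
            rw [e2_rpow, ENNReal.ofReal_coe_nnreal, mul_comm, ← ENNReal.coe_mul]
            congr 3
            ring
    · calc ∫⁻ z in E, ‖kb ((1 / 2 : ℝ) ^ (γ * k)) (φ z - φ w)‖ₑ ^ 2 ∂μ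
          ≤ ∫⁻ z in E, ENNReal.ofReal (((1 / 2 : ℝ) ^ (γ * k)) ^ (τ - 2)) *
              ‖φ z - φ w‖ₑ ^ (-τ) ∂μ := lintegral_mono fun z => kb_le (by positivity) hτ.le _
        _ = ENNReal.ofReal (((1 / 2 : ℝ) ^ (γ * k)) ^ (τ - 2)) *
              ∫⁻ z in E, ‖φ z - φ w‖ₑ ^ (-τ) ∂μ := by
            rw [lintegral_const_mul' _ _ ENNReal.ofReal_ne_top]
        _ ≤ ENNReal.ofReal (((1 / 2 : ℝ) ^ (γ * k)) ^ (τ - 2)) * C := mul_le_mul' le_rfl (hC w)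
        _ = _ := by
            rw [e2_rpow, ENNReal.ofReal_coe_nnreal, mul_comm, ← ENNReal.coe_mul, ← ENNReal.coe_pow]
            congr 1
            rw [mul_pow, NNReal.sq_sqrt, e2_pow]
            congr 2
            push_cast
            ring
    · refine geo_sum (x := e2 (1 - p + γ * (τ - 1))) (y := e2 ((2 - p - γ * (2 - τ)) / 2))
        (c := ch * C) (d := ca * NNReal.sqrt C) (e2_lt hγ1) (e2_lt (by linarith))
        (fun k => ?_) fun k => ?_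
      · refine le_of_eq ?_
        rw [e2_pow, mul_mul_mul_comm, e2_mul]
        congr 2
        ring
      · refine le_of_eq ?_
        rw [e2_pow, mul_mul_mul_comm, e2_mul]
        congr 2
        ring

end Pool.Agent.N812.WO
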