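import Pool.Agent.N812.WO.Hil
import Pool.Agent.Y77.NK.ADJ
import Pool.Agent.Y529.NK.ANN
import Pool.Agent.Y25.NK.SPN

/-!
# Perturbations on a Hilbert space: orthogonal sums
-/

set_option autoImplicit false

namespace Pool.Agent.N812.WO

open MeasureTheory Set Metric Filter Topology
open Pool.Agent.N812.IS
open scoped InnerProductSpace ENNReal NNReal ComplexConjugate
open ContinuousLinearMap (adjoint)

variable {S : Type} [MeasurableSpace S] {μ : Measure S} {φ : S → ℂ} {E : Set S}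
  {H Z : Type} [NormedAddCommGroup H] [InnerProductSpace ℂ H] [CompleteSpace H]
  [NormedAddCommGroup Z] [InnerProductSpace ℂ Z] [CompleteSpace Z]

/-- `A` is the orthogonal sum of the multiplication by `φ` and `R` -/
structure Ds (μ : Measure S) (φ : S → ℂ) (A : H →L[ℂ] H) (N : Lp ℂ 2 μ →L[ℂ] Lp ℂ 2 μ)
    (R : Z →L[ℂ] Z) (i₁ : Lp ℂ 2 μ →L[ℂ] H) (i₂ : Z →L[ℂ] H) : Prop where
  mul : ∀ g : Lp ℂ 2 μ, N g =ᵐ[μ] fun s => φ s * g s
  i11 : ∀ g, adjoint i₁ (i₁ g) = g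
  i22 : ∀ x, adjoint i₂ (i₂ x) = x
  i12 : ∀ x, adjoint i₁ (i₂ x) = 0
  i21 : ∀ g, adjoint i₂ (i₁ g) = 0
  res : ∀ y, i₁ (adjoint i₁ y) + i₂ (adjoint i₂ y) = y
  op : ∀ y, A y = i₁ (N (adjoint i₁ y)) + i₂ (R (adjoint i₂ y))

variable {A K : H →L[ℂ] H} {N : Lp ℂ 2 μ →L[ℂ] Lp ℂ 2 μ} {R : Z →L[ℂ] Z}
  {i₁ : Lp ℂ 2 μ →L[ℂ] H} {i₂ : Z →L[ℂ] H}

lemma adj3 {H₁ H₂ : Type} [NormedAddCommGroup H₁] [InnerProductSpace ℂ H₁] [CompleteSpace H₁]
    [NormedAddCommGroup H₂] [InnerProductSpace ℂ H₂] [CompleteSpace H₂] (i : H₁ →L[ℂ] H₂)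
    (N : H₁ →L[ℂ] H₁) (x y : H₂) :
    ⟪i (adjoint N (adjoint i y)), x⟫_ℂ = ⟪y, i (N (adjoint i x))⟫_ℂ := by
  rw [← ContinuousLinearMap.adjoint_inner_right, ContinuousLinearMap.adjoint_inner_left,
    ContinuousLinearMap.adjoint_inner_left]

lemma Ds.adj (D : Ds μ φ A N R i₁ i₂) (hφ : Measurable φ) (hb : ∃ b : ℝ, ∀ s, ‖φ s‖ ≤ b) :
    Ds μ (fun s => conj (φ s)) (adjoint A) (adjoint N) (adjoint R) i₁ i₂ where
  mul := (Pool.Agent.Y77.NK.isMul_adj ⟨hφ, hb, D.mul⟩).eq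
  i11 := D.i11
  i22 := D.i22
  i12 := D.i12
  i21 := D.i21
  res := D.res
  op := fun y => by
    refine ext_inner_right ℂ fun x => ?_
    rw [ContinuousLinearMap.adjoint_inner_left, D.op x, inner_add_right, inner_add_left,
      adj3, adj3]

lemma Ds.n1 (D : Ds μ φ A N R i₁ i₂) (g : Lp ℂ 2 μ) : ‖i₁ g‖ = ‖g‖ := by
  have h1 : ⟪i₁ g, i₁ g⟫_ℂ = ⟪g, g⟫_ℂ := by
    rw [← ContinuousLinearMap.adjoint_inner_left, D.i11]
  rw [@norm_eq_sqrt_re_inner ℂ, @norm_eq_sqrt_re_inner ℂ, h1]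

lemma Ds.a1 (D : Ds μ φ A N R i₁ i₂) (y : H) : ‖adjoint i₁ y‖ ≤ ‖y‖ := by
  have h1 : ‖i₁‖ ≤ 1 := ContinuousLinearMap.opNorm_le_bound _ zero_le_one fun g => by
    rw [D.n1, one_mul]
  have h2 : ‖adjoint i₁‖ ≤ 1 := by
    rwa [LinearIsometryEquiv.norm_map]
  refine ((adjoint i₁).le_opNorm y).trans ?_
  calc ‖adjoint i₁‖ * ‖y‖ ≤ 1 * ‖y‖ := mul_le_mul_of_nonneg_right h2 (norm_nonneg _)
    _ = ‖y‖ := one_mul _

theorem Ds.mk_ext [SigmaFinite μ] (D : Ds μ φ A N R i₁ i₂) {A' B' : ℕ → ℂ → ℂ}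
    {n f h a : ℕ → ℝ≥0} {σ σ' s : ℕ → ℝ} {κ : ℕ → ℕ} (Q : Kn μ φ E A' B' n f h a)
    (W : Wt σ σ' s κ h a) {u v : ℕ → H} (hu : Orthonormal ℂ u) (hv : Orthonormal ℂ v)
    (hK : ∀ y, HasSum (fun j => ((s j : ℂ) * ⟪v j, y⟫_ℂ) • u j) (K y)) {b b' : ℝ≥0}
    (hb : ∀ j, ‖σ j‖ ≤ b) (hb' : ∀ j, ‖σ' j‖ ≤ b') :
    Ext μ φ E (Vf (fun j => adjoint i₁ (v j)) σ') (Uf (fun j => adjoint i₁ (u j)) σ κ) (A + K) N R
      i₁ i₂ (Wo hv σ' b' hb') ((adjoint i₂).comp (Uo hu σ b hb)) := by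
  have Bu : Bes fun j => adjoint i₁ (u j) := bes_of hu (adjoint i₁) D.a1
  have Bv : Bes fun j => adjoint i₁ (v j) := bes_of hv (adjoint i₁) D.a1
  have DD := mk_dat Q W Bu Bv
  refine ⟨D.mul, fun g _ hg => ?_, fun g => ?_, fun g x => ?_, Wo_compact hv hb' (sq_summable W.v)⟩
  · rw [← norm_eq_zero, ← D.n1, hg, norm_zero]
  · refine lp.ext (funext fun j => ?_)
    rw [Wo_apply, vs_coord Bv W.v g (DD.vs_integrable g), ContinuousLinearMap.adjoint_inner_left]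
  · obtain ⟨y, hy⟩ : ∃ y, y = i₁ g + i₂ x := ⟨_, rfl⟩
    rw [← hy]
    obtain ⟨c, hc⟩ : ∃ c, c = Wo hv σ' b' hb' y := ⟨_, rfl⟩
    have e0 : A y = i₁ (N g) + i₂ (R x) := by
      rw [D.op, hy, map_add (adjoint i₁), map_add (adjoint i₂), D.i11, D.i12, D.i21, D.i22,
        add_zero, zero_add]
    have e1 : (A + K) y - i₁ (N g) - i₂ (R x) - i₂ (((adjoint i₂).comp (Uo hu σ b hb))
        (Wo hv σ' b' hb' y)) = i₁ (adjoint i₁ (Uo hu σ b hb c)) := by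
      have h1 := UW hu hv hb hb' W.prod hK y
      have h2 := D.res (K y)
      rw [ContinuousLinearMap.add_apply, e0, ContinuousLinearMap.comp_apply, hc, h1]
      nth_rewrite 1 [← h2]
      abel
    rw [e1, ← hc]
    refine HasSum.mapL i₁ ?_
    have h1 := ((Uo_sum hu σ b hb c).mapL (adjoint i₁)).tsum_fiberwise κ
    refine h1.congr_fun fun k => ?_
    have h2 : uc μ (Uf (fun j => adjoint i₁ (u j)) σ κ) k c =
        Wc (fun j => adjoint i₁ (u j)) (bw σ κ k) c := by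
      apply Lp.ext
      have h3 := vl_ae (DD.uc_memLp k c)
      filter_upwards [h3, Wc_ae Bu (W.hne k) c] with w h4 h5
      rw [h5]
      exact h4
    rw [h2, Wc, tsum_subtype (κ ⁻¹' {k})
      (fun j => adjoint i₁ (((σ j : ℂ) * (c : ℕ → ℂ) j) • u j))]
    refine tsum_congr fun j => ?_
    by_cases hk : κ j = k
    · rw [indicator_of_mem (show j ∈ κ ⁻¹' {k} from hk), bw, if_pos hk, map_smul]
    · rw [indicator_of_notMem (show j ∉ κ ⁻¹' {k} from hk), bw, if_neg hk]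
      simp

lemma wt_bd {σ' : ℕ → ℝ} (h : ∑' j, ‖σ' j‖ₑ ^ 2 ≠ ⊤) : ∃ b : ℝ≥0, ∀ j, ‖σ' j‖ ≤ b := by
  have h1 := sq_summable h
  refine ⟨⟨Real.sqrt (∑' j, σ' j ^ 2), Real.sqrt_nonneg _⟩, fun j => ?_⟩
  rw [Real.norm_eq_abs]
  exact Real.abs_le_sqrt (h1.le_tsum j fun i _ => sq_nonneg _)

theorem Ds.half [SigmaFinite μ] (D : Ds μ φ A N R i₁ i₂) {A' B' : ℕ → ℂ → ℂ}
    {n f h a : ℕ → ℝ≥0} {σ σ' s : ℕ → ℝ} {κ : ℕ → ℕ} (Q : Kn μ φ E A' B' n f h a)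
    (W : Wt σ σ' s κ h a) {u v : ℕ → H} (hu : Orthonormal ℂ u) (hv : Orthonormal ℂ v)
    (hK : ∀ y, HasSum (fun j => ((s j : ℂ) * ⟪v j, y⟫_ℂ) • u j) (K y))
    {P : S → (Z →L[ℂ] Z)} {m : ℝ≥0} (hP : Rs φ E R P m) (c : ℂ) (r : ℝ) (hr : 0 < r)
    (hc : μ (E ∩ φ ⁻¹' ball c r) ≠ 0) :
    ∃ (X : ℕ → H) (C : ℝ), X 0 ≠ 0 ∧ (∀ j, ‖X j‖ ≤ C * r ^ j) ∧
      ∀ j, (A + K) (X j) - c • X j = X (j + 1) := by
  obtain ⟨b, hb⟩ := W.bd
  obtain ⟨b', hb'⟩ := wt_bd W.v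
  have Bu : Bes fun j => adjoint i₁ (u j) := bes_of hu (adjoint i₁) D.a1
  have Bv : Bes fun j => adjoint i₁ (v j) := bes_of hv (adjoint i₁) D.a1
  exact halfX (mk_dat Q W Bu Bv) hP (D.mk_ext Q W hu hv hK hb hb') c r hr hc

/-! ### resolvents -/

lemma inverseZ_meas {T : S → (Z →L[ℂ] Z)} (hT : StronglyMeasurable T) :
    StronglyMeasurable fun z => Ring.inverse (T z) := by
  classical
  borelize (Z →L[ℂ] Z)
  have hU : IsOpen {A : Z →L[ℂ] Z | IsUnit A} := Units.isOpen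
  have hc : ContinuousOn (Ring.inverse : (Z →L[ℂ] Z) → (Z →L[ℂ] Z)) {A | IsUnit A} := by
    rintro A ⟨U, rfl⟩
    exact (NormedRing.inverse_continuousAt U).continuousWithinAt
  have hm : Measurable (Ring.inverse : (Z →L[ℂ] Z) → (Z →L[ℂ] Z)) := by
    have h1 : (Ring.inverse : (Z →L[ℂ] Z) → (Z →L[ℂ] Z)) =
        {A : Z →L[ℂ] Z | IsUnit A}.piecewise Ring.inverse (fun _ => 0) := by
      funext A
      by_cases hA : IsUnit A
      · simp [Set.piecewise, hA]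
      · simp [Set.piecewise, hA, Ring.inverse_non_unit _ hA]
    rw [h1]
    exact hc.measurable_piecewise continuousOn_const hU.measurableSet
  rw [stronglyMeasurable_iff_measurable_separable]
  refine ⟨hm.comp hT.measurable, ?_⟩
  have h2 : TopologicalSpace.IsSeparable (range T ∩ {A | IsUnit A}) :=
    hT.isSeparable_range.mono inter_subset_left
  have h3 := (hc.mono (inter_subset_right (s := range T))).isSeparable_image h2
  refine (h3.union (Set.finite_singleton (0 : Z →L[ℂ] Z)).isSeparable).mono ?_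
  rintro _ ⟨z, rfl⟩
  by_cases hz : IsUnit (T z)
  · exact Or.inl ⟨T z, ⟨⟨z, rfl⟩, hz⟩, rfl⟩
  · right
    rw [mem_singleton_iff]
    exact Ring.inverse_non_unit _ hz

/-- the operator `w - R` -/
noncomputable def wR (R : Z →L[ℂ] Z) (w : ℂ) : Z →L[ℂ] Z := w • 1 - R

lemma wR_meas (R : Z →L[ℂ] Z) (hφ : Measurable φ) : StronglyMeasurable fun z => wR R (φ z) := by
  have h1 : Continuous (wR R) := by
    unfold wR
    fun_prop
  exact h1.comp_stronglyMeasurable hφ.stronglyMeasurable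

lemma rs_of {R : Z →L[ℂ] Z} {m : ℝ≥0} (hφ : Measurable φ) (hE : MeasurableSet E)
    (h1 : ∀ z ∈ E, IsUnit (wR R (φ z))) (h2 : ∀ z ∈ E, ‖Ring.inverse (wR R (φ z))‖ ≤ m) :
    ∃ Q : S → (Z →L[ℂ] Z), Rs φ E R Q m ∧
      Rs (fun z => conj (φ z)) E (adjoint R) (fun z => adjoint (Q z)) m := by
  have hm : StronglyMeasurable (E.indicator fun z => Ring.inverse (wR R (φ z))) :=
    (inverseZ_meas (wR_meas R hφ)).indicator hE
  have hbd : ∀ z, ‖E.indicator (fun z => Ring.inverse (wR R (φ z))) z‖ ≤ m := by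
    intro z
    by_cases hz : z ∈ E
    · rw [indicator_of_mem hz]
      exact h2 z hz
    · rw [indicator_of_notMem hz, norm_zero]
      exact m.2
  refine ⟨E.indicator fun z => Ring.inverse (wR R (φ z)), ⟨hm, hbd, fun z hz x => ?_⟩,
    ⟨?_, fun z => ?_, fun z hz x => ?_⟩⟩
  · rw [indicator_of_mem hz]
    have h3 := congrArg (fun B : Z →L[ℂ] Z => B x) (Ring.mul_inverse_cancel _ (h1 z hz))
    exact h3
  · exact (adjoint (𝕜 := ℂ) (E := Z) (F := Z)).continuous.comp_stronglyMeasurable hm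
  · rw [LinearIsometryEquiv.norm_map]
    exact hbd z
  · rw [indicator_of_mem hz]
    refine ext_inner_right ℂ fun y => ?_
    have h3 := congrArg (fun B : Z →L[ℂ] Z => B y) (Ring.inverse_mul_cancel _ (h1 z hz))
    change Ring.inverse (wR R (φ z)) (φ z • y - R y) = y at h3
    rw [inner_sub_left, inner_smul_left, ContinuousLinearMap.adjoint_inner_left,
      ContinuousLinearMap.adjoint_inner_left, ContinuousLinearMap.adjoint_inner_left,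
      Complex.conj_conj, ← inner_smul_right, ← inner_sub_right, ← map_smul, ← map_sub, h3]

end Pool.Agent.N812.WO
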