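import Pool.Agent.N812.IS.Gen3
import Pool.Agent.N812.IS.L1

/-!
# Perturbations of multiplication operators: preparations
-/

set_option autoImplicit false

namespace Pool.Agent.N812.WO

open MeasureTheory Set Metric Filter Topology
open Pool.Agent.N812.IS
open scoped InnerProductSpace ENNReal NNReal ComplexConjugate

variable {S : Type} [MeasurableSpace S]

/-- operators of rank one -/
noncomputable def rk (v u : l2) : l2 →L[ℂ] l2 := (innerSL ℂ u).smulRight v

lemma rk_apply (v u c : l2) : rk v u c = ⟪u, c⟫_ℂ • v := rfl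

lemma rk_norm (v u : l2) : ‖rk v u‖ = ‖v‖ * ‖u‖ := by
  rw [rk, ContinuousLinearMap.norm_smulRight_apply, innerSL_apply_norm, mul_comm]

lemma rk_enorm (v u : l2) : ‖rk v u‖ₑ = ‖v‖ₑ * ‖u‖ₑ := by
  rw [← ofReal_norm, ← ofReal_norm, ← ofReal_norm, rk_norm, ENNReal.ofReal_mul (norm_nonneg _)]

lemma rk_cont : Continuous fun p : l2 × l2 => rk p.1 p.2 := by
  have h : Continuous fun p : l2 × l2 =>
      ContinuousLinearMap.smulRightL ℂ l2 l2 (innerSL ℂ p.2) p.1 :=
    (((ContinuousLinearMap.smulRightL ℂ l2 l2).continuous.comp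
      ((innerSL ℂ).continuous.comp continuous_snd))).clm_apply continuous_fst
  refine h.congr fun p => ?_
  rw [ContinuousLinearMap.smulRightL_apply_apply]
  rfl

lemma rk_meas {V U : S → l2} (hV : StronglyMeasurable V) (hU : StronglyMeasurable U) :
    StronglyMeasurable fun s => rk (V s) (U s) :=
  rk_cont.comp_stronglyMeasurable (hV.prodMk hU)

lemma rk_compact (v u : l2) : IsCompactOperator (rk v u) := by
  have h : rk v u = (ContinuousLinearMap.toSpanSingleton ℂ v).comp (innerSL ℂ u) := by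
    ext1 c
    rfl
  rw [h]
  have h1 : IsCompactOperator (innerSL ℂ u) := isCompactOperator_of_locallyCompactSpace_dom _
  exact h1.clm_comp (ContinuousLinearMap.toSpanSingleton ℂ v)

/-- Cauchy-Schwarz -/
lemma cs {μ : Measure S} {f g : S → ℝ≥0∞} (hf : AEMeasurable f μ) (hg : AEMeasurable g μ)
    {a b : ℝ≥0∞} (ha : ∫⁻ s, f s ^ 2 ∂μ ≤ a ^ 2) (hb : ∫⁻ s, g s ^ 2 ∂μ ≤ b ^ 2) :
    ∫⁻ s, f s * g s ∂μ ≤ a * b := by
  have h := ENNReal.lintegral_mul_le_Lp_mul_Lq μ Real.HolderConjugate.two_two hf hg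
  have e : ∀ x : ℝ≥0∞, (x ^ 2) ^ (1 / 2 : ℝ) = x := fun x => by
    rw [← ENNReal.rpow_natCast, ← ENNReal.rpow_mul]
    norm_num
  refine h.trans ?_
  simp only [ENNReal.rpow_two]
  calc (∫⁻ s, f s ^ 2 ∂μ) ^ (1 / 2 : ℝ) * (∫⁻ s, g s ^ 2 ∂μ) ^ (1 / 2 : ℝ)
      ≤ (a ^ 2) ^ (1 / 2 : ℝ) * (b ^ 2) ^ (1 / 2 : ℝ) :=
        mul_le_mul' (ENNReal.rpow_le_rpow ha (by norm_num)) (ENNReal.rpow_le_rpow hb (by norm_num))
    _ = a * b := by rw [e, e]

lemma vecS_meas {a : S → ℕ → ℂ} (ha : ∀ i, Measurable fun z => a z i) :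
    StronglyMeasurable fun z => vec (a z) := by
  classical
  set T : Set S := {z | ∑' i, ENNReal.ofReal (‖a z i‖ ^ 2) ≠ ⊤} with hT
  have hTm : MeasurableSet T := by
    have h1 : Measurable fun z => ∑' i, ENNReal.ofReal (‖a z i‖ ^ 2) :=
      Measurable.tsum fun i => ((ha i).norm.pow_const 2).ennreal_ofReal
    exact (measurableSet_eq_fun h1 measurable_const).compl
  have hTs : ∀ z, z ∈ T ↔ Summable fun i => ‖a z i‖ ^ 2 := by
    intro z
    constructor
    · intro hz
      have h1 := ENNReal.summable_toReal hz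
      refine h1.congr fun i => ?_
      rw [ENNReal.toReal_ofReal (by positivity)]
    · intro hz
      show _ ≠ ⊤
      rw [← ENNReal.ofReal_tsum_of_nonneg (fun i => by positivity) hz]
      exact ENNReal.ofReal_ne_top
  refine stronglyMeasurable_of_tendsto atTop (f := fun n => T.indicator fun z => tr (a z) n)
    (fun n => ?_) ?_
  · refine StronglyMeasurable.indicator ?_ hTm
    unfold tr
    exact Finset.stronglyMeasurable_fun_sum _ fun i _ =>
      (ha i).stronglyMeasurable.smul_const _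
  · rw [tendsto_pi_nhds]
    intro z
    by_cases hz : z ∈ T
    · simp only [indicator_of_mem hz]
      exact tr_tendsto ((hTs z).1 hz)
    · simp only [indicator_of_notMem hz]
      have : vec (a z) = 0 := by
        unfold vec
        rw [dif_neg]
        rw [memlp_iff, ← hTs]
        exact hz
      rw [this]
      exact tendsto_const_nhds

lemma inverseS_meas {T : S → (l2 →L[ℂ] l2)} (hT : StronglyMeasurable T) :
    StronglyMeasurable fun z => Ring.inverse (T z) := by
  classical
  borelize (l2 →L[ℂ] l2)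
  have hU : IsOpen {A : l2 →L[ℂ] l2 | IsUnit A} := Units.isOpen
  have hc : ContinuousOn (Ring.inverse : (l2 →L[ℂ] l2) → (l2 →L[ℂ] l2)) {A | IsUnit A} := by
    rintro A ⟨U, rfl⟩
    exact (NormedRing.inverse_continuousAt U).continuousWithinAt
  have hm : Measurable (Ring.inverse : (l2 →L[ℂ] l2) → (l2 →L[ℂ] l2)) := by
    have h1 : (Ring.inverse : (l2 →L[ℂ] l2) → (l2 →L[ℂ] l2)) =
        {A : l2 →L[ℂ] l2 | IsUnit A}.piecewise Ring.inverse (fun _ => 0) := by
      funext A
      by_cases hA : IsUnit A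
      · simp [Set.piecewise, hA]
      · simp [Set.piecewise, hA, Ring.inverse_non_unit _ hA]
    rw [h1]
    exact hc.measurable_piecewise continuousOn_const hU.measurableSet
  rw [stronglyMeasurable_iff_measurable_separable]
  refine ⟨hm.comp hT.measurable, ?_⟩
  have h2 : TopologicalSpace.IsSeparable (range T ∩ {A | IsUnit A}) :=
    hT.isSeparable_range.mono inter_subset_left
  have h3 := (hc.mono (inter_subset_right (s := range T))).isSeparable_image h2
  refine (h3.union (Set.finite_singleton (0 : l2 →L[ℂ] l2)).isSeparable).mono ?_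
  rintro _ ⟨z, rfl⟩
  by_cases hz : IsUnit (T z)
  · exact Or.inl ⟨T z, ⟨⟨z, rfl⟩, hz⟩, rfl⟩
  · right
    rw [mem_singleton_iff]
    exact Ring.inverse_non_unit _ hz

/-- integrals of functions with values in a closed subspace -/
lemma int_mem {μ : Measure S} {F : Type} [NormedAddCommGroup F] [NormedSpace ℂ F] [CompleteSpace F]
    (R : Submodule ℂ F) (hR : IsClosed (R : Set F)) {f : S → F} (hf : ∀ s, f s ∈ R) :
    ∫ s, f s ∂μ ∈ R := by
  by_cases hi : Integrable f μ
  · by_contra hcon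
    obtain ⟨l, h1, h2⟩ := exists_functional R hR hcon
    apply h1
    rw [← l.integral_comp_comm hi]
    simp [h2 _ (hf _)]
  · rw [integral_undef hi]
    exact R.zero_mem

/-- limits in `L²` and pointwise limits -/
lemma sum_ae {μ : Measure S} {F : ℕ → Lp ℂ 2 μ} {G : Lp ℂ 2 μ} {g : S → ℂ}
    (h : Tendsto F atTop (𝓝 G))
    (h2 : ∀ᵐ s ∂μ, Tendsto (fun n => F n s) atTop (𝓝 (g s))) : G =ᵐ[μ] g := by
  obtain ⟨ns, hns, h3⟩ := (tendstoInMeasure_of_tendsto_Lp h).exists_seq_tendsto_ae
  filter_upwards [h2, h3] with s h4 h5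
  exact tendsto_nhds_unique h5 (h4.comp hns.tendsto_atTop)

/-! ### projections onto kernels -/

section Ker

variable {H : Type} [NormedAddCommGroup H] [InnerProductSpace ℂ H] [CompleteSpace H]

lemma re_one_add (D : H →L[ℂ] H) (n : ℕ) (x : H) :
    ‖x‖ ^ 2 ≤ (⟪(1 + (n : ℂ) • (ContinuousLinearMap.adjoint D * D)) x, x⟫_ℂ).re := by
  have e : ⟪(1 + (n : ℂ) • (ContinuousLinearMap.adjoint D * D)) x, x⟫_ℂ =
      ⟪x, x⟫_ℂ + (n : ℂ) * ⟪D x, D x⟫_ℂ := by
    simp only [ContinuousLinearMap.add_apply, ContinuousLinearMap.one_apply,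
      ContinuousLinearMap.smul_apply, inner_add_left, inner_smul_left]
    rw [ContinuousLinearMap.mul_apply, ContinuousLinearMap.adjoint_inner_left]
    simp
  rw [e, inner_self_eq_norm_sq_to_K, inner_self_eq_norm_sq_to_K]
  have : (((‖x‖ : ℝ) : ℂ) ^ 2 + (n : ℂ) * ((‖D x‖ : ℝ) : ℂ) ^ 2).re = ‖x‖ ^ 2 + n * ‖D x‖ ^ 2 := by
    norm_cast
  have h2 : 0 ≤ (n : ℝ) * ‖D x‖ ^ 2 := by positivity
  have h3 := this
  simp only [Complex.coe_algebraMap] at *
  rw [this]
  linarith

lemma unit_one_add (D : H →L[ℂ] H) (n : ℕ) :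
    IsUnit (1 + (n : ℂ) • (ContinuousLinearMap.adjoint D * D)) := by
  refine ContinuousLinearMap.isUnit_of_forall_le_norm_inner_map _ (c := 1) one_pos fun x => ?_
  rw [NNReal.coe_one, mul_one]
  exact (re_one_add D n x).trans ((Complex.re_le_norm _))

lemma inv_le (D : H →L[ℂ] H) (n : ℕ) (x : H) :
    ‖Ring.inverse (1 + (n : ℂ) • (ContinuousLinearMap.adjoint D * D)) x‖ ≤ ‖x‖ := by
  set B := 1 + (n : ℂ) • (ContinuousLinearMap.adjoint D * D) with hB
  set y := Ring.inverse B x with hy
  have h1 : B y = x := by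
    have := Ring.mul_inverse_cancel B (unit_one_add D n)
    have h2 := congrArg (fun R : H →L[ℂ] H => R x) this
    exact h2
  have h2 := re_one_add D n y
  rw [← hB, h1] at h2
  have h3 : (⟪x, y⟫_ℂ).re ≤ ‖x‖ * ‖y‖ := (Complex.re_le_norm _).trans (norm_inner_le_norm _ _)
  by_contra hcon
  push Not at hcon
  have h4 : 0 ≤ ‖x‖ := norm_nonneg _
  nlinarith

/-- the inverses of `1 + n D* D` -/
noncomputable def Rn (D : H →L[ℂ] H) (n : ℕ) : H →L[ℂ] H :=
  Ring.inverse (1 + (n : ℂ) • (ContinuousLinearMap.adjoint D * D))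

lemma Rn_mul (D : H →L[ℂ] H) (n : ℕ) (x : H) :
    Rn D n x + (n : ℂ) • Rn D n ((ContinuousLinearMap.adjoint D * D) x) = x := by
  have h := Ring.inverse_mul_cancel _ (unit_one_add D n)
  have h2 := congrArg (fun R : H →L[ℂ] H => R x) h
  change Rn D n ((1 + (n : ℂ) • (ContinuousLinearMap.adjoint D * D)) x) = x at h2
  rw [ContinuousLinearMap.add_apply, ContinuousLinearMap.one_apply,
    ContinuousLinearMap.smul_apply, map_add, map_smul] at h2
  exact h2

/-- the kernel of `D* D` -/
noncomputable def kr (D : H →L[ℂ] H) : Submodule ℂ H :=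
  LinearMap.ker ((ContinuousLinearMap.adjoint D * D : H →L[ℂ] H) : H →ₗ[ℂ] H)

lemma mem_kr (D : H →L[ℂ] H) (x : H) : x ∈ kr D ↔ D x = 0 := by
  constructor
  · intro h
    have h1 : ContinuousLinearMap.adjoint D (D x) = 0 := h
    have h2 : ⟪D x, D x⟫_ℂ = 0 := by
      rw [← ContinuousLinearMap.adjoint_inner_left, h1, inner_zero_left]
    exact inner_self_eq_zero.1 h2
  · intro h
    show ContinuousLinearMap.adjoint D (D x) = 0
    rw [h, map_zero]

instance (D : H →L[ℂ] H) : (kr D).HasOrthogonalProjection := by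
  have : IsClosed ((kr D : Submodule ℂ H) : Set H) :=
    (ContinuousLinearMap.adjoint D * D : H →L[ℂ] H).isClosed_ker
  have h2 : CompleteSpace (kr D) := this.completeSpace_coe
  infer_instance

/-- the projection onto the kernel is a limit of inverses -/
lemma ker_lim (D : H →L[ℂ] H) (x : H) :
    Tendsto (fun n : ℕ => Rn D n x) atTop (𝓝 ((kr D).starProjection x)) := by
  set A : H →L[ℂ] H := ContinuousLinearMap.adjoint D * D with hA
  have hAd : ContinuousLinearMap.adjoint A = A := by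
    rw [hA, ← ContinuousLinearMap.star_eq_adjoint, ← ContinuousLinearMap.star_eq_adjoint, star_mul,
      star_star]
  set p := (kr D).starProjection x with hp
  have hpm : p ∈ kr D := (kr D).starProjection_apply_mem x
  have hpR : ∀ n : ℕ, Rn D n p = p := by
    intro n
    have h1 := Rn_mul D n p
    have h2 : (ContinuousLinearMap.adjoint D * D) p = 0 := hpm
    rw [h2, map_zero, smul_zero, add_zero] at h1
    exact h1
  have hq : x - p ∈ closure ((LinearMap.range (A : H →ₗ[ℂ] H) : Submodule ℂ H) : Set H) := by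
    have h1 : x - p ∈ (kr D)ᗮ := by
      rw [Submodule.mem_orthogonal']
      intro w hw
      exact Submodule.starProjection_inner_eq_zero x w hw
    have h2 := ContinuousLinearMap.orthogonal_ker A
    rw [hAd] at h2
    have h3 : x - p ∈ (LinearMap.range (A : H →ₗ[ℂ] H)).topologicalClosure := by
      rw [← h2]
      exact h1
    rw [← Submodule.topologicalClosure_coe]
    exact h3
  have hlim : Tendsto (fun n : ℕ => Rn D n (x - p)) atTop (𝓝 0) := by
    rw [Metric.tendsto_atTop]
    intro ε hε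
    obtain ⟨_, ⟨y, rfl⟩, hy⟩ := Metric.mem_closure_iff.1 hq (ε / 2) (by positivity)
    obtain ⟨n₀, hn₀⟩ := exists_nat_gt (2 * ‖y‖ / (ε / 2))
    refine ⟨n₀ + 1, fun n hn => ?_⟩
    rw [dist_zero_right]
    have hn1 : (n₀ : ℝ) + 1 ≤ n := by exact_mod_cast hn
    have hn0 : (0:ℝ) < n := by
      have : (0:ℝ) ≤ n₀ := Nat.cast_nonneg _
      linarith
    have e1 : Rn D n (x - p) = Rn D n (x - p - A y) + Rn D n (A y) := by
      rw [← map_add]
      congr 1
      abel
    have h2 : ‖Rn D n (x - p - A y)‖ < ε / 2 :=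
      lt_of_le_of_lt (inv_le D n _) (by rw [← dist_eq_norm]; exact hy)
    have h3 : ‖Rn D n (A y)‖ ≤ 2 * ‖y‖ / n := by
      have h4 := Rn_mul D n y
      have h5 : (n : ℂ) • Rn D n (A y) = y - Rn D n y := by
        rw [eq_sub_iff_add_eq, add_comm]
        exact h4
      have h6 : (n : ℝ) * ‖Rn D n (A y)‖ ≤ 2 * ‖y‖ := by
        have h7 : ‖(n : ℂ) • Rn D n (A y)‖ = n * ‖Rn D n (A y)‖ := by
          rw [norm_smul]
          simp
        rw [← h7, h5]
        have := norm_sub_le y (Rn D n y)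
        have := inv_le D n y
        unfold Rn at *
        linarith
      rw [le_div_iff₀ hn0, mul_comm]
      exact h6
    have h4 : 2 * ‖y‖ / n < ε / 2 := by
      rw [div_lt_iff₀ (by positivity)] at hn₀ ⊢
      nlinarith
    rw [e1]
    have := norm_add_le (Rn D n (x - p - A y)) (Rn D n (A y))
    linarith
  have h1 : (fun n : ℕ => Rn D n x) = fun n => Rn D n (x - p) + p := by
    funext n
    have := hpR n
    rw [map_sub, this]
    abel
  rw [h1]
  have := hlim.add_const p
  rwa [zero_add] at this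

end Ker

end Pool.Agent.N812.WO
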