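import Pool.Agent.N812.WO.Zk

/-!
# Perturbations of multiplication operators: the chain rule
-/

set_option autoImplicit false

namespace Pool.Agent.N812.WO

open MeasureTheory Set Metric Filter Topology
open Pool.Agent.N812.IS
open scoped InnerProductSpace ENNReal NNReal ComplexConjugate

variable {S : Type} [MeasurableSpace S] {μ : Measure S} {φ : S → ℂ} {E : Set S} {V : S → l2}
  {U : ℕ → S → l2} {A B : ℕ → ℂ → ℂ} {n f h a : ℕ → ℝ≥0}

open Classical in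
/-- the vector of a function -/
noncomputable def vl (μ : Measure S) (y : S → ℂ) : Lp ℂ 2 μ :=
  if h : MemLp y 2 μ then h.toLp _ else 0

lemma vl_ae {y : S → ℂ} (hy : MemLp y 2 μ) : vl μ y =ᵐ[μ] y := by
  rw [vl, dif_pos hy]
  exact MemLp.coeFn_toLp _

/-- the vector with the function `⟪U k w, c⟫` -/
noncomputable def uc (μ : Measure S) (U : ℕ → S → l2) (k : ℕ) (c : l2) : Lp ℂ 2 μ :=
  vl μ fun w => ⟪U k w, c⟫_ℂ

/-- `V* f` -/
noncomputable def vs (μ : Measure S) (V : S → l2) (g : Lp ℂ 2 μ) : l2 := ∫ w, g w • V w ∂μ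

/-- the operator `T` is the multiplication by `φ` plus the perturbation -/
structure Op (μ : Measure S) (φ : S → ℂ) (V : S → l2) (U : ℕ → S → l2)
    (N T : Lp ℂ 2 μ →L[ℂ] Lp ℂ 2 μ) : Prop where
  mul : ∀ g : Lp ℂ 2 μ, N g =ᵐ[μ] fun s => φ s * g s
  sum : ∀ g : Lp ℂ 2 μ, HasSum (fun k => uc μ U k (vs μ V g)) (T g - N g)

/-- the pairs -/
structure Pr (μ : Measure S) (φ : S → ℂ) (E : Set S) (V : S → l2) (U : ℕ → S → l2)
    (A B : ℕ → ℂ → ℂ) (a : ℕ → ℝ≥0) (y : S → ℂ) (ξ : S → l2) (M : ℝ≥0) : Prop where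
  ym : Measurable y
  yb : ∀ z, ‖y z‖ ≤ M
  y0 : ∀ z, z ∉ E → y z = 0
  xb : Bx ξ M
  eq : ∀ᵐ z ∂(μ.restrict E), y z • V z + GG μ φ V U A B a z (ξ z) = ξ z

/-- the vector of a pair -/
noncomputable def vx (μ : Measure S) (φ : S → ℂ) (E : Set S) (U : ℕ → S → l2) (y : S → ℂ)
    (ξ : S → l2) : Lp ℂ 2 μ := vl μ y + zt μ φ E U ξ

lemma sm_app {T : S → (l2 →L[ℂ] l2)} {ξ : S → l2} (hT : StronglyMeasurable T)
    (hx : StronglyMeasurable ξ) : StronglyMeasurable fun z => T z (ξ z) :=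
  isBoundedBilinearMap_apply.continuous.comp_stronglyMeasurable (hT.prodMk hx)

section

variable [SigmaFinite μ]

lemma Dat.uc_memLp (D : Dat μ φ E V U A B n f h a) (k : ℕ) (c : l2) :
    MemLp (fun w => ⟪U k w, c⟫_ℂ) 2 μ :=
  ⟨((D.Um k).inner stronglyMeasurable_const).aestronglyMeasurable,
    lt_of_le_of_lt (elp_sq (D.Ua k c)) (ENNReal.mul_lt_top ENNReal.coe_lt_top enorm_lt_top)⟩

lemma Dat.vs_int (D : Dat μ φ E V U A B n f h a) (g : Lp ℂ 2 μ) :
    ∫⁻ w, ‖g w • V w‖ₑ ∂μ ≤ ‖g‖ₑ * vn μ V := by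
  simp_rw [enorm_smul]
  refine cs (Lp.aestronglyMeasurable g).enorm D.Vm.enorm.aemeasurable ?_ (vn_sq μ V).le
  rw [Lp.enorm_def, eLpNorm_eq_lintegral_rpow_enorm_toReal (by norm_num) (by norm_num)]
  have e : (2 : ℝ≥0∞).toReal = 2 := by norm_num
  rw [e, half_sq]
  simp only [ENNReal.rpow_two]
  exact le_rfl

lemma Dat.vs_integrable (D : Dat μ φ E V U A B n f h a) (g : Lp ℂ 2 μ) :
    Integrable (fun w => g w • V w) μ := by
  refine ⟨(Lp.aestronglyMeasurable g).smul D.Vm.aestronglyMeasurable, ?_⟩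
  rw [hasFiniteIntegral_iff_enorm]
  exact lt_of_le_of_lt (D.vs_int g) (ENNReal.mul_lt_top enorm_lt_top
    (lt_top_iff_ne_top.2 D.vn_ne))

/-- `V*` as an operator -/
noncomputable def Dat.vsL (D : Dat μ φ E V U A B n f h a) : Lp ℂ 2 μ →L[ℂ] l2 :=
  LinearMap.mkContinuous
    { toFun := fun g => vs μ V g
      map_add' := fun g g' => by
        unfold vs
        rw [← integral_add (D.vs_integrable g) (D.vs_integrable g')]
        refine integral_congr_ae ?_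
        filter_upwards [Lp.coeFn_add g g'] with w hw
        rw [hw, Pi.add_apply, add_smul]
      map_smul' := fun c g => by
        unfold vs
        rw [RingHom.id_apply, ← integral_smul]
        refine integral_congr_ae ?_
        filter_upwards [Lp.coeFn_smul c g] with w hw
        rw [hw, Pi.smul_apply, smul_assoc] } (vn μ V).toReal fun g => by
    show ‖vs μ V g‖ ≤ _
    have h1 : ‖vs μ V g‖ₑ ≤ ‖g‖ₑ * vn μ V :=
      (enorm_integral_le_lintegral_enorm _).trans (D.vs_int g)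
    have h2 := ENNReal.toReal_mono (ENNReal.mul_ne_top enorm_ne_top D.vn_ne) h1
    rw [ENNReal.toReal_mul, toReal_enorm, toReal_enorm, mul_comm] at h2
    exact h2

lemma Dat.vsL_apply (D : Dat μ φ E V U A B n f h a) (g : Lp ℂ 2 μ) : D.vsL g = vs μ V g := rfl

lemma Pr.memLp (D : Dat μ φ E V U A B n f h a) {y : S → ℂ} {M : ℝ≥0} (ym : Measurable y)
    (yb : ∀ z, ‖y z‖ ≤ M) (y0 : ∀ z, z ∉ E → y z = 0) : MemLp y 2 μ := by
  have h1 : MemLp (E.indicator fun _ => (M : ℝ)) 2 μ := by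
    refine (memLp_indicator_const 2 D.Em (M : ℝ) (Or.inr D.Ef))
  refine h1.mono' ym.aestronglyMeasurable (Eventually.of_forall fun z => ?_)
  by_cases hz : z ∈ E
  · rw [indicator_of_mem hz]
    exact yb z
  · rw [indicator_of_notMem hz, y0 z hz, norm_zero]

lemma Pr.norm (D : Dat μ φ E V U A B n f h a) {y : S → ℂ} {M : ℝ≥0} (ym : Measurable y)
    (yb : ∀ z, ‖y z‖ ≤ M) (y0 : ∀ z, z ∉ E → y z = 0) :
    ‖vl μ y‖ ≤ M * ((μ E) ^ (1 / 2 : ℝ)).toReal := by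
  have hm := Pr.memLp D ym yb y0
  have h1 : ∫⁻ w, ‖y w‖ₑ ^ 2 ∂μ ≤ (M * (μ E) ^ (1 / 2 : ℝ)) ^ 2 := by
    rw [mul_pow, half_sq]
    calc ∫⁻ w, ‖y w‖ₑ ^ 2 ∂μ ≤ ∫⁻ w, E.indicator (fun _ => (M : ℝ≥0∞) ^ 2) w ∂μ := by
          refine lintegral_mono fun w => ?_
          by_cases hw : w ∈ E
          · simp only [indicator_of_mem hw]
            refine pow_le_pow_left' ?_ 2
            rw [← ofReal_norm]
            exact (ENNReal.ofReal_le_ofReal (yb w)).trans (le_of_eq ENNReal.ofReal_coe_nnreal)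
          · simp only [indicator_of_notMem hw]
            rw [y0 w hw]
            simp
      _ = (M : ℝ≥0∞) ^ 2 * μ E := by rw [lintegral_indicator_const D.Em]
  rw [vl, dif_pos hm, Lp.norm_toLp]
  have h2 := ENNReal.toReal_mono (ENNReal.mul_ne_top ENNReal.coe_ne_top
    (ENNReal.rpow_ne_top_of_nonneg (by norm_num) D.Ef)) (elp_sq h1)
  rwa [ENNReal.toReal_mul, ENNReal.coe_toReal] at h2

lemma Dat.Gxi_le (D : Dat μ φ E V U A B n f h a) (k : ℕ) {ξ : S → l2} {M : ℝ≥0} (hx : Bx ξ M) :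
    ∫⁻ z in E, ‖Gk μ φ V U k z (ξ z)‖ₑ ∂μ ≤ (∫⁻ z in E, bk μ φ V U A B a k z ∂μ) * M := by
  rw [← lintegral_mul_const _ (D.bk_meas k)]
  refine lintegral_mono_ae ?_
  filter_upwards [D.Gd_ae] with z hz
  have h1 : ‖Gk μ φ V U k z (ξ z)‖ₑ ≤ ‖Gk μ φ V U k z‖ₑ * ‖ξ z‖ₑ := by
    rw [← ofReal_norm, ← ofReal_norm, ← ofReal_norm, ← ENNReal.ofReal_mul (norm_nonneg _)]
    exact ENNReal.ofReal_le_ofReal (ContinuousLinearMap.le_opNorm _ _)
  exact h1.trans (mul_le_mul' (D.Gk_le k hz) (hx.ebd z))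

lemma Dat.Gxi_int (D : Dat μ φ E V U A B n f h a) (k : ℕ) {ξ : S → l2} {M : ℝ≥0} (hx : Bx ξ M) :
    Integrable (fun z => Gk μ φ V U k z (ξ z)) (μ.restrict E) := by
  refine ⟨(sm_app (D.Gk_meas k) hx.meas).aestronglyMeasurable, ?_⟩
  rw [hasFiniteIntegral_iff_enorm]
  refine lt_of_le_of_lt (D.Gxi_le k hx) (ENNReal.mul_lt_top (lt_top_iff_ne_top.2 ?_)
    ENNReal.coe_lt_top)
  have h1 := D.bk_int
  rw [lintegral_tsum fun k => (D.bk_meas k).aemeasurable] at h1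
  exact ne_top_of_le_ne_top h1 (ENNReal.le_tsum k)

/-- the sum of the integrals of `G k (z) ξ(z)` -/
lemma Dat.Gxi_sum (D : Dat μ φ E V U A B n f h a) {ξ : S → l2} {M : ℝ≥0} (hx : Bx ξ M) :
    HasSum (fun k => ∫ z in E, Gk μ φ V U k z (ξ z) ∂μ)
      (∫ z in E, GG μ φ V U A B a z (ξ z) ∂μ) ∧
    Integrable (fun z => GG μ φ V U A B a z (ξ z)) (μ.restrict E) := by
  have h1 := D.bk_int
  rw [lintegral_tsum fun k => (D.bk_meas k).aemeasurable] at h1
  have h2 : ∑' k, (∫⁻ z in E, bk μ φ V U A B a k z ∂μ) * M ≠ ⊤ := by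
    rw [ENNReal.tsum_mul_right]
    exact ENNReal.mul_ne_top h1 ENNReal.coe_ne_top
  have h2k : ∀ k, (∫⁻ z in E, bk μ φ V U A B a k z ∂μ) * M ≠ ⊤ := fun k =>
    ne_top_of_le_ne_top h2 (ENNReal.le_tsum k)
  have h3 : Summable fun k => ∫ z in E, ‖Gk μ φ V U k z (ξ z)‖ ∂μ := by
    refine (ENNReal.summable_toReal h2).of_nonneg_of_le
      (fun k => integral_nonneg fun z => norm_nonneg _) fun k => ?_
    rw [integral_norm_eq_lintegral_enorm (D.Gxi_int k hx).1]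
    exact ENNReal.toReal_mono (h2k k) (D.Gxi_le k hx)
  have e : ∀ᵐ z ∂(μ.restrict E), ∑' k, Gk μ φ V U k z (ξ z) = GG μ φ V U A B a z (ξ z) := by
    filter_upwards [D.Gd_ae] with z hz
    have h5 := (D.GG_hasSum hz).mapL (ContinuousLinearMap.apply ℂ l2 (ξ z))
    exact h5.tsum_eq
  have h4 := hasSum_integral_of_summable_integral_norm (fun k => D.Gxi_int k hx) h3
  rw [integral_congr_ae e] at h4
  refine ⟨h4, ?_⟩
  refine ⟨(sm_app D.GG_meas hx.meas).aestronglyMeasurable, ?_⟩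
  rw [hasFiniteIntegral_iff_enorm]
  have h6 : ∫⁻ z in E, ‖GG μ φ V U A B a z (ξ z)‖ₑ ∂μ ≤
      ∫⁻ z in E, ∑' k, ‖Gk μ φ V U k z (ξ z)‖ₑ ∂μ := by
    refine lintegral_mono_ae ?_
    filter_upwards [e] with z hz
    rw [← hz]
    exact enorm_tsum_le_tsum_enorm
  refine lt_of_le_of_lt h6 ?_
  rw [lintegral_tsum fun k => (D.Gxi_int k hx).1.enorm]
  exact lt_of_le_of_lt (ENNReal.tsum_le_tsum fun k => D.Gxi_le k hx) (lt_top_iff_ne_top.2 h2)

/-- `V*` of the vector of a pair -/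
lemma Dat.vs_vx (D : Dat μ φ E V U A B n f h a) {y : S → ℂ} {ξ : S → l2} {M : ℝ≥0}
    (hp : Pr μ φ E V U A B a y ξ M) : vs μ V (vx μ φ E U y ξ) = ∫ z in E, ξ z ∂μ := by
  have hm := Pr.memLp D hp.ym hp.yb hp.y0
  have h1 : vs μ V (vl μ y) = ∫ z in E, y z • V z ∂μ := by
    unfold vs
    rw [← integral_indicator D.Em]
    refine integral_congr_ae ?_
    filter_upwards [vl_ae hm] with w hw
    rw [hw]
    by_cases hwE : w ∈ E
    · rw [indicator_of_mem hwE]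
    · rw [indicator_of_notMem hwE, hp.y0 w hwE, zero_smul]
  have h1i : Integrable (fun z => y z • V z) (μ.restrict E) := by
    have h2 : Integrable (fun z => y z • V z) μ := by
      refine (D.vs_integrable (vl μ y)).congr ?_
      filter_upwards [vl_ae hm] with w hw
      rw [hw]
    exact h2.integrableOn
  have h2 : HasSum (fun k => vs μ V (zk μ φ E U ξ k)) (vs μ V (zt μ φ E U ξ)) :=
    (D.zt_hasSum hp.xb).mapL D.vsL
  have h3 : ∀ k, vs μ V (zk μ φ E U ξ k) = ∫ z in E, Gk μ φ V U k z (ξ z) ∂μ := by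
    intro k
    rw [← D.zf_V k hp.xb]
    unfold vs
    refine integral_congr_ae ?_
    filter_upwards [D.zk_ae k hp.xb] with w hw
    rw [hw]
  simp_rw [h3] at h2
  obtain ⟨h4, h5⟩ := D.Gxi_sum hp.xb
  have h6 := h2.unique h4
  have h7 : vs μ V (vx μ φ E U y ξ) = vs μ V (vl μ y) + vs μ V (zt μ φ E U ξ) :=
    D.vsL.map_add _ _
  rw [h7, h6, h1, ← integral_add h1i h5]
  exact integral_congr_ae hp.eq

/-- **The chain rule** -/
theorem Dat.chain (D : Dat μ φ E V U A B n f h a) {N T : Lp ℂ 2 μ →L[ℂ] Lp ℂ 2 μ}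
    (hT : Op μ φ V U N T) {y : S → ℂ} {ξ : S → l2} {M : ℝ≥0}
    (hp : Pr μ φ E V U A B a y ξ M) {c : ℂ} {L : ℝ≥0} (hL : ∀ z, ‖φ z - c‖ ≤ L) :
    T (vx μ φ E U y ξ) - c • vx μ φ E U y ξ =
      vx μ φ E U (fun z => (φ z - c) * y z) (fun z => (φ z - c) • ξ z) := by
  set e : l2 := ∫ z in E, ξ z ∂μ with he
  have hm := Pr.memLp D hp.ym hp.yb hp.y0
  have hx' := hp.xb.smul (D.phi.sub_const c) hL
  have hm' : MemLp (fun z => (φ z - c) * y z) 2 μ := by
    refine Pr.memLp (M := L * M) D ((D.phi.sub_const c).mul hp.ym) (fun z => ?_) fun z hz => ?_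
    · rw [norm_mul, NNReal.coe_mul]
      exact mul_le_mul (hL z) (hp.yb z) (norm_nonneg _) L.2
    · rw [hp.y0 z hz, mul_zero]
  -- the first part
  have h1 : N (vl μ y) - c • vl μ y = vl μ fun z => (φ z - c) * y z := by
    apply Lp.ext
    filter_upwards [Lp.coeFn_sub (N (vl μ y)) (c • vl μ y), Lp.coeFn_smul c (vl μ y),
      hT.mul (vl μ y), vl_ae hm, vl_ae hm'] with w h1 h2 h3 h4 h5
    rw [h1, Pi.sub_apply, h2, Pi.smul_apply, h3, h4, h5, smul_eq_mul]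
    ring
  -- the second part
  have h2 : ∀ k, N (zk μ φ E U ξ k) - c • zk μ φ E U ξ k + uc μ U k e =
      zk μ φ E U (fun z => (φ z - c) • ξ z) k := by
    intro k
    apply Lp.ext
    filter_upwards [Lp.coeFn_add (N (zk μ φ E U ξ k) - c • zk μ φ E U ξ k) (uc μ U k e),
      Lp.coeFn_sub (N (zk μ φ E U ξ k)) (c • zk μ φ E U ξ k),
      Lp.coeFn_smul c (zk μ φ E U ξ k), hT.mul (zk μ φ E U ξ k), D.zk_ae k hp.xb,
      D.zk_ae k hx', vl_ae (D.uc_memLp k e)] with w g0 g1 g2 g3 g4 g5 g6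
    rw [g0, Pi.add_apply, g1, Pi.sub_apply, g2, Pi.smul_apply, g3, g4, g5, smul_eq_mul]
    have g7 := D.zf_step k hp.xb hL w
    have g8 : uc μ U k e w = ⟪U k w, e⟫_ℂ := g6
    rw [g8]
    linear_combination g7
  have h3 : HasSum (fun k => N (zk μ φ E U ξ k) - c • zk μ φ E U ξ k)
      (N (zt μ φ E U ξ) - c • zt μ φ E U ξ) :=
    ((D.zt_hasSum hp.xb).mapL N).sub ((D.zt_hasSum hp.xb).const_smul c)
  have h4 := hT.sum (vx μ φ E U y ξ)
  rw [D.vs_vx hp, ← he] at h4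
  have h5 := h3.add h4
  simp_rw [h2] at h5
  have h6 := h5.unique (D.zt_hasSum hx')
  unfold vx at *
  rw [← h1, ← h6, N.map_add, smul_add]
  abel

end

end Pool.Agent.N812.WO
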