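import Pool.Agent.N812.WO.Bas

/-!
# Perturbations of multiplication operators: the operators `G(z)`
-/

set_option autoImplicit false

namespace Pool.Agent.N812.WO

open MeasureTheory Set Metric Filter Topology
open Pool.Agent.N812.IS
open scoped InnerProductSpace ENNReal NNReal ComplexConjugate

variable {S : Type} [MeasurableSpace S] {μ : Measure S} {φ : S → ℂ} {E : Set S} {V : S → l2}
  {U : ℕ → S → l2} {A B : ℕ → ℂ → ℂ} {n f h a : ℕ → ℝ≥0}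

/-- the data: a set `E` where the potentials of `φ` are bounded, the two factors `V`, `U` of the
perturbation, the second one in blocks, and for each block a splitting of the kernel `1 / ζ` -/
structure Dat (μ : Measure S) (φ : S → ℂ) (E : Set S) (V : S → l2) (U : ℕ → S → l2)
    (A B : ℕ → ℂ → ℂ) (n f h a : ℕ → ℝ≥0) : Prop where
  phi : Measurable φ
  phib : ∃ b : ℝ, ∀ s, ‖φ s‖ ≤ b
  Em : MeasurableSet E
  Ef : μ E ≠ ⊤
  pot : ∃ C : ℝ≥0, ∀ w, ∫⁻ z in E, ‖φ z - φ w‖ₑ⁻¹ ∂μ ≤ C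
  Vm : StronglyMeasurable V
  Vf : ∫⁻ w, ‖V w‖ₑ ^ 2 ∂μ ≠ ⊤
  Um : ∀ k, StronglyMeasurable (U k)
  Am : ∀ k, Measurable (A k)
  Bm : ∀ k, Measurable (B k)
  AB : ∀ k ζ, A k ζ + B k ζ = ζ⁻¹
  An : ∀ k w, ∫⁻ z in E, ‖A k (φ z - φ w)‖ₑ ∂μ ≤ n k
  Bf : ∀ k w, ∫⁻ z in E, ‖B k (φ z - φ w)‖ₑ ^ 2 ∂μ ≤ (f k : ℝ≥0∞) ^ 2
  Uh : ∀ k, ∫⁻ w, ‖U k w‖ₑ ^ 2 ∂μ ≤ (h k : ℝ≥0∞) ^ 2
  Ua : ∀ k (c : l2), ∫⁻ w, ‖⟪U k w, c⟫_ℂ‖ₑ ^ 2 ∂μ ≤ ((a k : ℝ≥0∞) * ‖c‖ₑ) ^ 2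
  sum : ∑' k, ((h k : ℝ≥0∞) * n k + a k * f k) ≠ ⊤

/-- the operator `G k (z)` -/
noncomputable def Gk (μ : Measure S) (φ : S → ℂ) (V : S → l2) (U : ℕ → S → l2) (k : ℕ) (z : S) :
    l2 →L[ℂ] l2 := ∫ w, (φ z - φ w)⁻¹ • rk (V w) (U k w) ∂μ

/-- the near part of the bound -/
noncomputable def al (μ : Measure S) (φ : S → ℂ) (V : S → l2) (U : ℕ → S → l2) (A : ℕ → ℂ → ℂ)
    (k : ℕ) (z : S) : ℝ≥0∞ := ∫⁻ w, ‖A k (φ z - φ w)‖ₑ * (‖V w‖ₑ * ‖U k w‖ₑ) ∂μ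

/-- the far part of the bound -/
noncomputable def be (μ : Measure S) (φ : S → ℂ) (V : S → l2) (B : ℕ → ℂ → ℂ)
    (k : ℕ) (z : S) : ℝ≥0∞ := ∫⁻ w, ‖B k (φ z - φ w)‖ₑ ^ 2 * ‖V w‖ₑ ^ 2 ∂μ

/-- the norm of `V` -/
noncomputable def vn (μ : Measure S) (V : S → l2) : ℝ≥0∞ := (∫⁻ w, ‖V w‖ₑ ^ 2 ∂μ) ^ (1 / 2 : ℝ)

lemma half_sq (x : ℝ≥0∞) : (x ^ (1 / 2 : ℝ)) ^ 2 = x := by
  rw [← ENNReal.rpow_natCast, ← ENNReal.rpow_mul]
  norm_num

lemma sq_half (x : ℝ≥0∞) : (x ^ 2) ^ (1 / 2 : ℝ) = x := by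
  rw [← ENNReal.rpow_natCast, ← ENNReal.rpow_mul]
  norm_num

lemma vn_sq (μ : Measure S) (V : S → l2) : ∫⁻ w, ‖V w‖ₑ ^ 2 ∂μ = vn μ V ^ 2 := by
  rw [vn, half_sq]

section

variable [SigmaFinite μ]

lemma Dat.vn_ne (D : Dat μ φ E V U A B n f h a) : vn μ V ≠ ⊤ :=
  ENNReal.rpow_ne_top_of_nonneg (by norm_num) D.Vf

lemma Dat.VU (D : Dat μ φ E V U A B n f h a) (k : ℕ) :
    ∫⁻ w, ‖V w‖ₑ * ‖U k w‖ₑ ∂μ ≤ vn μ V * h k :=
  cs D.Vm.enorm.aemeasurable (D.Um k).enorm.aemeasurable (vn_sq μ V).le (D.Uh k)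

lemma Dat.ker_meas (D : Dat μ φ E V U A B n f h a) : Measurable fun p : S × S => φ p.1 - φ p.2 :=
  (D.phi.comp measurable_fst).sub (D.phi.comp measurable_snd)

lemma Dat.al_meas (D : Dat μ φ E V U A B n f h a) (k : ℕ) : Measurable (al μ φ V U A k) := by
  have h1 : Measurable fun p : S × S => ‖A k (φ p.1 - φ p.2)‖ₑ * (‖V p.2‖ₑ * ‖U k p.2‖ₑ) :=
    ((D.Am k).comp D.ker_meas).enorm.mul
      ((D.Vm.enorm.comp measurable_snd).mul ((D.Um k).enorm.comp measurable_snd))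
  exact h1.lintegral_prod_right'

lemma Dat.be_meas (D : Dat μ φ E V U A B n f h a) (k : ℕ) : Measurable (be μ φ V B k) := by
  have h1 : Measurable fun p : S × S => ‖B k (φ p.1 - φ p.2)‖ₑ ^ 2 * ‖V p.2‖ₑ ^ 2 :=
    (((D.Bm k).comp D.ker_meas).enorm.pow_const 2).mul
      ((D.Vm.enorm.comp measurable_snd).pow_const 2)
  exact h1.lintegral_prod_right'

lemma Dat.al_int (D : Dat μ φ E V U A B n f h a) (k : ℕ) :
    ∫⁻ z in E, al μ φ V U A k z ∂μ ≤ n k * (vn μ V * h k) := by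
  unfold al
  rw [lintegral_lintegral_swap]
  · calc ∫⁻ w, ∫⁻ z in E, ‖A k (φ z - φ w)‖ₑ * (‖V w‖ₑ * ‖U k w‖ₑ) ∂μ ∂μ
        ≤ ∫⁻ w, n k * (‖V w‖ₑ * ‖U k w‖ₑ) ∂μ := by
          refine lintegral_mono fun w => ?_
          simp only
          rw [lintegral_mul_const]
          · exact mul_le_mul' (D.An k w) le_rfl
          · exact ((D.Am k).comp (D.phi.sub_const _)).enorm
      _ = n k * ∫⁻ w, ‖V w‖ₑ * ‖U k w‖ₑ ∂μ := by
          rw [lintegral_const_mul' _ _ ENNReal.coe_ne_top]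
      _ ≤ n k * (vn μ V * h k) := mul_le_mul' le_rfl (D.VU k)
  · have h1 : Measurable fun p : S × S => ‖A k (φ p.1 - φ p.2)‖ₑ * (‖V p.2‖ₑ * ‖U k p.2‖ₑ) :=
      ((D.Am k).comp D.ker_meas).enorm.mul
        ((D.Vm.enorm.comp measurable_snd).mul ((D.Um k).enorm.comp measurable_snd))
    exact h1.aemeasurable

lemma Dat.be_int (D : Dat μ φ E V U A B n f h a) (k : ℕ) :
    ∫⁻ z in E, be μ φ V B k z ∂μ ≤ (f k * vn μ V) ^ 2 := by
  unfold be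
  rw [lintegral_lintegral_swap]
  · calc ∫⁻ w, ∫⁻ z in E, ‖B k (φ z - φ w)‖ₑ ^ 2 * ‖V w‖ₑ ^ 2 ∂μ ∂μ
        ≤ ∫⁻ w, (f k : ℝ≥0∞) ^ 2 * ‖V w‖ₑ ^ 2 ∂μ := by
          refine lintegral_mono fun w => ?_
          simp only
          rw [lintegral_mul_const]
          · exact mul_le_mul' (D.Bf k w) le_rfl
          · exact ((D.Bm k).comp (D.phi.sub_const _)).enorm.pow_const 2
      _ = (f k : ℝ≥0∞) ^ 2 * ∫⁻ w, ‖V w‖ₑ ^ 2 ∂μ := by
          rw [lintegral_const_mul' _ _ (ENNReal.pow_ne_top ENNReal.coe_ne_top)]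
      _ = (f k * vn μ V) ^ 2 := by rw [vn_sq, mul_pow]
  · have h1 : Measurable fun p : S × S => ‖B k (φ p.1 - φ p.2)‖ₑ ^ 2 * ‖V p.2‖ₑ ^ 2 :=
      (((D.Bm k).comp D.ker_meas).enorm.pow_const 2).mul
        ((D.Vm.enorm.comp measurable_snd).pow_const 2)
    exact h1.aemeasurable

lemma Dat.be_int2 (D : Dat μ φ E V U A B n f h a) (k : ℕ) :
    ∫⁻ z in E, (be μ φ V B k z) ^ (1 / 2 : ℝ) ∂μ ≤ (f k * vn μ V) * (μ E) ^ (1 / 2 : ℝ) := by
  have h1 := cs (μ := μ.restrict E) (f := fun z => (be μ φ V B k z) ^ (1 / 2 : ℝ))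
    (g := fun _ => 1) (a := f k * vn μ V) (b := (μ E) ^ (1 / 2 : ℝ))
    ((D.be_meas k).pow_const _).aemeasurable aemeasurable_const ?_ ?_
  · simpa using h1
  · simp only [half_sq]
    exact D.be_int k
  · rw [half_sq]
    simp

/-- the bound for `G k (z)` -/
noncomputable def bk (μ : Measure S) (φ : S → ℂ) (V : S → l2) (U : ℕ → S → l2) (A B : ℕ → ℂ → ℂ)
    (a : ℕ → ℝ≥0) (k : ℕ) (z : S) : ℝ≥0∞ :=
  al μ φ V U A k z + a k * (be μ φ V B k z) ^ (1 / 2 : ℝ)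

lemma Dat.bk_meas (D : Dat μ φ E V U A B n f h a) (k : ℕ) : Measurable (bk μ φ V U A B a k) :=
  (D.al_meas k).add (((D.be_meas k).pow_const _).const_mul _)

/-- the points where all integrals are finite -/
def Gd (μ : Measure S) (φ : S → ℂ) (V : S → l2) (U : ℕ → S → l2) (A B : ℕ → ℂ → ℂ)
    (a : ℕ → ℝ≥0) : Set S :=
  {z | ∑' k, bk μ φ V U A B a k z ≠ ⊤ ∧ ∀ k, be μ φ V B k z ≠ ⊤}

lemma Dat.Gd_meas (D : Dat μ φ E V U A B n f h a) : MeasurableSet (Gd μ φ V U A B a) := by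
  have h1 : MeasurableSet {z | ∑' k, bk μ φ V U A B a k z ≠ ⊤} :=
    (measurableSet_eq_fun (Measurable.tsum fun k => D.bk_meas k) measurable_const).compl
  have h2 : MeasurableSet (⋂ k, {z | be μ φ V B k z ≠ ⊤}) :=
    MeasurableSet.iInter fun k => (measurableSet_eq_fun (D.be_meas k) measurable_const).compl
  have e : Gd μ φ V U A B a = {z | ∑' k, bk μ φ V U A B a k z ≠ ⊤} ∩
      ⋂ k, {z | be μ φ V B k z ≠ ⊤} := by
    ext z
    simp [Gd]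
  rw [e]
  exact h1.inter h2

lemma Dat.bk_int (D : Dat μ φ E V U A B n f h a) :
    ∫⁻ z in E, ∑' k, bk μ φ V U A B a k z ∂μ ≠ ⊤ := by
  rw [lintegral_tsum fun k => (D.bk_meas k).aemeasurable]
  set C : ℝ≥0∞ := vn μ V + vn μ V * (μ E) ^ (1 / 2 : ℝ) with hC
  have hCt : C ≠ ⊤ := ENNReal.add_ne_top.2 ⟨D.vn_ne, ENNReal.mul_ne_top D.vn_ne
    (ENNReal.rpow_ne_top_of_nonneg (by norm_num) D.Ef)⟩
  have h1 : ∀ k, ∫⁻ z in E, bk μ φ V U A B a k z ∂μ ≤ C * ((h k : ℝ≥0∞) * n k + a k * f k) := by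
    intro k
    unfold bk
    rw [lintegral_add_left (D.al_meas k), lintegral_const_mul' _ _ ENNReal.coe_ne_top]
    calc ∫⁻ z in E, al μ φ V U A k z ∂μ + a k * ∫⁻ z in E, (be μ φ V B k z) ^ (1 / 2 : ℝ) ∂μ
        ≤ n k * (vn μ V * h k) + a k * ((f k * vn μ V) * (μ E) ^ (1 / 2 : ℝ)) :=
          add_le_add (D.al_int k) (mul_le_mul' le_rfl (D.be_int2 k))
      _ = vn μ V * (h k * n k) + (vn μ V * (μ E) ^ (1 / 2 : ℝ)) * (a k * f k) := by ring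
      _ ≤ C * (h k * n k) + C * (a k * f k) := by
          refine add_le_add (mul_le_mul' le_self_add le_rfl) (mul_le_mul' ?_ le_rfl)
          rw [hC]
          exact le_add_self
      _ = C * ((h k : ℝ≥0∞) * n k + a k * f k) := by ring
  refine ne_top_of_le_ne_top ?_ (ENNReal.tsum_le_tsum h1)
  rw [ENNReal.tsum_mul_left]
  exact ENNReal.mul_ne_top hCt D.sum

lemma Dat.Gd_ae (D : Dat μ φ E V U A B n f h a) : ∀ᵐ z ∂(μ.restrict E), z ∈ Gd μ φ V U A B a := by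
  have h1 : ∀ᵐ z ∂(μ.restrict E), ∑' k, bk μ φ V U A B a k z < ⊤ :=
    ae_lt_top (Measurable.tsum fun k => D.bk_meas k) D.bk_int
  have h2 : ∀ᵐ z ∂(μ.restrict E), ∀ k, be μ φ V B k z < ⊤ := by
    rw [ae_all_iff]
    intro k
    refine ae_lt_top (D.be_meas k) (ne_top_of_le_ne_top ?_ (D.be_int k))
    exact ENNReal.pow_ne_top (ENNReal.mul_ne_top ENNReal.coe_ne_top D.vn_ne)
  filter_upwards [h1, h2] with z h3 h4
  exact ⟨h3.ne, fun k => (h4 k).ne⟩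

lemma Dat.jm (D : Dat μ φ E V U A B n f h a) (k : ℕ) :
    StronglyMeasurable fun p : S × S => (φ p.1 - φ p.2)⁻¹ • rk (V p.2) (U k p.2) :=
  (D.ker_meas.inv.stronglyMeasurable).smul
    ((rk_meas D.Vm (D.Um k)).comp_measurable measurable_snd)

lemma Dat.Gk_meas (D : Dat μ φ E V U A B n f h a) (k : ℕ) : StronglyMeasurable (Gk μ φ V U k) :=
  (D.jm k).integral_prod_right

/-- a part of the integrand, `C = A k` or `C = B k` -/
lemma Dat.part_int (D : Dat μ φ E V U A B n f h a) (k : ℕ) (z : S) {C : ℂ → ℂ} (hC : Measurable C)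
    (hf : ∫⁻ w, ‖C (φ z - φ w)‖ₑ * (‖V w‖ₑ * ‖U k w‖ₑ) ∂μ ≠ ⊤) :
    Integrable (fun w => C (φ z - φ w) • rk (V w) (U k w)) μ := by
  refine ⟨((hC.comp (D.phi.const_sub _)).stronglyMeasurable.smul
    (rk_meas D.Vm (D.Um k))).aestronglyMeasurable, ?_⟩
  rw [hasFiniteIntegral_iff_enorm]
  refine lt_of_le_of_lt (lintegral_mono fun w => ?_) (lt_top_iff_ne_top.2 hf)
  simp only
  rw [enorm_smul, rk_enorm]

lemma Dat.al_ne (D : Dat μ φ E V U A B n f h a) (k : ℕ) {z : S} (hz : z ∈ Gd μ φ V U A B a) :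
    al μ φ V U A k z ≠ ⊤ := by
  have h1 : bk μ φ V U A B a k z ≠ ⊤ := ne_top_of_le_ne_top hz.1 (ENNReal.le_tsum k)
  exact (ENNReal.add_ne_top.1 h1).1

lemma Dat.beVU (D : Dat μ φ E V U A B n f h a) (k : ℕ) (z : S) :
    ∫⁻ w, ‖B k (φ z - φ w)‖ₑ * (‖V w‖ₑ * ‖U k w‖ₑ) ∂μ ≤
      (be μ φ V B k z) ^ (1 / 2 : ℝ) * h k := by
  have h1 := cs (μ := μ) (f := fun w => ‖B k (φ z - φ w)‖ₑ * ‖V w‖ₑ) (g := fun w => ‖U k w‖ₑ)
    (a := (be μ φ V B k z) ^ (1 / 2 : ℝ)) (b := h k)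
    ((((D.Bm k).comp (D.phi.const_sub _)).enorm.mul D.Vm.enorm).aemeasurable)
    (D.Um k).enorm.aemeasurable ?_ (D.Uh k)
  · simpa only [mul_assoc] using h1
  · rw [half_sq]
    unfold be
    simp only [mul_pow]
    exact le_rfl

lemma Dat.be_part (D : Dat μ φ E V U A B n f h a) (k : ℕ) {z : S} (hz : z ∈ Gd μ φ V U A B a) :
    ∫⁻ w, ‖B k (φ z - φ w)‖ₑ * (‖V w‖ₑ * ‖U k w‖ₑ) ∂μ ≠ ⊤ :=
  ne_top_of_le_ne_top (ENNReal.mul_ne_top
    (ENNReal.rpow_ne_top_of_nonneg (by norm_num) (hz.2 k)) ENNReal.coe_ne_top) (D.beVU k z)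

lemma Dat.Gk_eq (D : Dat μ φ E V U A B n f h a) (k : ℕ) {z : S} (hz : z ∈ Gd μ φ V U A B a) :
    Gk μ φ V U k z = ∫ w, A k (φ z - φ w) • rk (V w) (U k w) ∂μ +
      ∫ w, B k (φ z - φ w) • rk (V w) (U k w) ∂μ := by
  rw [← integral_add (D.part_int k z (D.Am k) (D.al_ne k hz))
    (D.part_int k z (D.Bm k) (D.be_part k hz))]
  unfold Gk
  congr 1
  funext w
  rw [← add_smul, D.AB]

lemma Dat.Gk_le (D : Dat μ φ E V U A B n f h a) (k : ℕ) {z : S} (hz : z ∈ Gd μ φ V U A B a) :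
    ‖Gk μ φ V U k z‖ₑ ≤ bk μ φ V U A B a k z := by
  rw [D.Gk_eq k hz]
  refine le_trans (enorm_add_le (∫ w, A k (φ z - φ w) • rk (V w) (U k w) ∂μ)
    (∫ w, B k (φ z - φ w) • rk (V w) (U k w) ∂μ)) (add_le_add ?_ ?_)
  · refine (enorm_integral_le_lintegral_enorm _).trans (lintegral_mono fun w => ?_)
    simp only
    rw [enorm_smul, rk_enorm]
  · have hfin : (a k : ℝ≥0∞) * (be μ φ V B k z) ^ (1 / 2 : ℝ) ≠ ⊤ := ENNReal.mul_ne_top
      ENNReal.coe_ne_top (ENNReal.rpow_ne_top_of_nonneg (by norm_num) (hz.2 k))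
    rw [← ofReal_norm, ← ENNReal.ofReal_toReal hfin]
    refine ENNReal.ofReal_le_ofReal (ContinuousLinearMap.opNorm_le_bound _ ENNReal.toReal_nonneg
      fun c => ?_)
    rw [ContinuousLinearMap.integral_apply (D.part_int k z (D.Bm k) (D.be_part k hz))]
    have h1 : ‖∫ w, (B k (φ z - φ w) • rk (V w) (U k w)) c ∂μ‖ₑ ≤
        (be μ φ V B k z) ^ (1 / 2 : ℝ) * (a k * ‖c‖ₑ) := by
      refine (enorm_integral_le_lintegral_enorm _).trans ?_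
      have h2 := cs (μ := μ) (f := fun w => ‖B k (φ z - φ w)‖ₑ * ‖V w‖ₑ)
        (g := fun w => ‖⟪U k w, c⟫_ℂ‖ₑ)
        (a := (be μ φ V B k z) ^ (1 / 2 : ℝ)) (b := a k * ‖c‖ₑ)
        ((((D.Bm k).comp (D.phi.const_sub _)).enorm.mul D.Vm.enorm).aemeasurable)
        ((D.Um k).inner (stronglyMeasurable_const (b := c))).enorm.aemeasurable ?_ (D.Ua k c)
      · refine le_trans (le_of_eq ?_) h2
        refine lintegral_congr fun w => ?_
        rw [ContinuousLinearMap.smul_apply, rk_apply, enorm_smul, enorm_smul]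
        ring
      · rw [half_sq]
        unfold be
        simp only [mul_pow]
        exact le_rfl
    have h3 : (be μ φ V B k z) ^ (1 / 2 : ℝ) * (a k * ‖c‖ₑ) =
        ((a k : ℝ≥0∞) * (be μ φ V B k z) ^ (1 / 2 : ℝ)) * ‖c‖ₑ := by ring
    rw [h3] at h1
    have h4 := ENNReal.toReal_mono (ENNReal.mul_ne_top hfin enorm_ne_top) h1
    rw [ENNReal.toReal_mul, toReal_enorm, toReal_enorm] at h4
    exact h4

/-- the operator `G(z)` -/
noncomputable def GG (μ : Measure S) (φ : S → ℂ) (V : S → l2) (U : ℕ → S → l2) (A B : ℕ → ℂ → ℂ)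
    (a : ℕ → ℝ≥0) (z : S) : l2 →L[ℂ] l2 :=
  (Gd μ φ V U A B a).indicator (fun z => ∑' k, Gk μ φ V U k z) z

lemma Dat.Gk_summable (D : Dat μ φ E V U A B n f h a) {z : S} (hz : z ∈ Gd μ φ V U A B a) :
    Summable fun k => Gk μ φ V U k z := by
  refine Summable.of_norm ?_
  have h1 := ENNReal.summable_toReal hz.1
  refine h1.of_nonneg_of_le (fun k => norm_nonneg _) fun k => ?_
  have h2 := D.Gk_le k hz
  have h3 : bk μ φ V U A B a k z ≠ ⊤ := ne_top_of_le_ne_top hz.1 (ENNReal.le_tsum k)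
  have h4 := ENNReal.toReal_mono h3 h2
  rwa [toReal_enorm] at h4

lemma Dat.GG_hasSum (D : Dat μ φ E V U A B n f h a) {z : S} (hz : z ∈ Gd μ φ V U A B a) :
    HasSum (fun k => Gk μ φ V U k z) (GG μ φ V U A B a z) := by
  rw [GG, indicator_of_mem hz]
  exact (D.Gk_summable hz).hasSum

lemma Dat.GG_meas (D : Dat μ φ E V U A B n f h a) : StronglyMeasurable (GG μ φ V U A B a) := by
  refine stronglyMeasurable_of_tendsto atTop
    (f := fun N => (Gd μ φ V U A B a).indicator fun z => ∑ k ∈ Finset.range N, Gk μ φ V U k z)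
    (fun N => ?_) ?_
  · exact StronglyMeasurable.indicator (Finset.stronglyMeasurable_fun_sum _ fun k _ => D.Gk_meas k)
      D.Gd_meas
  · rw [tendsto_pi_nhds]
    intro z
    by_cases hz : z ∈ Gd μ φ V U A B a
    · simp only [indicator_of_mem hz]
      exact (D.GG_hasSum hz).tendsto_sum_nat
    · simp only [GG, indicator_of_notMem hz]
      exact tendsto_const_nhds

lemma Dat.GG_compact (D : Dat μ φ E V U A B n f h a) (z : S) :
    IsCompactOperator (GG μ φ V U A B a z) := by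
  by_cases hz : z ∈ Gd μ φ V U A B a
  · have hcl : IsClosed ((compactOperator (RingHom.id ℂ) l2 l2 : Submodule ℂ (l2 →L[ℂ] l2)) :
        Set (l2 →L[ℂ] l2)) := isClosed_setOf_isCompactOperator
    have h1 : ∀ k, IsCompactOperator (Gk μ φ V U k z) := by
      intro k
      have h2 : Gk μ φ V U k z ∈ compactOperator (RingHom.id ℂ) l2 l2 := by
        refine int_mem _ hcl fun w => ?_
        exact (compactOperator (RingHom.id ℂ) l2 l2).smul_mem _ (rk_compact _ _)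
      exact h2
    refine isCompactOperator_of_tendsto (D.GG_hasSum hz).tendsto_sum_nat
      (Eventually.of_forall fun N => ?_)
    have h3 : ∑ k ∈ Finset.range N, Gk μ φ V U k z ∈ compactOperator (RingHom.id ℂ) l2 l2 :=
      Submodule.sum_mem _ fun k _ => h1 k
    exact h3
  · rw [GG, indicator_of_notMem hz]
    exact isCompactOperator_zero

end

end Pool.Agent.N812.WO
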