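import Pool.Agent.N812.WO.Fin5
import Pool.Agent.N226.FM.Con1

/-!
# Perturbations of operators with a normal block: absolutely continuous measures
-/

set_option autoImplicit false

namespace Pool.Agent.N812.WO

open MeasureTheory Set Metric Filter Topology
open scoped InnerProductSpace ENNReal NNReal ComplexConjugate

variable {H : Type} [NormedAddCommGroup H] [InnerProductSpace ℂ H] [CompleteSpace H]

/-- the measure of `x` has a bounded density with respect to the area -/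
def BD (N : H →L[ℂ] H) (x : H) : Prop :=
  ∃ M : ℝ, ∀ f : ℂ → ℂ, Continuous f → HasCompactSupport f →
    ‖⟪x, cfc f N x⟫_ℂ‖ ≤ M * ∫ z, ‖f z‖

lemma pot_vol {τ : ℝ} (h0 : 0 < τ) (h2 : τ < 2) (ρ : ℝ) :
    ∃ D : ℝ, ∀ (w : ℂ) (ε : ℝ), 0 < ε → ∫ z in ball (0:ℂ) ρ, (‖z - w‖ + ε) ^ (-τ) ≤ D := by
  obtain ⟨D, hD, hDb⟩ := Pool.Agent.N226.FM.den_vol 0 ρ h0 h2
  refine ⟨D.toReal, fun w ε hε => ?_⟩
  have h1 : ∀ z : ℂ, ENNReal.ofReal ((‖z - w‖ + ε) ^ (-τ)) ≤ ‖z - w‖ₑ ^ (-τ) := by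
    intro z
    rw [← ENNReal.ofReal_rpow_of_pos (by positivity), ← ofReal_norm, ENNReal.rpow_neg,
      ENNReal.rpow_neg, ENNReal.inv_le_inv]
    refine ENNReal.rpow_le_rpow (ENNReal.ofReal_le_ofReal ?_) h0.le
    linarith
  have hcont : Continuous fun z : ℂ => (‖z - w‖ + ε) ^ (-τ) := by
    refine Continuous.rpow_const (by fun_prop) fun z => Or.inl ?_
    positivity
  rw [integral_eq_lintegral_of_nonneg_ae (Eventually.of_forall fun z => by positivity)
    hcont.aestronglyMeasurable]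
  exact ENNReal.toReal_mono hD ((lintegral_mono h1).trans (hDb w))

lemma bp_of_bd {N : H →L[ℂ] H} (hN : IsStarNormal N) {x : H} (hx : BD N x) {τ : ℝ} (h0 : 0 < τ)
    (h2 : τ < 2) : BP τ N x := by
  obtain ⟨M, hM⟩ := hx
  obtain ⟨D, hD⟩ := pot_vol h0 h2 (‖N‖ + 2)
  -- a cut-off function
  set χ : ℂ → ℝ := fun z => max 0 (min 1 (‖N‖ + 1 - ‖z‖ + 1 / 2)) with hχ
  have hχc : Continuous χ := by
    simp only [hχ]
    fun_prop
  have hχ0 : ∀ z, 0 ≤ χ z := fun z => le_max_left _ _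
  have hχ1 : ∀ z, χ z ≤ 1 := fun z => max_le zero_le_one (min_le_left _ _)
  have hχi : ∀ z, ‖z‖ ≤ ‖N‖ → χ z = 1 := by
    intro z hz
    simp only [hχ]
    rw [min_eq_left (by linarith), max_eq_right zero_le_one]
  have hχz : ∀ z, z ∉ ball (0:ℂ) (‖N‖ + 2) → χ z = 0 := by
    intro z hz
    rw [mem_ball_zero_iff, not_lt] at hz
    simp only [hχ]
    rw [max_eq_left]
    exact (min_le_right _ _).trans (by linarith)
  refine ⟨|M| * D, fun w ε hε => ?_⟩
  have hfc : Continuous fun z => (χ z : ℂ) * pk τ w ε z :=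
    (Complex.continuous_ofReal.comp hχc).mul (pk_cont hε)
  have hcs : HasCompactSupport fun z => (χ z : ℂ) * pk τ w ε z := by
    refine HasCompactSupport.of_support_subset_isCompact (isCompact_closedBall (0:ℂ) (‖N‖ + 2))
      fun z hz => ?_
    by_contra hcon
    apply hz
    show (χ z : ℂ) * pk τ w ε z = 0
    rw [hχz z (fun h => hcon (ball_subset_closedBall h)), Complex.ofReal_zero, zero_mul]
  have e1 : cfc (pk τ w ε) N = cfc (fun z => (χ z : ℂ) * pk τ w ε z) N := by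
    refine cfc_congr fun z hz => ?_
    have h3 := spectrum.norm_le_norm_mul_of_mem hz
    have h4 : ‖(1 : H →L[ℂ] H)‖ ≤ 1 := ContinuousLinearMap.norm_id_le
    have h5 : ‖z‖ ≤ ‖N‖ := h3.trans (mul_le_of_le_one_right (norm_nonneg _) h4)
    show pk τ w ε z = (χ z : ℂ) * pk τ w ε z
    rw [hχi z h5, Complex.ofReal_one, one_mul]
  rw [e1]
  refine (hM _ hfc hcs).trans ?_
  have hnorm : ∀ z, ‖(χ z : ℂ) * pk τ w ε z‖ ≤
      (ball (0:ℂ) (‖N‖ + 2)).indicator (fun z => (‖z - w‖ + ε) ^ (-τ)) z := by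
    intro z
    by_cases hz : z ∈ ball (0:ℂ) (‖N‖ + 2)
    · rw [indicator_of_mem hz, norm_mul, Complex.norm_real, Real.norm_of_nonneg (hχ0 z)]
      unfold pk
      rw [Complex.norm_real, Real.norm_of_nonneg (by positivity)]
      calc χ z * (‖z - w‖ + ε) ^ (-τ) ≤ 1 * (‖z - w‖ + ε) ^ (-τ) :=
            mul_le_mul_of_nonneg_right (hχ1 z) (by positivity)
        _ = _ := one_mul _
    · rw [indicator_of_notMem hz, hχz z hz, Complex.ofReal_zero, zero_mul, norm_zero]
  have hint : IntegrableOn (fun z : ℂ => (‖z - w‖ + ε) ^ (-τ)) (ball (0:ℂ) (‖N‖ + 2)) := by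
    have hcont : Continuous fun z : ℂ => (‖z - w‖ + ε) ^ (-τ) := by
      refine Continuous.rpow_const (by fun_prop) fun z => Or.inl ?_
      positivity
    exact (hcont.continuousOn.integrableOn_compact (isCompact_closedBall (0:ℂ) (‖N‖ + 2))).mono_set
      ball_subset_closedBall
  have h3 : ∫ z, ‖(χ z : ℂ) * pk τ w ε z‖ ≤ D := by
    refine (integral_mono_of_nonneg (Eventually.of_forall fun z => norm_nonneg _)
      ((integrable_indicator_iff measurableSet_ball).2 hint)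
      (Eventually.of_forall hnorm)).trans ?_
    rw [integral_indicator measurableSet_ball]
    exact hD w ε hε
  have h4 : 0 ≤ ∫ z, ‖(χ z : ℂ) * pk τ w ε z‖ := integral_nonneg fun z => norm_nonneg _
  calc M * ∫ z, ‖(χ z : ℂ) * pk τ w ε z‖ ≤ |M| * ∫ z, ‖(χ z : ℂ) * pk τ w ε z‖ :=
        mul_le_mul_of_nonneg_right (le_abs_self M) h4
    _ ≤ |M| * D := mul_le_mul_of_nonneg_left h3 (abs_nonneg M)

end Pool.Agent.N812.WO
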