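import Pool.Agent.N812.WO.Fin3

/-!
# Perturbations on a Hilbert space: decompositions which need not be orthogonal
-/

set_option autoImplicit false

namespace Pool.Agent.N812.WO

open MeasureTheory Set Metric Filter Topology
open Pool.Agent.N812.IS
open scoped InnerProductSpace ENNReal NNReal ComplexConjugate
open ContinuousLinearMap (adjoint)

variable {S : Type} [MeasurableSpace S] {μ : Measure S} {φ : S → ℂ} {E D₀ : Set S}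
  {H Z : Type} [NormedAddCommGroup H] [InnerProductSpace ℂ H] [CompleteSpace H]
  [NormedAddCommGroup Z] [InnerProductSpace ℂ Z] [CompleteSpace Z]

/-- `i₁ p₁ + i₂ p₂ = 1` is a decomposition which reduces `A` to the multiplication by `φ` and `R` -/
structure Dg (μ : Measure S) (φ : S → ℂ) (D₀ : Set S) (A : H →L[ℂ] H)
    (N : Lp ℂ 2 μ →L[ℂ] Lp ℂ 2 μ) (R : Z →L[ℂ] Z) (i₁ : Lp ℂ 2 μ →L[ℂ] H)
    (p₁ : H →L[ℂ] Lp ℂ 2 μ) (i₂ : Z →L[ℂ] H) (p₂ : H →L[ℂ] Z) : Prop where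
  mul : ∀ g : Lp ℂ 2 μ, N g =ᵐ[μ] fun s => φ s * g s
  pi : ∀ g : Lp ℂ 2 μ, p₁ (i₁ g) =ᵐ[μ] fun s => D₀.indicator (fun _ => (1:ℂ)) s * g s
  res : ∀ y, i₁ (p₁ y) + i₂ (p₂ y) = y
  a1 : ∀ g, A (i₁ g) = i₁ (N g)
  a2 : ∀ x, A (i₂ x) = i₂ (R x)
  b1 : ∀ y, p₁ (A y) = N (p₁ y)
  b2 : ∀ y, p₂ (A y) = R (p₂ y)

variable {A K : H →L[ℂ] H} {N : Lp ℂ 2 μ →L[ℂ] Lp ℂ 2 μ} {R : Z →L[ℂ] Z}
  {i₁ : Lp ℂ 2 μ →L[ℂ] H} {p₁ : H →L[ℂ] Lp ℂ 2 μ} {i₂ : Z →L[ℂ] H} {p₂ : H →L[ℂ] Z}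

lemma adj_two {H₁ H₂ H₃ H₄ : Type} [NormedAddCommGroup H₁] [InnerProductSpace ℂ H₁]
    [CompleteSpace H₁] [NormedAddCommGroup H₂] [InnerProductSpace ℂ H₂] [CompleteSpace H₂]
    [NormedAddCommGroup H₃] [InnerProductSpace ℂ H₃] [CompleteSpace H₃]
    [NormedAddCommGroup H₄] [InnerProductSpace ℂ H₄] [CompleteSpace H₄]
    {P : H₂ →L[ℂ] H₃} {Q : H₁ →L[ℂ] H₂} {P' : H₄ →L[ℂ] H₃} {Q' : H₁ →L[ℂ] H₄}
    (h : ∀ x, P (Q x) = P' (Q' x)) (y : H₃) :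
    adjoint Q (adjoint P y) = adjoint Q' (adjoint P' y) := by
  refine ext_inner_right ℂ fun x => ?_
  rw [ContinuousLinearMap.adjoint_inner_left, ContinuousLinearMap.adjoint_inner_left,
    ContinuousLinearMap.adjoint_inner_left, ContinuousLinearMap.adjoint_inner_left, h]

lemma Dg.adj (D : Dg μ φ D₀ A N R i₁ p₁ i₂ p₂) (hφ : Measurable φ) (hb : ∃ b : ℝ, ∀ s, ‖φ s‖ ≤ b)
    (hD : MeasurableSet D₀) :
    Dg μ (fun s => conj (φ s)) D₀ (adjoint A) (adjoint N) (adjoint R) (adjoint p₁) (adjoint i₁)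
      (adjoint p₂) (adjoint i₂) where
  mul := (Pool.Agent.Y77.NK.isMul_adj ⟨hφ, hb, D.mul⟩).eq
  pi := fun g => by
    have h1 : Pool.Agent.Y283.NK.IsMul (μ := μ) (D₀.indicator fun _ => (1:ℂ)) (p₁.comp i₁) :=
      ⟨ind_meas hD, ⟨1, fun s => by simpa using ind_le D₀ s⟩, D.pi⟩
    have h2 := (Pool.Agent.Y77.NK.isMul_adj h1).eq g
    rw [ContinuousLinearMap.adjoint_comp] at h2
    refine h2.trans (Eventually.of_forall fun s => ?_)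
    by_cases hs : s ∈ D₀
    · simp [indicator_of_mem hs]
    · simp [indicator_of_notMem hs]
  res := fun y => by
    refine ext_inner_right ℂ fun x => ?_
    rw [inner_add_left, ContinuousLinearMap.adjoint_inner_left,
      ContinuousLinearMap.adjoint_inner_left, ContinuousLinearMap.adjoint_inner_left,
      ContinuousLinearMap.adjoint_inner_left, ← inner_add_right, D.res]
  a1 := adj_two (P := p₁) (Q := A) (P' := N) (Q' := p₁) D.b1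
  a2 := adj_two (P := p₂) (Q := A) (P' := R) (Q' := p₂) D.b2
  b1 := fun y => (adj_two (P := A) (Q := i₁) (P' := i₁) (Q' := N) D.a1 y)
  b2 := fun y => (adj_two (P := A) (Q := i₂) (P' := i₂) (Q' := R) D.a2 y)

/-- a contraction -/
noncomputable def ctr {H₁ H₂ : Type} [NormedAddCommGroup H₁] [NormedSpace ℂ H₁]
    [NormedAddCommGroup H₂] [NormedSpace ℂ H₂] (P : H₁ →L[ℂ] H₂) : H₁ →L[ℂ] H₂ :=
  (((‖P‖ + 1)⁻¹ : ℝ) : ℂ) • P

lemma ctr_le {H₁ H₂ : Type} [NormedAddCommGroup H₁] [NormedSpace ℂ H₁]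
    [NormedAddCommGroup H₂] [NormedSpace ℂ H₂] (P : H₁ →L[ℂ] H₂) (x : H₁) :
    ‖ctr P x‖ ≤ ‖x‖ := by
  have h0 : 0 < ‖P‖ + 1 := by positivity
  rw [ctr, ContinuousLinearMap.smul_apply, norm_smul, Complex.norm_real,
    Real.norm_of_nonneg (by positivity), inv_mul_le_iff₀ h0]
  refine (P.le_opNorm x).trans ?_
  nlinarith [norm_nonneg x]

/-- the weight -/
noncomputable def mm (i₁ : Lp ℂ 2 μ →L[ℂ] H) (p₁ : H →L[ℂ] Lp ℂ 2 μ) : ℝ :=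
  (‖p₁‖ + 1) * (‖adjoint i₁‖ + 1)

theorem Dg.mk_ext [SigmaFinite μ] (D : Dg μ φ D₀ A N R i₁ p₁ i₂ p₂) (hD : E ⊆ D₀)
    {A' B' : ℕ → ℂ → ℂ}
    {n f h a : ℕ → ℝ≥0} {σ σ' s : ℕ → ℝ} {κ : ℕ → ℕ} (Q : Kn μ φ E A' B' n f h a)
    (W : Wt σ σ' (fun j => mm i₁ p₁ * s j) κ h a) {u v : ℕ → H} (hu : Orthonormal ℂ u)
    (hv : Orthonormal ℂ v)
    (hK : ∀ y, HasSum (fun j => ((s j : ℂ) * ⟪v j, y⟫_ℂ) • u j) (K y)) {b b' : ℝ≥0}
    (hb : ∀ j, ‖σ j‖ ≤ b) (hb' : ∀ j, ‖σ' j‖ ≤ b') :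
    Ext μ φ E (Vf (fun j => ctr (adjoint i₁) (v j)) σ') (Uf (fun j => ctr p₁ (u j)) σ κ) (A + K) N R
      i₁ i₂ ((((‖adjoint i₁‖ + 1)⁻¹ : ℝ) : ℂ) • Wo hv σ' b' hb')
      (p₂.comp ((((‖p₁‖ + 1)⁻¹ : ℝ) : ℂ) • Uo hu σ b hb)) := by
  have Bu : Bes fun j => ctr p₁ (u j) := bes_of hu _ (ctr_le p₁)
  have Bv : Bes fun j => ctr (adjoint i₁) (v j) := bes_of hv _ (ctr_le _)
  have DD := mk_dat Q W Bu Bv
  have h01 : 0 < ‖p₁‖ + 1 := by positivity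
  have h02 : 0 < ‖adjoint i₁‖ + 1 := by positivity
  refine ⟨D.mul, fun g hgE hg => ?_, fun g => ?_, fun g x => ?_,
    (Wo_compact hv hb' (sq_summable W.v)).smul (((‖adjoint i₁‖ + 1)⁻¹ : ℝ) : ℂ)⟩
  · have h1 := D.pi g
    rw [hg, map_zero] at h1
    rw [Lp.eq_zero_iff_ae_eq_zero]
    filter_upwards [h1, hgE, Lp.coeFn_zero ℂ 2 μ] with s h2 h3 h4
    rw [Pi.zero_apply]
    by_cases hs : s ∈ E
    · rw [h4, Pi.zero_apply, indicator_of_mem (hD hs), one_mul] at h2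
      exact h2.symm
    · exact h3 hs
  · refine lp.ext (funext fun j => ?_)
    rw [vs_coord Bv W.v g (DD.vs_integrable g), ContinuousLinearMap.smul_apply, lp.coeFn_smul,
      Pi.smul_apply, Wo_apply, ctr, ContinuousLinearMap.smul_apply, inner_smul_left,
      ContinuousLinearMap.adjoint_inner_left, Complex.conj_ofReal, smul_eq_mul]
    ring
  · obtain ⟨y, hy⟩ : ∃ y, y = i₁ g + i₂ x := ⟨_, rfl⟩
    rw [← hy]
    obtain ⟨c, hc⟩ : ∃ c, c = ((((‖adjoint i₁‖ + 1)⁻¹ : ℝ) : ℂ) • Wo hv σ' b' hb') y := ⟨_, rfl⟩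
    have e0 : A y = i₁ (N g) + i₂ (R x) := by
      rw [hy, map_add, D.a1, D.a2]
    have e2 : (((‖p₁‖ + 1)⁻¹ : ℝ) : ℂ) • Uo hu σ b hb c = K y := by
      have h1 : Uo hu σ b hb (Wo hv σ' b' hb' y) = ((mm i₁ p₁ : ℝ) : ℂ) • K y :=
        UW (K := ((mm i₁ p₁ : ℝ) : ℂ) • K) hu hv hb hb' W.prod (fun y => by
          refine ((hK y).const_smul ((mm i₁ p₁ : ℝ) : ℂ)).congr_fun fun j => ?_
          rw [smul_smul]
          push_cast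
          congr 1
          ring) y
      rw [hc, ContinuousLinearMap.smul_apply, map_smul, h1, smul_smul, smul_smul]
      have h2 : (((‖p₁‖ + 1)⁻¹ : ℝ) : ℂ) * (((‖adjoint i₁‖ + 1)⁻¹ : ℝ) : ℂ) *
          ((mm i₁ p₁ : ℝ) : ℂ) = 1 := by
        rw [← Complex.ofReal_mul, ← Complex.ofReal_mul]
        have : (‖p₁‖ + 1)⁻¹ * (‖adjoint i₁‖ + 1)⁻¹ * mm i₁ p₁ = 1 := by
          unfold mm
          field_simp
        rw [this, Complex.ofReal_one]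
      rw [h2, one_smul]
    have e1 : (A + K) y - i₁ (N g) - i₂ (R x) -
        i₂ ((p₂.comp ((((‖p₁‖ + 1)⁻¹ : ℝ) : ℂ) • Uo hu σ b hb)) c) =
        i₁ (ctr p₁ (Uo hu σ b hb c)) := by
      have h2 := D.res (K y)
      rw [ContinuousLinearMap.add_apply, e0, ContinuousLinearMap.comp_apply,
        ContinuousLinearMap.smul_apply, e2, ctr, ContinuousLinearMap.smul_apply, ← map_smul, e2]
      nth_rewrite 1 [← h2]
      abel
    rw [← hc, e1]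
    refine HasSum.mapL i₁ ?_
    have h1 := ((Uo_sum hu σ b hb c).mapL (ctr p₁)).tsum_fiberwise κ
    refine h1.congr_fun fun k => ?_
    have h2 : uc μ (Uf (fun j => ctr p₁ (u j)) σ κ) k c =
        Wc (fun j => ctr p₁ (u j)) (bw σ κ k) c := by
      apply Lp.ext
      have h3 := vl_ae (DD.uc_memLp k c)
      filter_upwards [h3, Wc_ae Bu (W.hne k) c] with w h4 h5
      rw [h5]
      exact h4
    rw [h2, Wc, tsum_subtype (κ ⁻¹' {k})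
      (fun j => ctr p₁ (((σ j : ℂ) * (c : ℕ → ℂ) j) • u j))]
    refine tsum_congr fun j => ?_
    by_cases hk : κ j = k
    · rw [indicator_of_mem (show j ∈ κ ⁻¹' {k} from hk), bw, if_pos hk, map_smul]
    · rw [indicator_of_notMem (show j ∉ κ ⁻¹' {k} from hk), bw, if_neg hk]
      simp

theorem Dg.half [SigmaFinite μ] (D : Dg μ φ D₀ A N R i₁ p₁ i₂ p₂) (hD : E ⊆ D₀)
    {A' B' : ℕ → ℂ → ℂ}
    {n f h a : ℕ → ℝ≥0} {σ σ' s : ℕ → ℝ} {κ : ℕ → ℕ} (Q : Kn μ φ E A' B' n f h a)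
    (W : Wt σ σ' (fun j => mm i₁ p₁ * s j) κ h a) {u v : ℕ → H} (hu : Orthonormal ℂ u)
    (hv : Orthonormal ℂ v)
    (hK : ∀ y, HasSum (fun j => ((s j : ℂ) * ⟪v j, y⟫_ℂ) • u j) (K y))
    {P : S → (Z →L[ℂ] Z)} {m : ℝ≥0} (hP : Rs φ E R P m) (c : ℂ) (r : ℝ) (hr : 0 < r)
    (hc : μ (E ∩ φ ⁻¹' ball c r) ≠ 0) : Chn (A + K) c r := by
  obtain ⟨b, hb⟩ := W.bd
  obtain ⟨b', hb'⟩ := wt_bd W.v
  have Bu : Bes fun j => ctr p₁ (u j) := bes_of hu _ (ctr_le p₁)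
  have Bv : Bes fun j => ctr (adjoint i₁) (v j) := bes_of hv _ (ctr_le _)
  exact halfX (mk_dat Q W Bu Bv) hP (D.mk_ext hD Q W hu hv hK hb hb') c r hr hc

lemma sn_mul {τ : ℝ} {s : ℕ → ℝ} (hs : ∀ j, 0 ≤ s j) (hS : Sn τ s) {m : ℝ} (hm : 0 ≤ m) :
    Sn τ fun j => m * s j := by
  obtain ⟨p, hp0, hp, hsum⟩ := hS
  refine ⟨p, hp0, hp, (hsum.mul_left (m ^ p)).congr fun j => ?_⟩
  rw [Real.mul_rpow hm (hs j)]

lemma mm_nonneg (i₁ : Lp ℂ 2 μ →L[ℂ] H) (p₁ : H →L[ℂ] Lp ℂ 2 μ) : 0 ≤ mm i₁ p₁ := by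
  unfold mm
  positivity

/-- both chains -/
theorem Dg.both [SigmaFinite μ] (hφ : Measurable φ) (hb : ∃ b : ℝ, ∀ s, ‖φ s‖ ≤ b)
    (hD : MeasurableSet D₀) (D : Dg μ φ D₀ A N R i₁ p₁ i₂ p₂) {F : Lp ℂ 2 μ} {τ : ℝ} {C : ℝ≥0}
    (hpot : ∀ w, ∫⁻ s, ‖φ s - w‖ₑ ^ (-τ) * ‖F s‖ₑ ^ 2 ∂μ ≤ C) (h1 : 1 ≤ τ) (h2 : τ < 2)
    {s : ℕ → ℝ} {u v : ℕ → H} (hs : ∀ j, 0 ≤ s j) (hu : Orthonormal ℂ u) (hv : Orthonormal ℂ v)
    (hK : ∀ y, HasSum (fun j => ((s j : ℂ) * ⟪v j, y⟫_ℂ) • u j) (K y)) (hS : Sn τ s) (n : ℕ)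
    (c : ℂ) (r : ℝ) (hr : 0 < r) (hc : μ ((Ep R φ F n ∩ D₀) ∩ φ ⁻¹' ball c r) ≠ 0) :
    Chn (A + K) c r ∧ Chn (adjoint (A + K)) (conj c) r := by
  set E := Ep R φ F n ∩ D₀ with hE
  have hEm : MeasurableSet E := (Ep_meas R hφ F n).inter hD
  have hEf : μ E ≠ ⊤ := ne_top_of_le_ne_top (Ep_fin R hφ F n) (measure_mono inter_subset_left)
  have hp : ∀ w, ∫⁻ z in E, ‖φ z - w‖ₑ ^ (-τ) ∂μ ≤ (((n : ℝ≥0) + 1) ^ 2 * C : ℝ≥0) :=
    fun w => (lintegral_mono' (Measure.restrict_mono inter_subset_left le_rfl) le_rfl).trans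
      (Ep_int R hφ F n (hpot w))
  obtain ⟨Q, hQ1, hQ2⟩ := rs_of (R := R) (m := (n : ℝ≥0)) hφ hEm (fun z hz => hz.1.2.1)
    (fun z hz => by simpa using hz.1.2.2)
  constructor
  · obtain ⟨A', B', n', f, h, a, σ, σ', κ, hW, hKn⟩ :=
      ex_kn (s := fun j => mm i₁ p₁ * s j) (fun j => mul_nonneg (mm_nonneg _ _) (hs j)) h1 h2
        (sn_mul hs hS (mm_nonneg _ _)) μ E hEm hEf (((n : ℝ≥0) + 1) ^ 2 * C)
    exact D.half inter_subset_right (hKn φ hφ hb fun w => hp (φ w)) hW hu hv hK hQ1 c r hr hc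
  · obtain ⟨A', B', n', f, h, a, σ, σ', κ, hW, hKn⟩ :=
      ex_kn (s := fun j => mm (adjoint p₁) (adjoint i₁) * s j)
        (fun j => mul_nonneg (mm_nonneg _ _) (hs j)) h1 h2
        (sn_mul hs hS (mm_nonneg _ _)) μ E hEm hEf (((n : ℝ≥0) + 1) ^ 2 * C)
    have hφ' : Measurable fun s => conj (φ s) := Complex.continuous_conj.measurable.comp hφ
    have hb' : ∃ b : ℝ, ∀ s, ‖conj (φ s)‖ ≤ b := by
      obtain ⟨b, hb⟩ := hb
      exact ⟨b, fun s => by rw [Complex.norm_conj]; exact hb s⟩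
    have hp' : ∀ w, ∫⁻ z in E, ‖conj (φ z) - conj (φ w)‖ₑ ^ (-τ) ∂μ ≤
        (((n : ℝ≥0) + 1) ^ 2 * C : ℝ≥0) := by
      intro w
      refine le_trans (le_of_eq ?_) (hp (φ w))
      refine lintegral_congr fun z => ?_
      rw [← map_sub, ← ofReal_norm, Complex.norm_conj, ofReal_norm]
    have h3 := (D.adj hφ hb hD).half inter_subset_right (hKn _ hφ' hb' hp') hW hv hu
      (adj_sum hu hv hK) hQ2 (conj c) r hr
      (by
        have e : (fun s => conj (φ s)) ⁻¹' ball (conj c) r = φ ⁻¹' ball c r := by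
          ext z
          simp only [mem_preimage, mem_ball, dist_eq_norm]
          rw [← map_sub, Complex.norm_conj]
        rw [e]
        exact hc)
    rw [map_add]
    exact h3

end Pool.Agent.N812.WO
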