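import Pool.Agent.N812.WO.Pr

/-!
# Perturbations of the sum of a multiplication operator and an arbitrary operator
-/

set_option autoImplicit false

namespace Pool.Agent.N812.WO

open MeasureTheory Set Metric Filter Topology
open Pool.Agent.N812.IS
open scoped InnerProductSpace ENNReal NNReal ComplexConjugate

variable {S : Type} [MeasurableSpace S] {μ : Measure S} {φ : S → ℂ} {E : Set S} {V : S → l2}
  {U : ℕ → S → l2} {A B : ℕ → ℂ → ℂ} {n f h a : ℕ → ℝ≥0}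
  {H Z : Type} [NormedAddCommGroup H] [NormedSpace ℂ H] [CompleteSpace H]
  [NormedAddCommGroup Z] [NormedSpace ℂ Z] [CompleteSpace Z]

/-- `Q z` is the inverse of `φ z - R` on `E` -/
structure Rs (φ : S → ℂ) (E : Set S) (R : Z →L[ℂ] Z) (Q : S → (Z →L[ℂ] Z)) (m : ℝ≥0) : Prop where
  meas : StronglyMeasurable Q
  bd : ∀ z, ‖Q z‖ ≤ m
  inv : ∀ z ∈ E, ∀ x, φ z • Q z x - R (Q z x) = x

/-- the operator `T` is the multiplication by `φ`, plus `R`, plus the perturbation -/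
structure Ext (μ : Measure S) (φ : S → ℂ) (E : Set S) (V : S → l2) (U : ℕ → S → l2)
    (T : H →L[ℂ] H) (N : Lp ℂ 2 μ →L[ℂ] Lp ℂ 2 μ) (R : Z →L[ℂ] Z) (i₁ : Lp ℂ 2 μ →L[ℂ] H)
    (i₂ : Z →L[ℂ] H) (W : H →L[ℂ] l2) (U2 : l2 →L[ℂ] Z) : Prop where
  mul : ∀ g : Lp ℂ 2 μ, N g =ᵐ[μ] fun s => φ s * g s
  inj : ∀ g : Lp ℂ 2 μ, (∀ᵐ s ∂μ, s ∉ E → g s = 0) → i₁ g = 0 → g = 0
  W1 : ∀ g : Lp ℂ 2 μ, W (i₁ g) = vs μ V g
  sum : ∀ (g : Lp ℂ 2 μ) (x : Z), HasSum (fun k => i₁ (uc μ U k (W (i₁ g + i₂ x))))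
    (T (i₁ g + i₂ x) - i₁ (N g) - i₂ (R x) - i₂ (U2 (W (i₁ g + i₂ x))))
  cpt : IsCompactOperator W

/-- the operator `G(z)` -/
noncomputable def GX (μ : Measure S) (φ : S → ℂ) (V : S → l2) (U : ℕ → S → l2) (A B : ℕ → ℂ → ℂ)
    (a : ℕ → ℝ≥0) (i₂ : Z →L[ℂ] H) (W : H →L[ℂ] l2) (U2 : l2 →L[ℂ] Z) (Q : S → (Z →L[ℂ] Z))
    (z : S) : l2 →L[ℂ] l2 := GG μ φ V U A B a z + ((W.comp i₂).comp ((Q z).comp U2))

/-- the pairs -/
structure Px (μ : Measure S) (φ : S → ℂ) (E : Set S) (V : S → l2) (U : ℕ → S → l2)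
    (A B : ℕ → ℂ → ℂ) (a : ℕ → ℝ≥0) (i₂ : Z →L[ℂ] H) (W : H →L[ℂ] l2) (U2 : l2 →L[ℂ] Z)
    (Q : S → (Z →L[ℂ] Z)) (y : S → ℂ) (ξ : S → l2) (M : ℝ≥0) : Prop where
  ym : Measurable y
  yb : ∀ z, ‖y z‖ ≤ M
  y0 : ∀ z, z ∉ E → y z = 0
  xb : Bx ξ M
  eq : ∀ᵐ z ∂(μ.restrict E), y z • V z + GX μ φ V U A B a i₂ W U2 Q z (ξ z) = ξ z

/-- the second component -/
noncomputable def x2 (μ : Measure S) (E : Set S) (U2 : l2 →L[ℂ] Z) (Q : S → (Z →L[ℂ] Z))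
    (ξ : S → l2) : Z := ∫ z in E, Q z (U2 (ξ z)) ∂μ

/-- the vector of a pair -/
noncomputable def xx (μ : Measure S) (φ : S → ℂ) (E : Set S) (U : ℕ → S → l2)
    (i₁ : Lp ℂ 2 μ →L[ℂ] H) (i₂ : Z →L[ℂ] H) (U2 : l2 →L[ℂ] Z) (Q : S → (Z →L[ℂ] Z))
    (y : S → ℂ) (ξ : S → l2) : H := i₁ (vx μ φ E U y ξ) + i₂ (x2 μ E U2 Q ξ)

lemma app_meas {Q : S → (Z →L[ℂ] Z)} {ξ : S → Z} (hQ : StronglyMeasurable Q)
    (hx : StronglyMeasurable ξ) : StronglyMeasurable fun z => Q z (ξ z) :=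
  isBoundedBilinearMap_apply.continuous.comp_stronglyMeasurable (hQ.prodMk hx)

section

variable {T : H →L[ℂ] H} {N : Lp ℂ 2 μ →L[ℂ] Lp ℂ 2 μ} {R : Z →L[ℂ] Z} {i₁ : Lp ℂ 2 μ →L[ℂ] H}
  {i₂ : Z →L[ℂ] H} {W : H →L[ℂ] l2} {U2 : l2 →L[ℂ] Z} {Q : S → (Z →L[ℂ] Z)} {m : ℝ≥0}

lemma Px.mul {y : S → ℂ} {ξ : S → l2} {M : ℝ≥0} (hp : Px μ φ E V U A B a i₂ W U2 Q y ξ M)
    {g : S → ℂ} {L : ℝ≥0} (hg : Measurable g) (hL : ∀ z, ‖g z‖ ≤ L) :
    Px μ φ E V U A B a i₂ W U2 Q (fun z => g z * y z) (fun z => g z • ξ z) (L * M) where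
  ym := hg.mul hp.ym
  yb := fun z => by
    rw [norm_mul, NNReal.coe_mul]
    exact mul_le_mul (hL z) (hp.yb z) (norm_nonneg _) L.2
  y0 := fun z hz => by rw [hp.y0 z hz, mul_zero]
  xb := hp.xb.smul hg hL
  eq := by
    filter_upwards [hp.eq] with z hz
    rw [mul_smul, map_smul, ← smul_add, hz]

variable [SigmaFinite μ]

lemma x2_int (D : Dat μ φ E V U A B n f h a) (hQ : Rs φ E R Q m) {ξ : S → l2} {M : ℝ≥0}
    (hx : Bx ξ M) : Integrable (fun z => Q z (U2 (ξ z))) (μ.restrict E) := by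
  have : IsFiniteMeasure (μ.restrict E) := ⟨by
    rw [Measure.restrict_apply_univ]
    exact lt_top_iff_ne_top.2 D.Ef⟩
  refine (integrable_const ((m : ℝ) * (‖U2‖ * M))).mono'
    (app_meas hQ.meas (U2.continuous.comp_stronglyMeasurable hx.meas)).aestronglyMeasurable
    (Eventually.of_forall fun z => ?_)
  refine ((Q z).le_opNorm _).trans ?_
  refine mul_le_mul (hQ.bd z) ?_ (norm_nonneg _) m.2
  exact (U2.le_opNorm _).trans (mul_le_mul_of_nonneg_left (hx.bd z) (norm_nonneg _))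

lemma x2_norm (D : Dat μ φ E V U A B n f h a) (hQ : Rs φ E R Q m) {ξ : S → l2} {M : ℝ≥0}
    (hx : Bx ξ M) : ‖x2 μ E U2 Q ξ‖ ≤ M * ((m : ℝ) * ‖U2‖ * (μ E).toReal) := by
  have : IsFiniteMeasure (μ.restrict E) := ⟨by
    rw [Measure.restrict_apply_univ]
    exact lt_top_iff_ne_top.2 D.Ef⟩
  have h1 : ‖x2 μ E U2 Q ξ‖ ≤ ((m : ℝ) * (‖U2‖ * M)) * (μ.restrict E).real univ := by
    refine norm_integral_le_of_norm_le_const (Eventually.of_forall fun z => ?_)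
    refine ((Q z).le_opNorm _).trans ?_
    refine mul_le_mul (hQ.bd z) ?_ (norm_nonneg _) m.2
    exact (U2.le_opNorm _).trans (mul_le_mul_of_nonneg_left (hx.bd z) (norm_nonneg _))
  rw [Measure.real, Measure.restrict_apply_univ] at h1
  calc _ ≤ _ := h1
    _ = _ := by ring

lemma x2_step (D : Dat μ φ E V U A B n f h a) (hQ : Rs φ E R Q m) {ξ : S → l2} {M : ℝ≥0}
    (hx : Bx ξ M) {c : ℂ} {L : ℝ≥0} (hL : ∀ z, ‖φ z - c‖ ≤ L) :
    R (x2 μ E U2 Q ξ) - c • x2 μ E U2 Q ξ + U2 (∫ z in E, ξ z ∂μ) =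
      x2 μ E U2 Q (fun z => (φ z - c) • ξ z) := by
  have hx' := hx.smul (D.phi.sub_const c) hL
  have i1 := x2_int (U2 := U2) D hQ hx
  have i2 := x2_int (U2 := U2) D hQ hx'
  have i3 : Integrable (fun z => U2 (ξ z)) (μ.restrict E) := U2.integrable_comp (D.xi_int hx)
  have hR : Integrable (fun z => R (Q z (U2 (ξ z)))) (μ.restrict E) := R.integrable_comp i1
  have hc : Integrable (fun z => c • Q z (U2 (ξ z))) (μ.restrict E) := i1.smul c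
  have hRc : Integrable (fun z => R (Q z (U2 (ξ z))) - c • Q z (U2 (ξ z))) (μ.restrict E) :=
    hR.sub hc
  unfold x2
  rw [← U2.integral_comp_comm (D.xi_int hx), ← R.integral_comp_comm i1, ← integral_smul,
    ← integral_sub hR hc, ← integral_add hRc i3]
  refine integral_congr_ae ?_
  filter_upwards [ae_restrict_mem D.Em] with z hz
  have h1 := hQ.inv z hz (U2 (ξ z))
  rw [map_smul, map_smul]
  obtain ⟨q, hq⟩ : ∃ q, q = Q z (U2 (ξ z)) := ⟨_, rfl⟩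
  rw [← hq] at h1 ⊢
  rw [← h1, sub_smul]
  abel

lemma Dat.vs_vx' (D : Dat μ φ E V U A B n f h a) {y : S → ℂ} {ξ : S → l2} {M : ℝ≥0}
    (ym : Measurable y) (yb : ∀ z, ‖y z‖ ≤ M) (y0 : ∀ z, z ∉ E → y z = 0) (xb : Bx ξ M) :
    Integrable (fun z => y z • V z + GG μ φ V U A B a z (ξ z)) (μ.restrict E) ∧
    vs μ V (vx μ φ E U y ξ) = ∫ z in E, (y z • V z + GG μ φ V U A B a z (ξ z)) ∂μ := by
  have hm := Pr.memLp D ym yb y0
  have h1 : vs μ V (vl μ y) = ∫ z in E, y z • V z ∂μ := by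
    unfold vs
    rw [← integral_indicator D.Em]
    refine integral_congr_ae ?_
    filter_upwards [vl_ae hm] with w hw
    rw [hw]
    by_cases hwE : w ∈ E
    · rw [indicator_of_mem hwE]
    · rw [indicator_of_notMem hwE, y0 w hwE, zero_smul]
  have h1i : Integrable (fun z => y z • V z) (μ.restrict E) := by
    have h2 : Integrable (fun z => y z • V z) μ := by
      refine (D.vs_integrable (vl μ y)).congr ?_
      filter_upwards [vl_ae hm] with w hw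
      rw [hw]
    exact h2.integrableOn
  have h2 : HasSum (fun k => vs μ V (zk μ φ E U ξ k)) (vs μ V (zt μ φ E U ξ)) :=
    (D.zt_hasSum xb).mapL D.vsL
  have h3 : ∀ k, vs μ V (zk μ φ E U ξ k) = ∫ z in E, Gk μ φ V U k z (ξ z) ∂μ := by
    intro k
    rw [← D.zf_V k xb]
    unfold vs
    refine integral_congr_ae ?_
    filter_upwards [D.zk_ae k xb] with w hw
    rw [hw]
  simp_rw [h3] at h2
  obtain ⟨h4, h5⟩ := D.Gxi_sum xb
  have h6 := h2.unique h4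
  have h7 : vs μ V (vx μ φ E U y ξ) = vs μ V (vl μ y) + vs μ V (zt μ φ E U ξ) :=
    D.vsL.map_add _ _
  refine ⟨h1i.add h5, ?_⟩
  rw [h7, h6, h1, ← integral_add h1i h5]

/-- `W` of the vector of a pair -/
lemma W_xx (D : Dat μ φ E V U A B n f h a) (hQ : Rs φ E R Q m)
    (hT : Ext μ φ E V U T N R i₁ i₂ W U2) {y : S → ℂ} {ξ : S → l2} {M : ℝ≥0}
    (hp : Px μ φ E V U A B a i₂ W U2 Q y ξ M) :
    W (xx μ φ E U i₁ i₂ U2 Q y ξ) = ∫ z in E, ξ z ∂μ := by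
  obtain ⟨h1, h2⟩ := D.vs_vx' hp.ym hp.yb hp.y0 hp.xb
  have i1 := x2_int (U2 := U2) D hQ hp.xb
  unfold xx
  rw [map_add, hT.W1, h2]
  have h3 : W (i₂ (x2 μ E U2 Q ξ)) = ∫ z in E, (W.comp i₂) (Q z (U2 (ξ z))) ∂μ := by
    rw [(W.comp i₂).integral_comp_comm i1]
    rfl
  rw [h3, ← integral_add h1 ((W.comp i₂).integrable_comp i1)]
  refine integral_congr_ae ?_
  filter_upwards [hp.eq] with z hz
  conv_rhs => rw [← hz]
  unfold GX
  rw [ContinuousLinearMap.add_apply, add_assoc]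
  rfl

/-- **The chain rule** -/
theorem chainX (D : Dat μ φ E V U A B n f h a) (hQ : Rs φ E R Q m)
    (hT : Ext μ φ E V U T N R i₁ i₂ W U2) {y : S → ℂ} {ξ : S → l2} {M : ℝ≥0}
    (hp : Px μ φ E V U A B a i₂ W U2 Q y ξ M) {c : ℂ} {L : ℝ≥0} (hL : ∀ z, ‖φ z - c‖ ≤ L) :
    T (xx μ φ E U i₁ i₂ U2 Q y ξ) - c • xx μ φ E U i₁ i₂ U2 Q y ξ =
      xx μ φ E U i₁ i₂ U2 Q (fun z => (φ z - c) * y z) (fun z => (φ z - c) • ξ z) := by
  set e : l2 := ∫ z in E, ξ z ∂μ with he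
  have hm := Pr.memLp D hp.ym hp.yb hp.y0
  have hx' := hp.xb.smul (D.phi.sub_const c) hL
  have hm' : MemLp (fun z => (φ z - c) * y z) 2 μ := by
    refine Pr.memLp (M := L * M) D ((D.phi.sub_const c).mul hp.ym) (fun z => ?_) fun z hz => ?_
    · rw [norm_mul, NNReal.coe_mul]
      exact mul_le_mul (hL z) (hp.yb z) (norm_nonneg _) L.2
    · rw [hp.y0 z hz, mul_zero]
  -- the first part
  have h1 : N (vl μ y) - c • vl μ y = vl μ fun z => (φ z - c) * y z := by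
    apply Lp.ext
    filter_upwards [Lp.coeFn_sub (N (vl μ y)) (c • vl μ y), Lp.coeFn_smul c (vl μ y),
      hT.mul (vl μ y), vl_ae hm, vl_ae hm'] with w h1 h2 h3 h4 h5
    rw [h1, Pi.sub_apply, h2, Pi.smul_apply, h3, h4, h5, smul_eq_mul]
    ring
  -- the second part
  have h2 : ∀ k, N (zk μ φ E U ξ k) - c • zk μ φ E U ξ k + uc μ U k e =
      zk μ φ E U (fun z => (φ z - c) • ξ z) k := by
    intro k
    apply Lp.ext
    filter_upwards [Lp.coeFn_add (N (zk μ φ E U ξ k) - c • zk μ φ E U ξ k) (uc μ U k e),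
      Lp.coeFn_sub (N (zk μ φ E U ξ k)) (c • zk μ φ E U ξ k),
      Lp.coeFn_smul c (zk μ φ E U ξ k), hT.mul (zk μ φ E U ξ k), D.zk_ae k hp.xb,
      D.zk_ae k hx', vl_ae (D.uc_memLp k e)] with w g0 g1 g2 g3 g4 g5 g6
    rw [g0, Pi.add_apply, g1, Pi.sub_apply, g2, Pi.smul_apply, g3, g4, g5, smul_eq_mul]
    have g7 := D.zf_step k hp.xb hL w
    have g8 : uc μ U k e w = ⟪U k w, e⟫_ℂ := g6
    rw [g8]
    linear_combination g7
  have h3 : HasSum (fun k => i₁ (N (zk μ φ E U ξ k) - c • zk μ φ E U ξ k))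
      (i₁ (N (zt μ φ E U ξ) - c • zt μ φ E U ξ)) :=
    (((D.zt_hasSum hp.xb).mapL N).sub ((D.zt_hasSum hp.xb).const_smul c)).mapL i₁
  have h4 := hT.sum (vx μ φ E U y ξ) (x2 μ E U2 Q ξ)
  have h4' : W (i₁ (vx μ φ E U y ξ) + i₂ (x2 μ E U2 Q ξ)) = e := W_xx D hQ hT hp
  rw [h4'] at h4
  have h5 := h3.add h4
  have h5' : ∀ k, i₁ (N (zk μ φ E U ξ k) - c • zk μ φ E U ξ k) + i₁ (uc μ U k e) =
      i₁ (zk μ φ E U (fun z => (φ z - c) • ξ z) k) := fun k => by rw [← map_add, h2]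
  simp_rw [h5'] at h5
  have h6 := h5.unique ((D.zt_hasSum hx').mapL i₁)
  have h7 := x2_step (U2 := U2) D hQ hp.xb hL
  rw [← he] at h7
  unfold xx
  rw [← h7]
  have h8 : i₁ (vx μ φ E U (fun z => (φ z - c) * y z) fun z => (φ z - c) • ξ z) =
      i₁ (vl μ fun z => (φ z - c) * y z) + i₁ (zt μ φ E U fun z => (φ z - c) • ξ z) := by
    unfold vx
    rw [map_add]
  rw [h8, ← h6, ← h1]
  have h9 : N (vx μ φ E U y ξ) = N (vl μ y) + N (zt μ φ E U ξ) := by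
    unfold vx
    rw [map_add]
  have h10 : i₁ (vx μ φ E U y ξ) = i₁ (vl μ y) + i₁ (zt μ φ E U ξ) := by
    unfold vx
    rw [map_add]
  rw [h9] 
  simp only [map_sub, map_add, map_smul, smul_add, h10]
  abel

end

end Pool.Agent.N812.WO
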