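import Pool.Agent.N812.WO.Ex

/-!
# Perturbations of the sum of a multiplication operator and an arbitrary operator: local spectra
-/

set_option autoImplicit false

namespace Pool.Agent.N812.WO

open MeasureTheory Set Metric Filter Topology
open Pool.Agent.N812.IS
open scoped InnerProductSpace ENNReal NNReal ComplexConjugate

variable {S : Type} [MeasurableSpace S] {μ : Measure S} {φ : S → ℂ} {E : Set S} {V : S → l2}
  {U : ℕ → S → l2} {A B : ℕ → ℂ → ℂ} {n f h a : ℕ → ℝ≥0}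
  {H Z : Type} [NormedAddCommGroup H] [NormedSpace ℂ H] [CompleteSpace H]
  [NormedAddCommGroup Z] [NormedSpace ℂ Z] [CompleteSpace Z]
  {T : H →L[ℂ] H} {N : Lp ℂ 2 μ →L[ℂ] Lp ℂ 2 μ} {R : Z →L[ℂ] Z} {i₁ : Lp ℂ 2 μ →L[ℂ] H}
  {i₂ : Z →L[ℂ] H} {W : H →L[ℂ] l2} {U2 : l2 →L[ℂ] Z} {Q : S → (Z →L[ℂ] Z)} {m : ℝ≥0}
  [SigmaFinite μ]

lemma xx_norm (D : Dat μ φ E V U A B n f h a) (hQ : Rs φ E R Q m) {y : S → ℂ} {ξ : S → l2}
    {M : ℝ≥0} (hp : Px μ φ E V U A B a i₂ W U2 Q y ξ M) : ‖xx μ φ E U i₁ i₂ U2 Q y ξ‖ ≤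
      M * (‖i₁‖ * (((μ E) ^ (1 / 2 : ℝ)).toReal + (∑' k, Rk μ E n f h a k).toReal) +
        ‖i₂‖ * ((m : ℝ) * ‖U2‖ * (μ E).toReal)) := by
  have h1 : ‖vx μ φ E U y ξ‖ ≤
      M * (((μ E) ^ (1 / 2 : ℝ)).toReal + (∑' k, Rk μ E n f h a k).toReal) := by
    unfold vx
    refine (norm_add_le _ _).trans ?_
    rw [mul_add]
    exact add_le_add (Pr.norm D hp.ym hp.yb hp.y0) (D.zt_norm hp.xb)
  have h2 := x2_norm (U2 := U2) D hQ hp.xb
  unfold xx
  refine (norm_add_le _ _).trans ?_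
  rw [mul_add]
  refine add_le_add ?_ ?_
  · refine (i₁.le_opNorm _).trans ?_
    calc ‖i₁‖ * ‖vx μ φ E U y ξ‖ ≤ ‖i₁‖ * (M * (((μ E) ^ (1 / 2 : ℝ)).toReal +
          (∑' k, Rk μ E n f h a k).toReal)) := mul_le_mul_of_nonneg_left h1 (norm_nonneg _)
      _ = _ := by ring
  · refine (i₂.le_opNorm _).trans ?_
    calc ‖i₂‖ * ‖x2 μ E U2 Q ξ‖ ≤ ‖i₂‖ * (M * ((m : ℝ) * ‖U2‖ * (μ E).toReal)) :=
          mul_le_mul_of_nonneg_left h2 (norm_nonneg _)
      _ = _ := by ring

/-- nonvanishing -/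
lemma nonzeroX (D : Dat μ φ E V U A B n f h a) (hQ : Rs φ E R Q m)
    (hT : Ext μ φ E V U T N R i₁ i₂ W U2) {y : S → ℂ} {ξ : S → l2} {M : ℝ≥0}
    (hp : Px μ φ E V U A B a i₂ W U2 Q y ξ M) {F : Set S} (hF : MeasurableSet F) (hFE : F ⊆ E)
    (hne : ¬ ∀ᵐ z ∂(μ.restrict F), y z = 0 ∧ ξ z = 0) :
    ∃ F' : Set S, MeasurableSet F' ∧ F' ⊆ F ∧
      xx μ φ E U i₁ i₂ U2 Q (fun z => F'.indicator (fun _ => (1 : ℂ)) z * y z)
        (fun z => F'.indicator (fun _ => (1 : ℂ)) z • ξ z) ≠ 0 := by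
  by_contra hcon
  push Not at hcon
  apply hne
  have h0 : ∀ F' : Set S, MeasurableSet F' → F' ⊆ F → ∫ z in F', ξ z ∂μ = 0 := by
    intro F' hF' hs
    have h1 := W_xx D hQ hT (hp.mul (ind_meas hF') (ind_le F'))
    rw [hcon F' hF' hs, map_zero] at h1
    rw [h1]
    have e : ∀ z, F'.indicator (fun _ => (1 : ℂ)) z • ξ z = F'.indicator ξ z := by
      intro z
      by_cases hz : z ∈ F'
      · rw [indicator_of_mem hz, indicator_of_mem hz, one_smul]
      · rw [indicator_of_notMem hz, indicator_of_notMem hz, zero_smul]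
    simp_rw [e]
    rw [integral_indicator hF', Measure.restrict_restrict hF',
      inter_eq_self_of_subset_left (hs.trans hFE)]
  have hξ : ξ =ᵐ[μ.restrict F] 0 := by
    have hi : Integrable ξ (μ.restrict F) := (D.xi_int hp.xb).mono_measure
      (Measure.restrict_mono hFE le_rfl)
    refine hi.ae_eq_zero_of_forall_setIntegral_eq_zero fun s hs _ => ?_
    rw [Measure.restrict_restrict hs]
    exact h0 _ (hs.inter hF) inter_subset_right
  have h3 := hcon F hF subset_rfl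
  have h5' : ∀ᵐ z ∂(μ.restrict E), F.indicator (fun _ => (1 : ℂ)) z • ξ z = 0 := by
    have h5 : ∀ᵐ z ∂(μ.restrict E), z ∈ F → ξ z = 0 := by
      have h6 := (ae_restrict_iff' hF).1 hξ
      exact ae_restrict_of_ae h6
    filter_upwards [h5] with z hz
    by_cases hzF : z ∈ F
    · rw [hz hzF, smul_zero]
    · rw [indicator_of_notMem hzF, zero_smul]
  have h4 : zt μ φ E U (fun z => F.indicator (fun _ => (1 : ℂ)) z • ξ z) = 0 := zt_zero h5'
  have h4' : x2 μ E U2 Q (fun z => F.indicator (fun _ => (1 : ℂ)) z • ξ z) = 0 := by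
    unfold x2
    rw [integral_congr_ae (g := fun _ => 0), integral_zero]
    filter_upwards [h5'] with z hz
    rw [hz, map_zero, map_zero]
  unfold xx vx at h3
  rw [h4, h4', add_zero, map_zero, add_zero] at h3
  have hp' := hp.mul (ind_meas hF) (ind_le F)
  have h5 := vl_ae (Pr.memLp D hp'.ym hp'.yb hp'.y0)
  have h3' := hT.inj _ (by
    filter_upwards [h5] with z hz hzE
    rw [hz, hp'.y0 z hzE]) h3
  rw [h3'] at h5
  have h6 : ∀ᵐ z ∂(μ.restrict F), y z = 0 := by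
    rw [ae_restrict_iff' hF]
    filter_upwards [h5, Lp.coeFn_zero ℂ 2 μ] with z h7 h8 hz
    rw [h8, indicator_of_mem hz, one_mul, Pi.zero_apply] at h7
    exact h7.symm
  filter_upwards [h6, hξ] with z h7 h8
  exact ⟨h7, h8⟩

/-! ### existence of pairs -/

/-- the operator `1 - G(z)` -/
noncomputable def DX (μ : Measure S) (φ : S → ℂ) (V : S → l2) (U : ℕ → S → l2) (A B : ℕ → ℂ → ℂ)
    (a : ℕ → ℝ≥0) (i₂ : Z →L[ℂ] H) (W : H →L[ℂ] l2) (U2 : l2 →L[ℂ] Z) (Q : S → (Z →L[ℂ] Z))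
    (z : S) : l2 →L[ℂ] l2 := 1 - GX μ φ V U A B a i₂ W U2 Q z

lemma GX_meas (D : Dat μ φ E V U A B n f h a) (hQ : Rs φ E R Q m) :
    StronglyMeasurable (GX μ φ V U A B a i₂ W U2 Q) := by
  refine D.GG_meas.add ?_
  have h1 : Continuous fun P : Z →L[ℂ] Z => (W.comp i₂).comp (P.comp U2) :=
    continuous_const.clm_comp (continuous_id.clm_comp continuous_const)
  exact h1.comp_stronglyMeasurable hQ.meas

lemma DX_meas (D : Dat μ φ E V U A B n f h a) (hQ : Rs φ E R Q m) :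
    StronglyMeasurable (DX μ φ V U A B a i₂ W U2 Q) :=
  stronglyMeasurable_const.sub (GX_meas D hQ)

lemma DX_eq (z : S) (x : l2) : DX μ φ V U A B a i₂ W U2 Q z x =
    x - GX μ φ V U A B a i₂ W U2 Q z x := rfl

lemma GX_compact (D : Dat μ φ E V U A B n f h a) (hU : IsCompactOperator W) (z : S) :
    IsCompactOperator (GX μ φ V U A B a i₂ W U2 Q z) := by
  have h1 : IsCompactOperator (((W.comp i₂).comp ((Q z).comp U2)) : l2 →L[ℂ] l2) :=
    (hU.comp_clm i₂).comp_clm ((Q z).comp U2)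
  exact (D.GG_compact z).add h1

/-- where `1 - G(z)` is not invertible, it has a kernel -/
lemma kerX_of (D : Dat μ φ E V U A B n f h a) (hU : IsCompactOperator W) {z : S}
    (hz : ¬ IsUnit (DX μ φ V U A B a i₂ W U2 Q z)) :
    ∃ j : ℕ, (kr (DX μ φ V U A B a i₂ W U2 Q z)).starProjection (ee j) ≠ 0 := by
  rcases (GX_compact (i₂ := i₂) (W := W) (Q := Q) D hU z).hasEigenvalue_or_mem_resolventSet
    (μ := (1:ℂ)) one_ne_zero with h1 | h1
  · obtain ⟨v, hv⟩ := h1.exists_hasEigenvector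
    have hv1 : GX μ φ V U A B a i₂ W U2 Q z v = v := by
      have := hv.apply_eq_smul
      simpa using this
    have hvk : v ∈ kr (DX μ φ V U A B a i₂ W U2 Q z) := by
      rw [mem_kr, DX_eq, hv1, sub_self]
    by_contra hcon
    push Not at hcon
    apply hv.2
    have h2 : ∀ j, (v : ℕ → ℂ) j = 0 := by
      intro j
      rw [← inner_ee]
      have h3 := Submodule.starProjection_inner_eq_zero
        (K := kr (DX μ φ V U A B a i₂ W U2 Q z)) (ee j) v hvk
      rw [hcon j, sub_zero] at h3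
      exact h3
    ext j
    exact h2 j
  · exfalso
    apply hz
    rw [spectrum.mem_resolventSet_iff, map_one] at h1
    exact h1

lemma kerX_meas (D : Dat μ φ E V U A B n f h a) (hQ : Rs φ E R Q m) (j : ℕ) :
    StronglyMeasurable fun z => (kr (DX μ φ V U A B a i₂ W U2 Q z)).starProjection (ee j) := by
  refine stronglyMeasurable_of_tendsto atTop
    (f := fun (N : ℕ) z => Rn (DX μ φ V U A B a i₂ W U2 Q z) N (ee j)) (fun N => ?_) ?_
  · have h1 : StronglyMeasurable fun z => (1 : l2 →L[ℂ] l2) + (N : ℂ) •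
        (ContinuousLinearMap.adjoint (DX μ φ V U A B a i₂ W U2 Q z) *
          DX μ φ V U A B a i₂ W U2 Q z) := by
      have h2 : StronglyMeasurable fun z =>
          ContinuousLinearMap.adjoint (DX μ φ V U A B a i₂ W U2 Q z) :=
        (ContinuousLinearMap.adjoint (𝕜 := ℂ) (E := l2) (F := l2)).continuous.comp_stronglyMeasurable
          (DX_meas D hQ)
      have h3 : StronglyMeasurable fun z =>
          ContinuousLinearMap.adjoint (DX μ φ V U A B a i₂ W U2 Q z) *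
            DX μ φ V U A B a i₂ W U2 Q z := h2.mul (DX_meas D hQ)
      exact stronglyMeasurable_const.add (h3.const_smul (N : ℂ))
    exact sm_app (inverseS_meas h1) stronglyMeasurable_const
  · rw [tendsto_pi_nhds]
    exact fun z => ker_lim _ _

/-- the pairs where `1 - G(z)` is invertible -/
lemma pairX1 (D : Dat μ φ E V U A B n f h a) (hQ : Rs φ E R Q m) {F : Set S}
    (hF : MeasurableSet F) (hFE : F ⊆ E)
    (hm : μ (F ∩ {z | IsUnit (DX μ φ V U A B a i₂ W U2 Q z)}) ≠ 0) :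
    ∃ (y : S → ℂ) (ξ : S → l2) (M : ℝ≥0), Px μ φ E V U A B a i₂ W U2 Q y ξ M ∧
      ¬ ∀ᵐ z ∂(μ.restrict F), y z = 0 ∧ ξ z = 0 := by
  have hI : StronglyMeasurable fun z => Ring.inverse (DX μ φ V U A B a i₂ W U2 Q z) :=
    inverseS_meas (DX_meas D hQ)
  set P : ℕ → Set S := fun m => F ∩ ({z | IsUnit (DX μ φ V U A B a i₂ W U2 Q z)} ∩
    {z | ‖V z‖ ≤ m ∧ ‖Ring.inverse (DX μ φ V U A B a i₂ W U2 Q z)‖ ≤ m}) with hP
  have hun : MeasurableSet {z | IsUnit (DX μ φ V U A B a i₂ W U2 Q z)} := by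
    borelize (l2 →L[ℂ] l2)
    exact (DX_meas D hQ).measurable Units.isOpen.measurableSet
  have hPm : ∀ m, MeasurableSet (P m) := fun m => hF.inter (hun.inter
    ((measurableSet_le D.Vm.norm.measurable measurable_const).inter
      (measurableSet_le hI.norm.measurable measurable_const)))
  obtain ⟨m, hmm⟩ : ∃ m, μ (P m) ≠ 0 := by
    by_contra hcon
    push Not at hcon
    apply hm
    refine measure_mono_null ?_ (measure_iUnion_null hcon)
    rintro z ⟨hz1, hz2⟩
    obtain ⟨m, hm⟩ := exists_nat_ge (max ‖V z‖ ‖Ring.inverse (DX μ φ V U A B a i₂ W U2 Q z)‖)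
    exact mem_iUnion.2 ⟨m, hz1, hz2, (le_max_left _ _).trans hm, (le_max_right _ _).trans hm⟩
  refine ⟨(P m).indicator fun _ => 1,
    (P m).indicator fun z => Ring.inverse (DX μ φ V U A B a i₂ W U2 Q z) (V z),
    (m * m + 1 : ℝ≥0), ?_, ?_⟩
  · refine ⟨ind_meas (hPm m), fun z => ?_, fun z hz => ?_, ⟨(sm_app hI D.Vm).indicator (hPm m),
      fun z => ?_⟩, ?_⟩
    · refine (ind_le _ z).trans ?_
      push_cast
      nlinarith [Nat.cast_nonneg (α := ℝ) m]
    · exact indicator_of_notMem (fun h' => hz (hFE h'.1)) _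
    · by_cases hz : z ∈ P m
      · rw [indicator_of_mem hz]
        refine (ContinuousLinearMap.le_opNorm _ _).trans ?_
        have h1 : ‖Ring.inverse (DX μ φ V U A B a i₂ W U2 Q z)‖ * ‖V z‖ ≤ (m : ℝ) * m :=
          mul_le_mul hz.2.2.2 hz.2.2.1 (norm_nonneg _) (Nat.cast_nonneg _)
        push_cast
        linarith
      · rw [indicator_of_notMem hz, norm_zero]
        positivity
    · refine Eventually.of_forall fun z => ?_
      by_cases hz : z ∈ P m
      · rw [indicator_of_mem hz, indicator_of_mem hz, one_smul]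
        have h1 := Ring.mul_inverse_cancel _ hz.2.1
        have h2 := congrArg (fun R : l2 →L[ℂ] l2 => R (V z)) h1
        change DX μ φ V U A B a i₂ W U2 Q z
          (Ring.inverse (DX μ φ V U A B a i₂ W U2 Q z) (V z)) = V z at h2
        rw [DX_eq] at h2
        exact (sub_eq_iff_eq_add.1 h2).symm
      · rw [indicator_of_notMem hz, indicator_of_notMem hz, zero_smul, map_zero, add_zero]
  · intro hcon
    apply hmm
    have h1 : ∀ᵐ z ∂(μ.restrict (P m)), (P m).indicator (fun _ => (1:ℂ)) z = 0 := by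
      have h2 := ae_mono (Measure.restrict_mono (show P m ⊆ F from inter_subset_left) (le_refl μ))
        hcon
      filter_upwards [h2] with z hz
      exact hz.1
    rw [ae_restrict_iff' (hPm m)] at h1
    rw [measure_eq_zero_iff_ae_notMem]
    filter_upwards [h1] with z hz hzP
    have := hz hzP
    rw [indicator_of_mem hzP] at this
    exact one_ne_zero this

/-- the pairs where `1 - G(z)` is not invertible -/
lemma pairX2 (D : Dat μ φ E V U A B n f h a) (hQ : Rs φ E R Q m) (hU : IsCompactOperator W)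
    {F : Set S} (hF : MeasurableSet F)
    (hF0 : μ F ≠ 0) (hm : μ (F ∩ {z | IsUnit (DX μ φ V U A B a i₂ W U2 Q z)}) = 0) :
    ∃ (y : S → ℂ) (ξ : S → l2) (M : ℝ≥0), Px μ φ E V U A B a i₂ W U2 Q y ξ M ∧
      ¬ ∀ᵐ z ∂(μ.restrict F), y z = 0 ∧ ξ z = 0 := by
  by_contra hcon
  push Not at hcon
  have h1 : ∀ j : ℕ, ∀ᵐ z ∂(μ.restrict F),
      (kr (DX μ φ V U A B a i₂ W U2 Q z)).starProjection (ee j) = 0 := by
    intro j
    have hp : Px μ φ E V U A B a i₂ W U2 Q (fun _ => 0)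
        (fun z => (kr (DX μ φ V U A B a i₂ W U2 Q z)).starProjection (ee j)) 1 := by
      refine ⟨measurable_const, fun z => by simp, fun z _ => rfl,
        ⟨kerX_meas D hQ j, fun z => ?_⟩, Eventually.of_forall fun z => ?_⟩
      · have h2 : ‖(kr (DX μ φ V U A B a i₂ W U2 Q z)).starProjection (ee j)‖ ≤
            ‖(kr (DX μ φ V U A B a i₂ W U2 Q z)).starProjection‖ * ‖ee j‖ :=
          ContinuousLinearMap.le_opNorm _ _
        have h3 : ‖ee j‖ = 1 := ee_orth.1 j
        rw [h3, mul_one] at h2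
        exact h2.trans (Submodule.starProjection_norm_le _)
      · rw [zero_smul, zero_add]
        have h2 : (kr (DX μ φ V U A B a i₂ W U2 Q z)).starProjection (ee j) ∈
            kr (DX μ φ V U A B a i₂ W U2 Q z) := Submodule.starProjection_apply_mem _ _
        rw [mem_kr, DX_eq, sub_eq_zero] at h2
        exact h2.symm
    filter_upwards [hcon _ _ _ hp] with z hz
    exact hz.2
  apply hF0
  have h2 : ∀ᵐ z ∂(μ.restrict F), False := by
    rw [ae_restrict_iff' hF]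
    have h3 := (ae_restrict_iff' hF).1 (ae_all_iff.2 h1)
    have h4 := measure_eq_zero_iff_ae_notMem.1 hm
    filter_upwards [h3, h4] with z h5 h6 hz
    have h7 : ¬ IsUnit (DX μ φ V U A B a i₂ W U2 Q z) := fun h' => h6 ⟨hz, h'⟩
    obtain ⟨j, hj⟩ := kerX_of D hU h7
    exact hj (h5 hz j)
  have h3 : (μ.restrict F) univ = 0 := by
    rw [ae_iff] at h2
    simpa using h2
  rwa [Measure.restrict_apply_univ] at h3

/-- **Vectors with small local spectra** -/
theorem halfX (D : Dat μ φ E V U A B n f h a) (hQ : Rs φ E R Q m)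
    (hT : Ext μ φ E V U T N R i₁ i₂ W U2) (c : ℂ) (r : ℝ) (hr : 0 < r)
    (hc : μ (E ∩ φ ⁻¹' ball c r) ≠ 0) :
    ∃ (X : ℕ → H) (C : ℝ), X 0 ≠ 0 ∧ (∀ j, ‖X j‖ ≤ C * r ^ j) ∧
      ∀ j, T (X j) - c • X j = X (j + 1) := by
  set F : Set S := E ∩ φ ⁻¹' ball c r with hFd
  have hF : MeasurableSet F := D.Em.inter (D.phi measurableSet_ball)
  have hFE : F ⊆ E := inter_subset_left
  obtain ⟨y, ξ, M, hp, hne⟩ : ∃ (y : S → ℂ) (ξ : S → l2) (M : ℝ≥0),
      Px μ φ E V U A B a i₂ W U2 Q y ξ M ∧ ¬ ∀ᵐ z ∂(μ.restrict F), y z = 0 ∧ ξ z = 0 := by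
    by_cases hm : μ (F ∩ {z | IsUnit (DX μ φ V U A B a i₂ W U2 Q z)}) = 0
    · exact pairX2 D hQ hT.cpt hF hc hm
    · exact pairX1 D hQ hF hFE hm
  obtain ⟨F', hF', hs, hX⟩ := nonzeroX D hQ hT hp hF hFE hne
  have hp' := hp.mul (ind_meas hF') (ind_le F')
  -- the multipliers
  set g : ℕ → S → ℂ := fun j z => (φ z - c) ^ j * F'.indicator (fun _ => (1:ℂ)) z with hg
  have hgm : ∀ j, Measurable (g j) := fun j =>
    ((D.phi.sub_const c).pow_const j).mul (ind_meas hF')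
  have hgb : ∀ j z, ‖g j z‖ ≤ (r.toNNReal ^ j : ℝ≥0) := by
    intro j z
    rw [NNReal.coe_pow, Real.coe_toNNReal r hr.le]
    by_cases hz : z ∈ F'
    · simp only [hg, indicator_of_mem hz, mul_one, norm_pow]
      have h1 : φ z ∈ ball c r := (hs hz).2
      rw [mem_ball, dist_eq_norm] at h1
      exact pow_le_pow_left₀ (norm_nonneg _) h1.le j
    · simp only [hg, indicator_of_notMem hz, mul_zero, norm_zero]
      positivity
  have hpj : ∀ j, Px μ φ E V U A B a i₂ W U2 Q (fun z => g j z * y z) (fun z => g j z • ξ z)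
      (r.toNNReal ^ j * M) := fun j => hp.mul (hgm j) (hgb j)
  obtain ⟨b, hb⟩ := D.phib
  refine ⟨fun j => xx μ φ E U i₁ i₂ U2 Q (fun z => g j z * y z) (fun z => g j z • ξ z),
    M * (‖i₁‖ * (((μ E) ^ (1 / 2 : ℝ)).toReal + (∑' k, Rk μ E n f h a k).toReal) +
        ‖i₂‖ * ((m : ℝ) * ‖U2‖ * (μ E).toReal)), ?_, fun j => ?_, fun j => ?_⟩
  · have e : g 0 = F'.indicator fun _ => (1:ℂ) := by
      funext z
      simp only [hg, pow_zero, one_mul]
    show xx μ φ E U i₁ i₂ U2 Q (fun z => g 0 z * y z) (fun z => g 0 z • ξ z) ≠ 0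
    rw [e]
    exact hX
  · refine (xx_norm D hQ (hpj j)).trans (le_of_eq ?_)
    rw [NNReal.coe_mul, NNReal.coe_pow, Real.coe_toNNReal r hr.le]
    ring
  · have hbc : ∀ z, ‖φ z - c‖ ≤ (‖b‖₊ + ‖c‖₊ : ℝ≥0) := fun z => by
      refine (norm_sub_le _ _).trans ?_
      rw [NNReal.coe_add, coe_nnnorm, coe_nnnorm]
      exact add_le_add ((hb z).trans (Real.le_norm_self b)) le_rfl
    rw [chainX D hQ hT (hpj j) hbc]
    congr 1
    · funext z
      simp only [hg, pow_succ]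
      ring
    · funext z
      simp only [hg, pow_succ, smul_smul]
      congr 1
      ring

end Pool.Agent.N812.WO
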