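import Pool.Agent.N812.WO.Asm

/-!
# Perturbations on a Hilbert space: the spectral theorem, potentials
-/

set_option autoImplicit false

namespace Pool.Agent.N812.WO

open MeasureTheory Set Metric Filter Topology
open Pool.Agent.N812.IS
open scoped InnerProductSpace ENNReal NNReal ComplexConjugate
open ContinuousLinearMap (adjoint)

variable {H₁ H₂ H : Type} [NormedAddCommGroup H₁] [InnerProductSpace ℂ H₁] [CompleteSpace H₁]
  [NormedAddCommGroup H₂] [InnerProductSpace ℂ H₂] [CompleteSpace H₂]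
  [NormedAddCommGroup H] [InnerProductSpace ℂ H] [CompleteSpace H]

/-- the spectral theorem -/
theorem spn [TopologicalSpace.SeparableSpace H₁] (N : H₁ →L[ℂ] H₁) (hN : IsStarNormal N) :
    ∃ (S : Type) (_ : MeasurableSpace S) (μ : Measure S) (_ : SigmaFinite μ) (φ : S → ℂ)
      (J : Lp ℂ 2 μ ≃ₗᵢ[ℂ] H₁), Measurable φ ∧ (∀ s, φ s ∈ spectrum ℂ N) ∧
      ∀ f : ℂ → ℂ, Continuous f → ∀ F G : Lp ℂ 2 μ, (G =ᵐ[μ] fun s => f (φ s) * F s) →
        cfc f N (J F) = J G := by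
  have hcpt : CompactSpace (spectrum ℂ N) := isCompact_iff_compactSpace.1 (spectrum.isCompact N)
  obtain ⟨μ, hμ, W, hW⟩ := Pool.Agent.Y25.NK.exists_unitary (X := spectrum ℂ N)
    (cfcHom (R := ℂ) (a := N) hN)
  refine ⟨ℕ × spectrum ℂ N, inferInstance, μ, hμ, fun s => (s.2 : ℂ), W,
    measurable_subtype_coe.comp measurable_snd, fun s => s.2.2, fun f hf F G hG => ?_⟩
  rw [cfc_apply f N hN hf.continuousOn]
  exact hW _ F G hG

/-- the regularised kernel -/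
noncomputable def pk (τ : ℝ) (w : ℂ) (ε : ℝ) (z : ℂ) : ℂ := (((‖z - w‖ + ε) ^ (-τ) : ℝ) : ℂ)

lemma pk_cont {τ : ℝ} {w : ℂ} {ε : ℝ} (hε : 0 < ε) : Continuous (pk τ w ε) := by
  unfold pk
  refine Complex.continuous_ofReal.comp ?_
  refine Continuous.rpow_const (by fun_prop) fun z => Or.inl ?_
  positivity

/-- the measure of `x` has a bounded potential of order `τ` -/
def BP (τ : ℝ) (N : H₁ →L[ℂ] H₁) (x : H₁) : Prop :=
  ∃ C : ℝ, ∀ (w : ℂ) (ε : ℝ), 0 < ε → ‖⟪x, cfc (pk τ w ε) N x⟫_ℂ‖ ≤ C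

section

variable {S : Type} [MeasurableSpace S] {μ : Measure S} {φ : S → ℂ} {N : H₁ →L[ℂ] H₁}
  {J : Lp ℂ 2 μ ≃ₗᵢ[ℂ] H₁}

/-- the functional calculus on the model -/
def Sc (φ : S → ℂ) (N : H₁ →L[ℂ] H₁) (J : Lp ℂ 2 μ ≃ₗᵢ[ℂ] H₁) : Prop :=
  ∀ f : ℂ → ℂ, Continuous f → ∀ F G : Lp ℂ 2 μ, (G =ᵐ[μ] fun s => f (φ s) * F s) →
        cfc f N (J F) = J G

lemma mul_memLp {g : S → ℂ} (hg : Measurable g) {M : ℝ} (hM : ∀ s, ‖g s‖ ≤ M) (F : Lp ℂ 2 μ) :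
    MemLp (fun s => g s * F s) 2 μ := by
  refine MemLp.of_le_mul (c := M) (Lp.memLp F) ?_ ?_
  · exact hg.aestronglyMeasurable.mul (Lp.memLp F).aestronglyMeasurable
  · refine Eventually.of_forall fun s => ?_
    rw [norm_mul]
    exact mul_le_mul_of_nonneg_right (hM s) (norm_nonneg _)

lemma Sc.eq (hS : Sc φ N J) (hφ : Measurable φ) {f : ℂ → ℂ} (hf : Continuous f) {M : ℝ}
    (hM : ∀ s, ‖f (φ s)‖ ≤ M) (F : Lp ℂ 2 μ) :
    cfc f N (J F) = J ((mul_memLp (hf.measurable.comp hφ) hM F).toLp _) :=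
  hS f hf F _ (MemLp.coeFn_toLp _)

lemma pot_eps (hS : Sc φ N J) (hφ : Measurable φ) {τ : ℝ} (hτ : 0 < τ) {w : ℂ} {ε : ℝ}
    (hε : 0 < ε) (F : Lp ℂ 2 μ) {C : ℝ} (hC : ‖⟪J F, cfc (pk τ w ε) N (J F)⟫_ℂ‖ ≤ C) :
    ∫⁻ s, ENNReal.ofReal ((‖φ s - w‖ + ε) ^ (-τ)) * ‖F s‖ₑ ^ 2 ∂μ ≤ ENNReal.ofReal C := by
  have hM : ∀ s, ‖pk τ w ε (φ s)‖ ≤ ε ^ (-τ) := by
    intro s
    unfold pk
    rw [Complex.norm_real, Real.norm_of_nonneg (by positivity)]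
    exact Real.rpow_le_rpow_of_nonpos hε (by linarith [norm_nonneg (φ s - w)]) (by linarith)
  rw [hS.eq hφ (pk_cont hε) hM, LinearIsometryEquiv.inner_map_map, L2.inner_def] at hC
  have e1 : ∀ᵐ s ∂μ, ⟪F s, ((mul_memLp ((pk_cont hε).measurable.comp hφ) hM F).toLp _ :
      Lp ℂ 2 μ) s⟫_ℂ = (((‖φ s - w‖ + ε) ^ (-τ) * ‖F s‖ ^ 2 : ℝ) : ℂ) := by
    filter_upwards [(mul_memLp ((pk_cont hε).measurable.comp hφ) hM F).coeFn_toLp] with s hs
    rw [hs]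
    unfold pk
    rw [RCLike.inner_apply, mul_assoc, RCLike.mul_conj]
    push_cast
    rfl
  rw [integral_congr_ae e1, integral_complex_ofReal] at hC
  have e2 : Integrable (fun s => (‖φ s - w‖ + ε) ^ (-τ) * ‖F s‖ ^ 2) μ := by
    have h1 : Integrable (fun s => ‖F s‖ ^ 2) μ := (Lp.memLp F).integrable_norm_pow (by norm_num)
    refine h1.bdd_mul (c := ε ^ (-τ)) ?_ ?_
    · refine Measurable.aestronglyMeasurable ?_
      fun_prop
    · refine Eventually.of_forall fun s => ?_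
      have := hM s
      unfold pk at this
      rwa [Complex.norm_real] at this
  have e3 : ∀ s, 0 ≤ (‖φ s - w‖ + ε) ^ (-τ) * ‖F s‖ ^ 2 := fun s => by positivity
  have e4 : ∫ s, (‖φ s - w‖ + ε) ^ (-τ) * ‖F s‖ ^ 2 ∂μ ≤ C := by
    refine le_trans (le_of_eq ?_) hC
    rw [Complex.norm_real, Real.norm_of_nonneg (integral_nonneg e3)]
  refine le_trans (le_of_eq ?_) (ENNReal.ofReal_le_ofReal e4)
  rw [ofReal_integral_eq_lintegral_ofReal e2 (Eventually.of_forall e3)]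
  refine lintegral_congr fun s => ?_
  rw [ENNReal.ofReal_mul (by positivity), ENNReal.ofReal_pow (norm_nonneg _), ofReal_norm]

lemma pot_le (hS : Sc φ N J) (hφ : Measurable φ) {τ : ℝ} (hτ : 0 < τ) {w : ℂ}
    (F : Lp ℂ 2 μ) {C : ℝ} (hC : ∀ ε : ℝ, 0 < ε → ‖⟪J F, cfc (pk τ w ε) N (J F)⟫_ℂ‖ ≤ C) :
    ∫⁻ s, ‖φ s - w‖ₑ ^ (-τ) * ‖F s‖ₑ ^ 2 ∂μ ≤ ENNReal.ofReal C := by
  set ε : ℕ → ℝ := fun n => 1 / ((n : ℝ) + 1) with hε
  have hε0 : ∀ n, 0 < ε n := fun n => by positivity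
  have hlim : Tendsto ε atTop (𝓝 0) := tendsto_one_div_add_atTop_nhds_zero_nat
  have h1 : ∀ s, Tendsto (fun n => ENNReal.ofReal ((‖φ s - w‖ + ε n) ^ (-τ)) * ‖F s‖ₑ ^ 2) atTop
      (𝓝 (‖φ s - w‖ₑ ^ (-τ) * ‖F s‖ₑ ^ 2)) := by
    intro s
    refine ENNReal.Tendsto.mul_const ?_ (Or.inr (ENNReal.pow_ne_top enorm_ne_top))
    have h2 : ∀ n, ENNReal.ofReal ((‖φ s - w‖ + ε n) ^ (-τ)) =
        (ENNReal.ofReal (‖φ s - w‖ + ε n)) ^ (-τ) := fun n => by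
      rw [ENNReal.ofReal_rpow_of_pos (by have := hε0 n; positivity)]
    simp_rw [h2]
    have h3 : Tendsto (fun n => ENNReal.ofReal (‖φ s - w‖ + ε n)) atTop (𝓝 ‖φ s - w‖ₑ) := by
      rw [← ofReal_norm]
      refine (ENNReal.continuous_ofReal.tendsto _).comp ?_
      have := (hlim.const_add ‖φ s - w‖)
      rwa [add_zero] at this
    exact (ENNReal.continuous_rpow_const.tendsto _).comp h3
  calc ∫⁻ s, ‖φ s - w‖ₑ ^ (-τ) * ‖F s‖ₑ ^ 2 ∂μ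
      = ∫⁻ s, liminf (fun n => ENNReal.ofReal ((‖φ s - w‖ + ε n) ^ (-τ)) * ‖F s‖ₑ ^ 2) atTop ∂μ :=
        lintegral_congr fun s => (h1 s).liminf_eq.symm
    _ ≤ liminf (fun n => ∫⁻ s, ENNReal.ofReal ((‖φ s - w‖ + ε n) ^ (-τ)) * ‖F s‖ₑ ^ 2 ∂μ) atTop := by
        refine lintegral_liminf_le' fun n => ?_
        refine AEMeasurable.mul ?_ ((Lp.aestronglyMeasurable F).enorm.pow_const 2)
        refine Measurable.aemeasurable ?_
        fun_prop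
    _ ≤ ENNReal.ofReal C := by
        refine liminf_le_of_frequently_le' (Frequently.of_forall fun n => ?_)
        exact pot_eps hS hφ hτ (hε0 n) F (hC _ (hε0 n))

end

end Pool.Agent.N812.WO
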