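import Pool.Agent.N812.WO.Fin

/-!
# Perturbations on a Hilbert space: the main theorem
-/

set_option autoImplicit false

namespace Pool.Agent.N812.WO

open MeasureTheory Set Metric Filter Topology
open Pool.Agent.N812.IS
open scoped InnerProductSpace ENNReal NNReal ComplexConjugate
open ContinuousLinearMap (adjoint)

variable {H₁ H₂ H : Type} [NormedAddCommGroup H₁] [InnerProductSpace ℂ H₁] [CompleteSpace H₁]
  [NormedAddCommGroup H₂] [InnerProductSpace ℂ H₂] [CompleteSpace H₂]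
  [NormedAddCommGroup H] [InnerProductSpace ℂ H] [CompleteSpace H]

/-! ### the adjoint -/

lemma s_le {K : H →L[ℂ] H} {s : ℕ → ℝ} {u v : ℕ → H} (hu : Orthonormal ℂ u)
    (hv : Orthonormal ℂ v)
    (hK : ∀ y, HasSum (fun j => ((s j : ℂ) * ⟪v j, y⟫_ℂ) • u j) (K y)) (i : ℕ) :
    ‖s i‖ ≤ ‖K‖₊ := by
  have h1 : K (v i) = (s i : ℂ) • u i := by
    refine (hK (v i)).unique ?_
    have h2 : (fun j => ((s j : ℂ) * ⟪v j, v i⟫_ℂ) • u j) =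
        fun j => if j = i then (s i : ℂ) • u i else 0 := by
      funext j
      rw [orthonormal_iff_ite.1 hv j i]
      split_ifs with hj
      · rw [hj, mul_one]
      · rw [mul_zero, zero_smul]
    rw [h2]
    exact hasSum_ite_eq i _
  have h3 := K.le_opNorm (v i)
  rw [h1, norm_smul, hu.1, hv.1, mul_one, mul_one, Complex.norm_real] at h3
  exact h3

lemma adj_sum {K : H →L[ℂ] H} {s : ℕ → ℝ} {u v : ℕ → H} (hu : Orthonormal ℂ u)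
    (hv : Orthonormal ℂ v)
    (hK : ∀ y, HasSum (fun j => ((s j : ℂ) * ⟪v j, y⟫_ℂ) • u j) (K y)) (y : H) :
    HasSum (fun j => ((s j : ℂ) * ⟪u j, y⟫_ℂ) • v j) (adjoint K y) := by
  have hb := s_le hu hv hK
  have hb1 : ∀ j : ℕ, ‖(fun _ : ℕ => (1:ℝ)) j‖ ≤ (1 : ℝ≥0) := fun j => by simp
  have e1 : K = (Uo hu s ‖K‖₊ hb).comp (Wo hv (fun _ => 1) 1 hb1) := by
    ext x
    exact (UW hu hv hb hb1 (s := s) (fun j => mul_one _) hK x).symm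
  have e2 : adjoint K = (Uo hv (fun _ => 1) 1 hb1).comp (Wo hu s ‖K‖₊ hb) := by
    conv_lhs => rw [e1]
    rw [ContinuousLinearMap.adjoint_comp, Wo, Wo, ContinuousLinearMap.adjoint_adjoint]
  rw [e2]
  refine (Uo_sum hv _ _ hb1 (Wo hu s ‖K‖₊ hb y)).congr_fun fun j => ?_
  rw [Wo_apply]
  simp

/-! ### the good part of the space -/

section

variable {S : Type} [MeasurableSpace S] {μ : Measure S} {φ : S → ℂ}

/-- the good part -/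
def Ep (R : H₂ →L[ℂ] H₂) (φ : S → ℂ) (F : Lp ℂ 2 μ) (n : ℕ) : Set S :=
  {s | 1 / ((n:ℝ) + 1) ≤ ‖F s‖ ∧ IsUnit (wR R (φ s)) ∧ ‖Ring.inverse (wR R (φ s))‖ ≤ n}

lemma Ep_meas (R : H₂ →L[ℂ] H₂) (hφ : Measurable φ) (F : Lp ℂ 2 μ) (n : ℕ) :
    MeasurableSet (Ep R φ F n) := by
  have h1 : MeasurableSet {s | 1 / ((n:ℝ) + 1) ≤ ‖F s‖} :=
    measurableSet_le measurable_const (Lp.stronglyMeasurable F).norm.measurable
  have h2 : MeasurableSet {s | IsUnit (wR R (φ s))} := by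
    borelize (H₂ →L[ℂ] H₂)
    exact (wR_meas R hφ).measurable Units.isOpen.measurableSet
  have h3 : MeasurableSet {s | ‖Ring.inverse (wR R (φ s))‖ ≤ n} :=
    measurableSet_le (inverseZ_meas (wR_meas R hφ)).norm.measurable measurable_const
  exact h1.inter (h2.inter h3)

lemma Ep_one {R : H₂ →L[ℂ] H₂} {F : Lp ℂ 2 μ} {n : ℕ} {s : S} (hs : s ∈ Ep R φ F n) :
    1 ≤ (((n : ℝ≥0) + 1) ^ 2 : ℝ≥0) * ‖F s‖ₑ ^ 2 := by
  have h1 := hs.1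
  rw [div_le_iff₀ (by positivity)] at h1
  have h2 : 1 ≤ ((n : ℝ) + 1) ^ 2 * ‖F s‖ ^ 2 := by
    rw [← mul_pow]
    exact one_le_pow₀ (by linarith)
  rw [← ENNReal.ofReal_one, ← ofReal_norm, ← ENNReal.ofReal_coe_nnreal,
    ← ENNReal.ofReal_pow (norm_nonneg _), ← ENNReal.ofReal_mul (NNReal.coe_nonneg _)]
  refine ENNReal.ofReal_le_ofReal ?_
  push_cast
  exact h2

lemma Ep_int (R : H₂ →L[ℂ] H₂) (hφ : Measurable φ) (F : Lp ℂ 2 μ) (n : ℕ) {g : S → ℝ≥0∞}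
    {C : ℝ≥0} (hg : ∫⁻ s, g s * ‖F s‖ₑ ^ 2 ∂μ ≤ C) :
    ∫⁻ s in Ep R φ F n, g s ∂μ ≤ (((n : ℝ≥0) + 1) ^ 2 * C : ℝ≥0) := by
  calc ∫⁻ s in Ep R φ F n, g s ∂μ
      ≤ ∫⁻ s in Ep R φ F n, (((n : ℝ≥0) + 1) ^ 2 : ℝ≥0) * (g s * ‖F s‖ₑ ^ 2) ∂μ := by
        refine setLIntegral_mono_ae' (Ep_meas R hφ F n) (Eventually.of_forall fun s hs => ?_)
        calc g s = g s * 1 := (mul_one _).symm
          _ ≤ g s * ((((n : ℝ≥0) + 1) ^ 2 : ℝ≥0) * ‖F s‖ₑ ^ 2) :=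
              mul_le_mul' le_rfl (Ep_one hs)
          _ = _ := by ring
    _ = (((n : ℝ≥0) + 1) ^ 2 : ℝ≥0) * ∫⁻ s in Ep R φ F n, g s * ‖F s‖ₑ ^ 2 ∂μ :=
        lintegral_const_mul' _ _ ENNReal.coe_ne_top
    _ ≤ (((n : ℝ≥0) + 1) ^ 2 : ℝ≥0) * C :=
        mul_le_mul' le_rfl ((lintegral_mono' Measure.restrict_le_self le_rfl).trans hg)
    _ = _ := by push_cast; rfl

lemma Ep_fin (R : H₂ →L[ℂ] H₂) (hφ : Measurable φ) (F : Lp ℂ 2 μ) (n : ℕ) :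
    μ (Ep R φ F n) ≠ ⊤ := by
  have h1 : ∫⁻ s, (1 : ℝ≥0∞) * ‖F s‖ₑ ^ 2 ∂μ ≤ (‖F‖₊ ^ 2 : ℝ≥0) := by
    simp_rw [one_mul]
    rw [lp_int]
    push_cast
    rfl
  have h2 := Ep_int R hφ F n (g := fun _ => 1) h1
  rw [lintegral_one, Measure.restrict_apply_univ] at h2
  exact ne_top_of_le_ne_top ENNReal.coe_ne_top h2

lemma ex_Ep (R : H₂ →L[ℂ] H₂) (F : Lp ℂ 2 μ) {P : Set S}
    (h : μ (P ∩ {s | F s ≠ 0 ∧ IsUnit (wR R (φ s))}) ≠ 0) :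
    ∃ n, μ (Ep R φ F n ∩ P) ≠ 0 := by
  by_contra hcon
  push Not at hcon
  apply h
  refine measure_mono_null ?_ (measure_iUnion_null hcon)
  rintro s ⟨h1, h2, h3⟩
  obtain ⟨n, hn⟩ := exists_nat_ge (max (1 / ‖F s‖) ‖Ring.inverse (wR R (φ s))‖)
  refine mem_iUnion.2 ⟨n, ⟨?_, h3, (le_max_right _ _).trans hn⟩, h1⟩
  have h4 := (le_max_left _ _).trans hn
  have h5 : 0 < ‖F s‖ := norm_pos_iff.2 h2
  rw [div_le_iff₀ h5] at h4
  rw [div_le_iff₀ (by positivity)]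
  nlinarith

/-- there are points of the essential range -/
lemma ex_pt {E : Set S} (hφ : Measurable φ) (hE0 : μ E ≠ 0) :
    ∃ c, ∀ r : ℝ, 0 < r → μ (E ∩ φ ⁻¹' ball c r) ≠ 0 := by
  by_contra hcon
  push Not at hcon
  apply hE0
  have h1 : ((μ.restrict E).map φ) univ = 0 := by
    refine measure_null_of_locally_null _ fun c _ => ?_
    obtain ⟨r, hr, h2⟩ := hcon c
    refine ⟨ball c r, mem_nhdsWithin_of_mem_nhds (ball_mem_nhds c hr), ?_⟩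
    rw [Measure.map_apply hφ measurableSet_ball, Measure.restrict_apply (hφ measurableSet_ball),
      inter_comm]
    exact h2
  rwa [Measure.map_apply hφ MeasurableSet.univ, preimage_univ, Measure.restrict_apply_univ] at h1

lemma ex_two {E : Set S} (hφ : Measurable φ) (hE : MeasurableSet E) (hE0 : μ E ≠ 0)
    {τ : ℝ} (hτ : 0 < τ) {C : ℝ≥0} (hC : ∀ w, ∫⁻ z in E, ‖φ z - w‖ₑ ^ (-τ) ∂μ ≤ C) :
    ∃ c₁ c₂, c₁ ≠ c₂ ∧ (∀ r : ℝ, 0 < r → μ (E ∩ φ ⁻¹' ball c₁ r) ≠ 0) ∧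
      ∀ r : ℝ, 0 < r → μ (E ∩ φ ⁻¹' ball c₂ r) ≠ 0 := by
  obtain ⟨c₁, h1⟩ := ex_pt hφ hE0
  have h2 : μ (E ∩ φ ⁻¹' {c₁}) = 0 := by
    have h3 : ∀ᵐ z ∂(μ.restrict E), ‖φ z - c₁‖ₑ ^ (-τ) < ⊤ := by
      refine ae_lt_top (by fun_prop) (ne_top_of_le_ne_top ENNReal.coe_ne_top (hC c₁))
    rw [ae_restrict_iff' hE] at h3
    rw [measure_eq_zero_iff_ae_notMem]
    filter_upwards [h3] with z hz hz2
    have h4 := hz hz2.1
    have h5 : φ z = c₁ := hz2.2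
    rw [h5, sub_self, enorm_zero, ENNReal.zero_rpow_of_neg (by linarith)] at h4
    exact lt_irrefl _ h4
  obtain ⟨k, hk⟩ : ∃ k : ℕ, μ (E ∩ {z | 1 / ((k:ℝ) + 1) ≤ ‖φ z - c₁‖}) ≠ 0 := by
    by_contra hcon
    push Not at hcon
    apply hE0
    refine measure_mono_null ?_ (measure_union_null h2 (measure_iUnion_null hcon))
    intro z hz
    by_cases hzc : φ z = c₁
    · exact Or.inl ⟨hz, hzc⟩
    · right
      have h5 : 0 < ‖φ z - c₁‖ := norm_pos_iff.2 (sub_ne_zero.2 hzc)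
      obtain ⟨n, hn⟩ := exists_nat_one_div_lt h5
      exact mem_iUnion.2 ⟨n, hz, hn.le⟩
  obtain ⟨c₂, h3⟩ := ex_pt hφ hk
  refine ⟨c₁, c₂, ?_, h1, fun r hr hcon => h3 r hr (measure_mono_null ?_ hcon)⟩
  · rintro rfl
    apply h3 (1 / ((k:ℝ) + 1)) (by positivity)
    have : E ∩ {z | 1 / ((k:ℝ) + 1) ≤ ‖φ z - c₁‖} ∩ φ ⁻¹' ball c₁ (1 / ((k:ℝ) + 1)) = ∅ := by
      ext z
      simp only [mem_inter_iff, mem_setOf_eq, mem_preimage, mem_ball, dist_eq_norm,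
        mem_empty_iff_false, iff_false, not_and, not_lt]
      exact fun h => h.2
    rw [this, measure_empty]
  · rintro z ⟨⟨h4, _⟩, h5⟩
    exact ⟨h4, h5⟩

end

/-- the condition on the singular numbers -/
def Sn (τ : ℝ) (s : ℕ → ℝ) : Prop := ∃ p : ℝ, 0 < p ∧ (p < τ ∨ p ≤ 1) ∧ Summable fun j => s j ^ p

lemma ex_kn {S : Type} [MeasurableSpace S] {s : ℕ → ℝ} (hs : ∀ j, 0 ≤ s j) {τ : ℝ} (h1 : 1 ≤ τ)
    (h2 : τ < 2) (hS : Sn τ s) (μ : Measure S) (E : Set S) (hE : MeasurableSet E)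
    (hEf : μ E ≠ ⊤) (C : ℝ≥0) :
    ∃ (A B : ℕ → ℂ → ℂ) (n f h a : ℕ → ℝ≥0) (σ σ' : ℕ → ℝ) (κ : ℕ → ℕ),
      Wt σ σ' s κ h a ∧ ∀ φ : S → ℂ, Measurable φ → (∃ b : ℝ, ∀ s, ‖φ s‖ ≤ b) →
        (∀ w, ∫⁻ z in E, ‖φ z - φ w‖ₑ ^ (-τ) ∂μ ≤ C) → Kn μ φ E A B n f h a := by
  obtain ⟨p, hp0, hp, hsum⟩ := hS
  rcases le_or_gt p 1 with hp1 | hp1
  · refine case1 hs ?_ h1 μ E hE hEf C
    have h3 : ∀ᶠ j in atTop, s j ^ p < 1 :=
      hsum.tendsto_atTop_zero.eventually (gt_mem_nhds one_pos)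
    refine Summable.of_norm_bounded_eventually_nat hsum ?_
    filter_upwards [h3] with j hj
    have h4 : s j < 1 := by
      by_contra hcon
      push Not at hcon
      exact absurd hj (not_lt.2 (Real.one_le_rpow hcon hp0.le))
    rw [Real.norm_of_nonneg (hs j)]
    rcases (hs j).eq_or_lt with h0 | h0
    · rw [← h0, Real.zero_rpow hp0.ne']
    · calc s j = s j ^ (1:ℝ) := (Real.rpow_one _).symm
        _ ≤ s j ^ p := Real.rpow_le_rpow_of_exponent_ge h0 h4.le hp1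
  · refine case2 hs hp1 ?_ h2 hsum μ E hE hEf C
    rcases hp with h | h
    · exact h
    · linarith

/-! ### the main theorem -/

/-- `A` is the orthogonal sum of `N` and `R` -/
structure Sm (N : H₁ →L[ℂ] H₁) (R : H₂ →L[ℂ] H₂) (A : H →L[ℂ] H) (j₁ : H₁ →ₗᵢ[ℂ] H)
    (j₂ : H₂ →ₗᵢ[ℂ] H) : Prop where
  orth : ∀ x y, ⟪j₁ x, j₂ y⟫_ℂ = 0
  sum : ∀ z, ∃ x y, j₁ x + j₂ y = z
  op1 : ∀ x, A (j₁ x) = j₁ (N x)
  op2 : ∀ y, A (j₂ y) = j₂ (R y)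

section

variable {S : Type} [MeasurableSpace S] {μ : Measure S} {φ : S → ℂ}
  {N : H₁ →L[ℂ] H₁} {R : H₂ →L[ℂ] H₂} {A K : H →L[ℂ] H} {j₁ : H₁ →ₗᵢ[ℂ] H} {j₂ : H₂ →ₗᵢ[ℂ] H}
  {J : Lp ℂ 2 μ ≃ₗᵢ[ℂ] H₁}

/-- the transported decomposition -/
lemma Sm.ds (D : Sm N R A j₁ j₂) {M : Lp ℂ 2 μ →L[ℂ] Lp ℂ 2 μ}
    (hM : ∀ g : Lp ℂ 2 μ, M g =ᵐ[μ] fun s => φ s * g s) (hJ : ∀ g, N (J g) = J (M g)) :
    Ds μ φ A M R (j₁.toContinuousLinearMap.comp (J : Lp ℂ 2 μ →L[ℂ] H₁))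
      j₂.toContinuousLinearMap := by
  have k1 : ∀ x, adjoint (j₁.toContinuousLinearMap.comp (J : Lp ℂ 2 μ →L[ℂ] H₁)) (j₁ x) =
      J.symm x := by
    intro x
    refine ext_inner_right ℂ fun g => ?_
    rw [ContinuousLinearMap.adjoint_inner_left]
    show ⟪j₁ x, j₁ (J g)⟫_ℂ = _
    rw [j₁.inner_map_map, ← J.inner_map_map, J.apply_symm_apply]
  have k2 : ∀ y, adjoint (j₁.toContinuousLinearMap.comp (J : Lp ℂ 2 μ →L[ℂ] H₁)) (j₂ y) = 0 := by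
    intro y
    refine ext_inner_right ℂ fun g => ?_
    rw [ContinuousLinearMap.adjoint_inner_left, inner_zero_left]
    show ⟪j₂ y, j₁ (J g)⟫_ℂ = _
    rw [← inner_conj_symm, D.orth, map_zero]
  have k3 : ∀ x, adjoint j₂.toContinuousLinearMap (j₁ x) = 0 := by
    intro x
    refine ext_inner_right ℂ fun g => ?_
    rw [ContinuousLinearMap.adjoint_inner_left, inner_zero_left]
    exact D.orth _ _
  have k4 : ∀ y, adjoint j₂.toContinuousLinearMap (j₂ y) = y := by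
    intro y
    refine ext_inner_right ℂ fun g => ?_
    rw [ContinuousLinearMap.adjoint_inner_left]
    exact j₂.inner_map_map _ _
  have k5 : ∀ x y, adjoint (j₁.toContinuousLinearMap.comp (J : Lp ℂ 2 μ →L[ℂ] H₁))
      (j₁ x + j₂ y) = J.symm x := fun x y => by
    rw [map_add, k1, k2, add_zero]
  have k6 : ∀ x y, adjoint j₂.toContinuousLinearMap (j₁ x + j₂ y) = y := fun x y => by
    rw [map_add, k3, k4, zero_add]
  refine ⟨hM, fun g => ?_, k4, k2, fun g => k3 _, fun z => ?_, fun z => ?_⟩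
  · exact (k1 (J g)).trans (J.symm_apply_apply g)
  · obtain ⟨x, y, rfl⟩ := D.sum z
    rw [k5, k6]
    show j₁ (J (J.symm x)) + j₂ y = _
    rw [J.apply_symm_apply]
  · obtain ⟨x, y, rfl⟩ := D.sum z
    rw [k5, k6, map_add, D.op1, D.op2]
    show _ = j₁ (J (M (J.symm x))) + j₂ (R y)
    rw [← hJ, J.apply_symm_apply]

/-- both chains -/
theorem both [SigmaFinite μ] (hφ : Measurable φ) (hb : ∃ b : ℝ, ∀ s, ‖φ s‖ ≤ b)
    {M : Lp ℂ 2 μ →L[ℂ] Lp ℂ 2 μ} {i₁ : Lp ℂ 2 μ →L[ℂ] H} {i₂ : H₂ →L[ℂ] H}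
    (D : Ds μ φ A M R i₁ i₂) {F : Lp ℂ 2 μ} {τ : ℝ} {C : ℝ≥0}
    (hpot : ∀ w, ∫⁻ s, ‖φ s - w‖ₑ ^ (-τ) * ‖F s‖ₑ ^ 2 ∂μ ≤ C) (h1 : 1 ≤ τ) (h2 : τ < 2)
    {s : ℕ → ℝ} {u v : ℕ → H} (hs : ∀ j, 0 ≤ s j) (hu : Orthonormal ℂ u) (hv : Orthonormal ℂ v)
    (hK : ∀ y, HasSum (fun j => ((s j : ℂ) * ⟪v j, y⟫_ℂ) • u j) (K y)) (hS : Sn τ s) (n : ℕ)
    (c : ℂ) (r : ℝ) (hr : 0 < r) (hc : μ (Ep R φ F n ∩ φ ⁻¹' ball c r) ≠ 0) :
    (∃ (X : ℕ → H) (C : ℝ), X 0 ≠ 0 ∧ (∀ j, ‖X j‖ ≤ C * r ^ j) ∧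
      ∀ j, (A + K) (X j) - c • X j = X (j + 1)) ∧
    (∃ (X : ℕ → H) (C : ℝ), X 0 ≠ 0 ∧ (∀ j, ‖X j‖ ≤ C * r ^ j) ∧
      ∀ j, adjoint (A + K) (X j) - conj c • X j = X (j + 1)) := by
  set E := Ep R φ F n with hE
  have hEm : MeasurableSet E := Ep_meas R hφ F n
  have hEf : μ E ≠ ⊤ := Ep_fin R hφ F n
  have hp : ∀ w, ∫⁻ z in E, ‖φ z - w‖ₑ ^ (-τ) ∂μ ≤ (((n : ℝ≥0) + 1) ^ 2 * C : ℝ≥0) :=
    fun w => Ep_int R hφ F n (hpot w)
  obtain ⟨A', B', n', f, h, a, σ, σ', κ, hW, hKn⟩ :=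
    ex_kn hs h1 h2 hS μ E hEm hEf (((n : ℝ≥0) + 1) ^ 2 * C)
  obtain ⟨Q, hQ1, hQ2⟩ := rs_of (R := R) (m := (n : ℝ≥0)) hφ hEm (fun z hz => hz.2.1)
    (fun z hz => by simpa using hz.2.2)
  constructor
  · exact D.half (hKn φ hφ hb fun w => hp (φ w)) hW hu hv hK hQ1 c r hr hc
  · have hφ' : Measurable fun s => conj (φ s) := Complex.continuous_conj.measurable.comp hφ
    have hb' : ∃ b : ℝ, ∀ s, ‖conj (φ s)‖ ≤ b := by
      obtain ⟨b, hb⟩ := hb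
      exact ⟨b, fun s => by rw [Complex.norm_conj]; exact hb s⟩
    have hp' : ∀ w, ∫⁻ z in E, ‖conj (φ z) - conj (φ w)‖ₑ ^ (-τ) ∂μ ≤
        (((n : ℝ≥0) + 1) ^ 2 * C : ℝ≥0) := by
      intro w
      refine le_trans (le_of_eq ?_) (hp (φ w))
      refine lintegral_congr fun z => ?_
      rw [← map_sub, ← ofReal_norm, Complex.norm_conj, ofReal_norm]
    have h3 := (D.adj hφ hb).half (hKn _ hφ' hb' hp') hW hv hu (adj_sum hu hv hK) hQ2 (conj c) r hr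
      (by
        have e : (fun s => conj (φ s)) ⁻¹' ball (conj c) r = φ ⁻¹' ball c r := by
          ext z
          simp only [mem_preimage, mem_ball, dist_eq_norm]
          rw [← map_sub, Complex.norm_conj]
        rw [e]
        exact hc)
    rw [map_add]
    exact h3

end

end Pool.Agent.N812.WO
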