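import Pool.Agent.N812.WO.Fin2

/-!
# Perturbations on a Hilbert space: the main theorem
-/

set_option autoImplicit false

namespace Pool.Agent.N812.WO

open MeasureTheory Set Metric Filter Topology
open Pool.Agent.N812.IS
open scoped InnerProductSpace ENNReal NNReal ComplexConjugate
open ContinuousLinearMap (adjoint)
open Pool.Agent.Y283.NK (HasHyp)

variable {H₁ H₂ H : Type} [NormedAddCommGroup H₁] [InnerProductSpace ℂ H₁] [CompleteSpace H₁]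
  [NormedAddCommGroup H₂] [InnerProductSpace ℂ H₂] [CompleteSpace H₂]
  [NormedAddCommGroup H] [InnerProductSpace ℂ H] [CompleteSpace H]

lemma unit_of {R : H₂ →L[ℂ] H₂} {w : ℂ} (h : w ∉ spectrum ℂ R) : IsUnit (wR R w) := by
  rw [spectrum.notMem_iff, Algebra.algebraMap_eq_smul_one] at h
  exact h

lemma mea_ne {S : Type} [MeasurableSpace S] {μ : Measure S} {φ : S → ℂ} {R : H₂ →L[ℂ] H₂}
    {F G : Lp ℂ 2 μ} {h : ℂ → ℂ} {P : Set S} (hP : ∀ s, s ∉ P → h (φ s) = 0)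
    (hR : ∀ z ∈ spectrum ℂ R, h z = 0) (hG : G =ᵐ[μ] fun s => h (φ s) * F s) (hG0 : G ≠ 0) :
    μ (P ∩ {s | F s ≠ 0 ∧ IsUnit (wR R (φ s))}) ≠ 0 := by
  intro hcon
  apply hG0
  rw [Lp.eq_zero_iff_ae_eq_zero]
  rw [measure_eq_zero_iff_ae_notMem] at hcon
  filter_upwards [hG, hcon] with s h1 h2
  rw [h1, Pi.zero_apply]
  by_contra hne
  apply h2
  refine ⟨?_, ?_, ?_⟩
  · by_contra h3
    exact hne (by rw [hP s h3, zero_mul])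
  · intro h3
    exact hne (by rw [h3, mul_zero])
  · by_contra h3
    apply hne
    have h4 : φ s ∈ spectrum ℂ R := by
      by_contra h5
      exact h3 (unit_of h5)
    rw [hR _ h4, zero_mul]

/-- a chain of vectors -/
def Chn (T : H →L[ℂ] H) (c : ℂ) (r : ℝ) : Prop :=
  ∃ (X : ℕ → H) (C : ℝ), X 0 ≠ 0 ∧ (∀ j, ‖X j‖ ≤ C * r ^ j) ∧ ∀ j, T (X j) - c • X j = X (j + 1)

lemma hyp_of {T : H →L[ℂ] H} {c₁ c₂ : ℂ} (hne : c₁ ≠ c₂)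
    (h1 : ∀ r : ℝ, 0 < r → Chn T c₁ r) (h2 : ∀ r : ℝ, 0 < r → Chn (adjoint T) (conj c₂) r) :
    HasHyp T := by
  have hd : 0 < ‖c₁ - c₂‖ := norm_pos_iff.2 (sub_ne_zero.2 hne)
  obtain ⟨X, C, hX0, hXb, hX⟩ := h1 (‖c₁ - c₂‖ / 3) (by positivity)
  obtain ⟨Y, C', hY0, hYb, hY⟩ := h2 (‖c₁ - c₂‖ / 3) (by positivity)
  exact Pool.Agent.Y529.NK.ANN.main H T c₁ c₂ _ _ C C' X Y (by positivity) (by positivity)
    (by linarith) hX hXb hY hYb hX0 hY0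

/-- **The main theorem** -/
theorem fin [TopologicalSpace.SeparableSpace H₁] {N : H₁ →L[ℂ] H₁} {R : H₂ →L[ℂ] H₂}
    {A K : H →L[ℂ] H} {j₁ : H₁ →ₗᵢ[ℂ] H} {j₂ : H₂ →ₗᵢ[ℂ] H} (hN : IsStarNormal N)
    (D : Sm N R A j₁ j₂) {x : H₁} {τ : ℝ} (hx : BP τ N x) (h1 : 1 ≤ τ) (h2 : τ < 2)
    {s : ℕ → ℝ} {u v : ℕ → H} (hs : ∀ j, 0 ≤ s j) (hu : Orthonormal ℂ u) (hv : Orthonormal ℂ v)
    (hK : ∀ y, HasSum (fun j => ((s j : ℂ) * ⟪v j, y⟫_ℂ) • u j) (K y)) (hS : Sn τ s) :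
    (∀ (c : ℂ) (r : ℝ) (h : ℂ → ℂ), 0 < r → Continuous h → (∀ z ∈ spectrum ℂ R, h z = 0) →
      (∀ z, z ∉ ball c r → h z = 0) → cfc h N x ≠ 0 →
      Chn (A + K) c r ∧ Chn (adjoint (A + K)) (conj c) r) ∧
    ((∃ h : ℂ → ℂ, Continuous h ∧ (∀ z ∈ spectrum ℂ R, h z = 0) ∧ cfc h N x ≠ 0) →
      HasHyp (A + K)) := by
  obtain ⟨S, _, μ, _, φ, J, hφ, hφN, hSc⟩ := spn N hN
  have hb : ∀ s, ‖φ s‖ ≤ ‖N‖ := fun s => by
    have h1 := spectrum.norm_le_norm_mul_of_mem (hφN s)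
    have h2 : ‖(1 : H₁ →L[ℂ] H₁)‖ ≤ 1 := ContinuousLinearMap.norm_id_le
    exact h1.trans (mul_le_of_le_one_right (norm_nonneg _) h2)
  -- the model
  set M : Lp ℂ 2 μ →L[ℂ] Lp ℂ 2 μ := (J.symm : H₁ →L[ℂ] Lp ℂ 2 μ).comp (N.comp
    (J : Lp ℂ 2 μ →L[ℂ] H₁)) with hMd
  have hJ : ∀ g, N (J g) = J (M g) := fun g => (J.apply_symm_apply _).symm
  have hM : ∀ g : Lp ℂ 2 μ, M g =ᵐ[μ] fun s => φ s * g s := by
    intro g
    have e1 := hSc id continuous_id g ((mul_memLp hφ hb g).toLp _) (MemLp.coeFn_toLp _)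
    rw [cfc_id ℂ N hN, hJ] at e1
    rw [J.injective e1]
    exact MemLp.coeFn_toLp _
  have DD := D.ds hM hJ
  -- the potential
  set F : Lp ℂ 2 μ := J.symm x with hF
  have hJF : J F = x := J.apply_symm_apply x
  obtain ⟨C, hC⟩ := hx
  have hpot : ∀ w, ∫⁻ s, ‖φ s - w‖ₑ ^ (-τ) * ‖F s‖ₑ ^ 2 ∂μ ≤ (C.toNNReal : ℝ≥0∞) := by
    intro w
    refine pot_le (N := N) (J := J) hSc hφ (by linarith) F fun ε hε => ?_
    rw [hJF]
    exact hC w ε hε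
  have hfn : ∀ h : ℂ → ℂ, Continuous h → cfc h N x ≠ 0 →
      ∃ G : Lp ℂ 2 μ, (G =ᵐ[μ] fun s => h (φ s) * F s) ∧ G ≠ 0 := by
    intro h hh hne
    obtain ⟨B, hB⟩ := (isCompact_closedBall (0:ℂ) ‖N‖).exists_bound_of_continuousOn
      hh.continuousOn
    have hB' : ∀ s, ‖h (φ s)‖ ≤ B := fun s => hB _ (mem_closedBall_zero_iff.2 (hb s))
    refine ⟨(mul_memLp (hh.measurable.comp hφ) hB' F).toLp _, MemLp.coeFn_toLp _, fun h0 => ?_⟩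
    apply hne
    have e1 := hSc h hh F _ (MemLp.coeFn_toLp (mul_memLp (hh.measurable.comp hφ) hB' F))
    rw [hJF] at e1
    rw [e1, h0, map_zero]
  have hbb : ∃ b : ℝ, ∀ s, ‖φ s‖ ≤ b := ⟨_, hb⟩
  refine ⟨fun c r h hr hh hR hcr hne => ?_, ?_⟩
  · obtain ⟨G, hG, hG0⟩ := hfn h hh hne
    have h3 := mea_ne (P := φ ⁻¹' ball c r) (fun s hs => hcr _ hs) hR hG hG0
    obtain ⟨n, hn⟩ := ex_Ep R F h3
    exact both hφ hbb DD hpot h1 h2 hs hu hv hK hS n c r hr hn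
  · rintro ⟨h, hh, hR, hne⟩
    obtain ⟨G, hG, hG0⟩ := hfn h hh hne
    have h3 := mea_ne (P := univ) (fun s hs => absurd (mem_univ s) hs) hR hG hG0
    obtain ⟨n, hn⟩ := ex_Ep R F h3
    rw [inter_univ] at hn
    obtain ⟨c₁, c₂, hne12, h4, h5⟩ := ex_two hφ (Ep_meas R hφ F n) hn (τ := τ) (by linarith)
      (C := ((n : ℝ≥0) + 1) ^ 2 * C.toNNReal) (fun w => Ep_int R hφ F n (hpot w))
    exact hyp_of hne12
      (fun r hr => (both hφ hbb DD hpot h1 h2 hs hu hv hK hS n c₁ r hr (h4 r hr)).1)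
      (fun r hr => (both hφ hbb DD hpot h1 h2 hs hu hv hK hS n c₂ r hr (h5 r hr)).2)

end Pool.Agent.N812.WO
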