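import Pool.Agent.N812.WO.Sy

/-!
# Perturbations of extensions of normal operators
-/

set_option autoImplicit false

namespace Pool.Agent.N812.WO

open MeasureTheory Set Metric Filter Topology
open Pool.Agent.N812.IS
open scoped InnerProductSpace ENNReal NNReal ComplexConjugate
open ContinuousLinearMap (adjoint)
open Pool.Agent.Y283.NK (HasHyp)

variable {H₁ H₂ H : Type} [NormedAddCommGroup H₁] [InnerProductSpace ℂ H₁] [CompleteSpace H₁]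
  [NormedAddCommGroup H₂] [InnerProductSpace ℂ H₂] [CompleteSpace H₂]
  [NormedAddCommGroup H] [InnerProductSpace ℂ H] [CompleteSpace H]

/-- `A` is the triangular operator with the entries `N`, `B`, `R` -/
structure Tm (N : H₁ →L[ℂ] H₁) (B : H₂ →L[ℂ] H₁) (R : H₂ →L[ℂ] H₂) (A : H →L[ℂ] H)
    (j₁ : H₁ →ₗᵢ[ℂ] H) (j₂ : H₂ →ₗᵢ[ℂ] H) : Prop where
  orth : ∀ x y, ⟪j₁ x, j₂ y⟫_ℂ = 0
  sum : ∀ z, ∃ x y, j₁ x + j₂ y = z
  op1 : ∀ x, A (j₁ x) = j₁ (N x)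
  op2 : ∀ y, A (j₂ y) = j₁ (B y) + j₂ (R y)

section

variable {S : Type} [MeasurableSpace S] {μ : Measure S} {φ : S → ℂ}
  {N : H₁ →L[ℂ] H₁} {B : H₂ →L[ℂ] H₁} {R : H₂ →L[ℂ] H₂} {A K : H →L[ℂ] H}
  {j₁ : H₁ →ₗᵢ[ℂ] H} {j₂ : H₂ →ₗᵢ[ℂ] H} {J : Lp ℂ 2 μ ≃ₗᵢ[ℂ] H₁}

/-- the transported decomposition -/
lemma Tm.tr (D : Tm N B R A j₁ j₂) {M : Lp ℂ 2 μ →L[ℂ] Lp ℂ 2 μ}
    (hM : ∀ g : Lp ℂ 2 μ, M g =ᵐ[μ] fun s => φ s * g s) (hJ : ∀ g, N (J g) = J (M g)) :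
    Tr μ φ A M ((J.symm : H₁ →L[ℂ] Lp ℂ 2 μ).comp B) R
      (j₁.toContinuousLinearMap.comp (J : Lp ℂ 2 μ →L[ℂ] H₁)) j₂.toContinuousLinearMap
      (adjoint (j₁.toContinuousLinearMap.comp (J : Lp ℂ 2 μ →L[ℂ] H₁)))
      (adjoint j₂.toContinuousLinearMap) := by
  have k1 : ∀ x, adjoint (j₁.toContinuousLinearMap.comp (J : Lp ℂ 2 μ →L[ℂ] H₁)) (j₁ x) =
      J.symm x := by
    intro x
    refine ext_inner_right ℂ fun g => ?_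
    rw [ContinuousLinearMap.adjoint_inner_left]
    show ⟪j₁ x, j₁ (J g)⟫_ℂ = _
    rw [j₁.inner_map_map, ← J.inner_map_map, J.apply_symm_apply]
  have k2 : ∀ y, adjoint (j₁.toContinuousLinearMap.comp (J : Lp ℂ 2 μ →L[ℂ] H₁)) (j₂ y) = 0 := by
    intro y
    refine ext_inner_right ℂ fun g => ?_
    rw [ContinuousLinearMap.adjoint_inner_left, inner_zero_left]
    show ⟪j₂ y, j₁ (J g)⟫_ℂ = _
    rw [← inner_conj_symm, D.orth, map_zero]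
  have k3 : ∀ x, adjoint j₂.toContinuousLinearMap (j₁ x) = 0 := by
    intro x
    refine ext_inner_right ℂ fun g => ?_
    rw [ContinuousLinearMap.adjoint_inner_left, inner_zero_left]
    exact D.orth _ _
  have k4 : ∀ y, adjoint j₂.toContinuousLinearMap (j₂ y) = y := by
    intro y
    refine ext_inner_right ℂ fun g => ?_
    rw [ContinuousLinearMap.adjoint_inner_left]
    exact j₂.inner_map_map _ _
  refine ⟨hM, fun g => ?_, k4, k2, fun g => k3 _, fun z => ?_, fun g => ?_, fun y => ?_⟩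
  · exact (k1 (J g)).trans (J.symm_apply_apply g)
  · obtain ⟨x, y, rfl⟩ := D.sum z
    rw [map_add (adjoint (j₁.toContinuousLinearMap.comp (J : Lp ℂ 2 μ →L[ℂ] H₁))),
      map_add (adjoint j₂.toContinuousLinearMap), k1, k2, k3, k4, add_zero, zero_add]
    show j₁ (J (J.symm x)) + j₂ y = _
    rw [J.apply_symm_apply]
  · show A (j₁ (J g)) = j₁ (J (M g))
    rw [D.op1, hJ]
  · show A (j₂ y) = j₁ (J (J.symm (B y))) + j₂ (R y)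
    rw [D.op2, J.apply_symm_apply]

/-- there are points of the essential range in an open set -/
lemma ex_ptO {E : Set S} {O : Set ℂ} (hφ : Measurable φ) (hO : IsOpen O)
    (hE0 : μ (E ∩ φ ⁻¹' O) ≠ 0) :
    ∃ c ∈ O, ∀ r : ℝ, 0 < r → μ (E ∩ φ ⁻¹' ball c r) ≠ 0 := by
  by_contra hcon
  push Not at hcon
  apply hE0
  have h1 : ((μ.restrict E).map φ) O = 0 := by
    refine measure_null_of_locally_null _ fun c hc => ?_
    obtain ⟨r, hr, h2⟩ := hcon c hc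
    refine ⟨ball c r, mem_nhdsWithin_of_mem_nhds (ball_mem_nhds c hr), ?_⟩
    rw [Measure.map_apply hφ measurableSet_ball, Measure.restrict_apply (hφ measurableSet_ball),
      inter_comm]
    exact h2
  rwa [Measure.map_apply hφ hO.measurableSet, Measure.restrict_apply (hφ hO.measurableSet),
    inter_comm] at h1

/-- the chains near a point off the spectrum of `R` -/
lemma Tr.loc [SigmaFinite μ] {M : Lp ℂ 2 μ →L[ℂ] Lp ℂ 2 μ} {B' : H₂ →L[ℂ] Lp ℂ 2 μ}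
    {i₁ : Lp ℂ 2 μ →L[ℂ] H} {i₂ : H₂ →L[ℂ] H} {q₁ : H →L[ℂ] Lp ℂ 2 μ} {q₂ : H →L[ℂ] H₂}
    (T : Tr μ φ A M B' R i₁ i₂ q₁ q₂) (hφ : Measurable φ) {b : ℝ≥0} (hb : ∀ s, ‖φ s‖ ≤ b)
    {F : Lp ℂ 2 μ} {τ : ℝ} {C : ℝ≥0}
    (hpot : ∀ w, ∫⁻ s, ‖φ s - w‖ₑ ^ (-τ) * ‖F s‖ₑ ^ 2 ∂μ ≤ C) (h1 : 1 ≤ τ) (h2 : τ < 2)
    {s : ℕ → ℝ} {u v : ℕ → H} (hs : ∀ j, 0 ≤ s j) (hu : Orthonormal ℂ u) (hv : Orthonormal ℂ v)
    (hK : ∀ y, HasSum (fun j => ((s j : ℂ) * ⟪v j, y⟫_ℂ) • u j) (K y)) (hS : Sn τ s)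
    {l : ℂ} (hl : l ∉ spectrum ℂ R)
    (hlF : ∀ δ : ℝ, 0 < δ → μ ({s | F s ≠ 0} ∩ φ ⁻¹' ball l δ) ≠ 0)
    {c : ℂ} {r : ℝ} (hr : 0 < r) (hlc : l ∈ ball c r) :
    Chn (A + K) c r ∧ Chn (adjoint (A + K)) (conj c) r := by
  obtain ⟨ρ, R', i₁', p₁, i₂', p₂, hρ, DD, hU⟩ := T.dg hφ ⟨b, hb⟩ hl
  obtain ⟨δ, hδ, hδs⟩ : ∃ δ : ℝ, 0 < δ ∧ ball l δ ⊆ ball l ρ ∩ ball c r ∩ (spectrum ℂ R)ᶜ := by
    have hO : IsOpen (ball l ρ ∩ ball c r ∩ (spectrum ℂ R)ᶜ) :=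
      (isOpen_ball.inter isOpen_ball).inter (spectrum.isClosed R).isOpen_compl
    exact Metric.isOpen_iff.1 hO l ⟨⟨mem_ball_self hρ, hlc⟩, hl⟩
  have h3 : μ (φ ⁻¹' ball l δ ∩ {s | F s ≠ 0 ∧ IsUnit (wR R' (φ s))}) ≠ 0 := by
    intro hcon
    refine hlF δ hδ (measure_mono_null ?_ hcon)
    rintro s ⟨h4, h5⟩
    have h6 := hδs h5
    exact ⟨h5, h4, hU _ h6.1.1 h6.2⟩
  obtain ⟨n, hn⟩ := ex_Ep R' F h3
  refine DD.both hφ ⟨b, hb⟩ (hφ measurableSet_ball) hpot h1 h2 hs hu hv hK hS n c r hr ?_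
  intro hcon
  refine hn (measure_mono_null ?_ hcon)
  rintro s ⟨h4, h5⟩
  have h6 := hδs h5
  exact ⟨⟨h4, h6.1.1⟩, h6.1.2⟩

end

/-- **The main theorem, general form** -/
theorem fin2 [TopologicalSpace.SeparableSpace H₁] {N : H₁ →L[ℂ] H₁} {B : H₂ →L[ℂ] H₁}
    {R : H₂ →L[ℂ] H₂}
    {A K : H →L[ℂ] H} {j₁ : H₁ →ₗᵢ[ℂ] H} {j₂ : H₂ →ₗᵢ[ℂ] H} (hN : IsStarNormal N)
    (D : Tm N B R A j₁ j₂) {x : H₁} {τ : ℝ} (hx : BP τ N x) (h1 : 1 ≤ τ) (h2 : τ < 2)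
    {s : ℕ → ℝ} {u v : ℕ → H} (hs : ∀ j, 0 ≤ s j) (hu : Orthonormal ℂ u) (hv : Orthonormal ℂ v)
    (hK : ∀ y, HasSum (fun j => ((s j : ℂ) * ⟪v j, y⟫_ℂ) • u j) (K y)) (hS : Sn τ s) :
    (∀ (c : ℂ) (r : ℝ) (h : ℂ → ℂ), 0 < r → Continuous h → (∀ z ∈ spectrum ℂ R, h z = 0) →
      (∀ z, z ∉ ball c r → h z = 0) → cfc h N x ≠ 0 →
      Chn (A + K) c r ∧ Chn (adjoint (A + K)) (conj c) r) ∧
    ((∃ h : ℂ → ℂ, Continuous h ∧ (∀ z ∈ spectrum ℂ R, h z = 0) ∧ cfc h N x ≠ 0) →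
      HasHyp (A + K)) := by
  obtain ⟨S, _, μ, _, φ, J, hφ, hφN, hSc⟩ := spn N hN
  have hb : ∀ s, ‖φ s‖ ≤ ‖N‖₊ := fun s => by
    have h1 := spectrum.norm_le_norm_mul_of_mem (hφN s)
    have h2 : ‖(1 : H₁ →L[ℂ] H₁)‖ ≤ 1 := ContinuousLinearMap.norm_id_le
    exact h1.trans (mul_le_of_le_one_right (norm_nonneg _) h2)
  -- the model
  set M : Lp ℂ 2 μ →L[ℂ] Lp ℂ 2 μ := (J.symm : H₁ →L[ℂ] Lp ℂ 2 μ).comp (N.comp
    (J : Lp ℂ 2 μ →L[ℂ] H₁)) with hMd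
  have hJ : ∀ g, N (J g) = J (M g) := fun g => (J.apply_symm_apply _).symm
  have hM : ∀ g : Lp ℂ 2 μ, M g =ᵐ[μ] fun s => φ s * g s := by
    intro g
    have e1 := hSc id continuous_id g ((mul_memLp hφ hb g).toLp _) (MemLp.coeFn_toLp _)
    rw [cfc_id ℂ N hN, hJ] at e1
    rw [J.injective e1]
    exact MemLp.coeFn_toLp _
  have DD := D.tr hM hJ
  -- the potential
  set F : Lp ℂ 2 μ := J.symm x with hF
  have hJF : J F = x := J.apply_symm_apply x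
  obtain ⟨C, hC⟩ := hx
  have hpot : ∀ w, ∫⁻ s, ‖φ s - w‖ₑ ^ (-τ) * ‖F s‖ₑ ^ 2 ∂μ ≤ (C.toNNReal : ℝ≥0∞) := by
    intro w
    refine pot_le (N := N) (J := J) hSc hφ (by linarith) F fun ε hε => ?_
    rw [hJF]
    exact hC w ε hε
  have hfn : ∀ h : ℂ → ℂ, Continuous h → cfc h N x ≠ 0 →
      ∃ G : Lp ℂ 2 μ, (G =ᵐ[μ] fun s => h (φ s) * F s) ∧ G ≠ 0 := by
    intro h hh hne
    obtain ⟨B, hB⟩ := (isCompact_closedBall (0:ℂ) ‖N‖).exists_bound_of_continuousOn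
      hh.continuousOn
    have hB' : ∀ s, ‖h (φ s)‖ ≤ B := fun s => hB _ (mem_closedBall_zero_iff.2 (hb s))
    refine ⟨(mul_memLp (hh.measurable.comp hφ) hB' F).toLp _, MemLp.coeFn_toLp _, fun h0 => ?_⟩
    apply hne
    have e1 := hSc h hh F _ (MemLp.coeFn_toLp (mul_memLp (hh.measurable.comp hφ) hB' F))
    rw [hJF] at e1
    rw [e1, h0, map_zero]
  have hset : ∀ (h : ℂ → ℂ) (O : Set ℂ), Continuous h → cfc h N x ≠ 0 →
      (∀ z, z ∉ O → h z = 0) → μ ({s | F s ≠ 0} ∩ φ ⁻¹' O) ≠ 0 := by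
    intro h O hh hne hO hcon
    obtain ⟨G, hG, hG0⟩ := hfn h hh hne
    apply hG0
    rw [Lp.eq_zero_iff_ae_eq_zero]
    rw [measure_eq_zero_iff_ae_notMem] at hcon
    filter_upwards [hG, hcon] with s h1 h2
    rw [h1, Pi.zero_apply]
    by_contra hne'
    apply h2
    refine ⟨fun h3 => hne' (by rw [h3, mul_zero]), ?_⟩
    by_contra h3
    exact hne' (by rw [hO _ h3, zero_mul])
  refine ⟨fun c r h hr hh hR hcr hne => ?_, ?_⟩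
  · have h3 := hset h (ball c r ∩ (spectrum ℂ R)ᶜ) hh hne fun z hz => by
      by_cases hzc : z ∈ ball c r
      · refine hR z ?_
        by_contra hzR
        exact hz ⟨hzc, hzR⟩
      · exact hcr z hzc
    obtain ⟨l, hlO, hl⟩ := ex_ptO hφ (isOpen_ball.inter (spectrum.isClosed R).isOpen_compl) h3
    exact DD.loc hφ hb hpot h1 h2 hs hu hv hK hS hlO.2 hl hr hlO.1
  · rintro ⟨h, hh, hR, hne⟩
    have h3 := hset h (spectrum ℂ R)ᶜ hh hne fun z hz => hR z (not_not.1 hz)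
    obtain ⟨c₁, hc₁, h4⟩ := ex_ptO hφ (spectrum.isClosed R).isOpen_compl h3
    have h5 : μ ({s | F s ≠ 0} ∩ φ ⁻¹' {c₁}) = 0 := by
      have h6 : ∀ᵐ s ∂μ, ‖φ s - c₁‖ₑ ^ (-τ) * ‖F s‖ₑ ^ 2 < ⊤ := by
        refine ae_lt_top' ?_ (ne_top_of_le_ne_top ENNReal.coe_ne_top (hpot c₁))
        refine AEMeasurable.mul ?_ ((Lp.aestronglyMeasurable F).enorm.pow_const 2)
        refine Measurable.aemeasurable ?_
        fun_prop
      rw [measure_eq_zero_iff_ae_notMem]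
      filter_upwards [h6] with s h7 h8
      have h9 : φ s = c₁ := h8.2
      have h10 : ‖F s‖ₑ ^ 2 ≠ 0 := pow_ne_zero 2 (by simpa using h8.1)
      rw [h9, sub_self, enorm_zero, ENNReal.zero_rpow_of_neg (by linarith),
        ENNReal.top_mul h10] at h7
      exact lt_irrefl _ h7
    have h6 : μ ({s | F s ≠ 0} ∩ φ ⁻¹' ((spectrum ℂ R)ᶜ ∩ {c₁}ᶜ)) ≠ 0 := by
      intro hcon
      refine h3 (measure_mono_null ?_ (measure_union_null h5 hcon))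
      rintro s ⟨h7, h8⟩
      by_cases h9 : φ s = c₁
      · exact Or.inl ⟨h7, h9⟩
      · exact Or.inr ⟨h7, h8, h9⟩
    obtain ⟨c₂, hc₂, h7⟩ := ex_ptO hφ
      ((spectrum.isClosed R).isOpen_compl.inter isOpen_compl_singleton) h6
    exact hyp_of (fun h8 => hc₂.2 h8.symm)
      (fun r hr => (DD.loc hφ hb hpot h1 h2 hs hu hv hK hS hc₁ h4 hr (mem_ball_self hr)).1)
      (fun r hr => (DD.loc hφ hb hpot h1 h2 hs hu hv hK hS hc₂.1 h7 hr (mem_ball_self hr)).2)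

end Pool.Agent.N812.WO
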