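import Pool.Agent.N812.WO.Sy3

/-!
# Perturbations of operators with a normal block
-/

set_option autoImplicit false

namespace Pool.Agent.N812.WO

open MeasureTheory Set Metric Filter Topology
open Pool.Agent.N812.IS
open scoped InnerProductSpace ENNReal NNReal ComplexConjugate
open ContinuousLinearMap (adjoint)
open Pool.Agent.Y283.NK (HasHyp)

variable {H₀ H₁ H₂ H : Type} [NormedAddCommGroup H₀] [InnerProductSpace ℂ H₀] [CompleteSpace H₀]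
  [NormedAddCommGroup H₁] [InnerProductSpace ℂ H₁] [CompleteSpace H₁]
  [NormedAddCommGroup H₂] [InnerProductSpace ℂ H₂] [CompleteSpace H₂]
  [NormedAddCommGroup H] [InnerProductSpace ℂ H] [CompleteSpace H]

/-- `A` is upper triangular with the diagonal entries `R₀`, `N`, `R` -/
structure Tm3 (R₀ : H₀ →L[ℂ] H₀) (N : H₁ →L[ℂ] H₁) (R : H₂ →L[ℂ] H₂) (A : H →L[ℂ] H)
    (j₀ : H₀ →ₗᵢ[ℂ] H) (j₁ : H₁ →ₗᵢ[ℂ] H) (j₂ : H₂ →ₗᵢ[ℂ] H) : Prop where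
  o01 : ∀ x y, ⟪j₀ x, j₁ y⟫_ℂ = 0
  o02 : ∀ x y, ⟪j₀ x, j₂ y⟫_ℂ = 0
  o12 : ∀ x y, ⟪j₁ x, j₂ y⟫_ℂ = 0
  sum : ∀ z, ∃ x y w, j₀ x + j₁ y + j₂ w = z
  op0 : ∀ x, A (j₀ x) = j₀ (R₀ x)
  op1 : ∀ y, ∃ x, A (j₁ y) = j₀ x + j₁ (N y)
  op2 : ∀ w, ∃ x y, A (j₂ w) = j₀ x + j₁ y + j₂ (R w)

lemma ai (j : H₁ →ₗᵢ[ℂ] H) (x : H₁) : adjoint j.toContinuousLinearMap (j x) = x := by
  refine ext_inner_right ℂ fun g => ?_
  rw [ContinuousLinearMap.adjoint_inner_left]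
  exact j.inner_map_map _ _

lemma ao (j : H₁ →ₗᵢ[ℂ] H) (j' : H₂ →ₗᵢ[ℂ] H) (h : ∀ x y, ⟪j x, j' y⟫_ℂ = 0) (y : H₂) :
    adjoint j.toContinuousLinearMap (j' y) = 0 := by
  refine ext_inner_right ℂ fun g => ?_
  rw [ContinuousLinearMap.adjoint_inner_left, inner_zero_left]
  show ⟪j' y, j g⟫_ℂ = _
  rw [← inner_conj_symm, h, map_zero]

section

variable {S : Type} [MeasurableSpace S] {μ : Measure S} {φ : S → ℂ}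
  {R₀ : H₀ →L[ℂ] H₀} {N : H₁ →L[ℂ] H₁} {R : H₂ →L[ℂ] H₂} {A K : H →L[ℂ] H}
  {j₀ : H₀ →ₗᵢ[ℂ] H} {j₁ : H₁ →ₗᵢ[ℂ] H} {j₂ : H₂ →ₗᵢ[ℂ] H} {J : Lp ℂ 2 μ ≃ₗᵢ[ℂ] H₁}

/-- the transported decomposition -/
lemma Tm3.tr (D : Tm3 R₀ N R A j₀ j₁ j₂) {M : Lp ℂ 2 μ →L[ℂ] Lp ℂ 2 μ}
    (hM : ∀ g : Lp ℂ 2 μ, M g =ᵐ[μ] fun s => φ s * g s) (hJ : ∀ g, N (J g) = J (M g)) :
    ∃ (C : Lp ℂ 2 μ →L[ℂ] H₀) (B₀ : H₂ →L[ℂ] H₀) (B : H₂ →L[ℂ] Lp ℂ 2 μ),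
      Tr3 μ φ A R₀ C M B₀ B R j₀.toContinuousLinearMap
        (j₁.comp J.toLinearIsometry).toContinuousLinearMap j₂.toContinuousLinearMap
        (adjoint j₀.toContinuousLinearMap)
        (adjoint (j₁.comp J.toLinearIsometry).toContinuousLinearMap)
        (adjoint j₂.toContinuousLinearMap) := by
  obtain ⟨j, hj⟩ : ∃ j : Lp ℂ 2 μ →ₗᵢ[ℂ] H, j = j₁.comp J.toLinearIsometry := ⟨_, rfl⟩
  have hjx : ∀ g, j g = j₁ (J g) := fun g => by rw [hj]; rfl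
  have hjy : ∀ y, j (J.symm y) = j₁ y := fun y => by rw [hjx, J.apply_symm_apply]
  rw [← hj]
  have o01 : ∀ x y, ⟪j₀ x, j y⟫_ℂ = 0 := fun x y => by rw [hjx]; exact D.o01 _ _
  have o12 : ∀ x y, ⟪j x, j₂ y⟫_ℂ = 0 := fun x y => by rw [hjx]; exact D.o12 _ _
  have o10 : ∀ x y, ⟪j y, j₀ x⟫_ℂ = 0 := fun x y => by rw [← inner_conj_symm, o01, map_zero]
  have o20 : ∀ x y, ⟪j₂ y, j₀ x⟫_ℂ = 0 := fun x y => by rw [← inner_conj_symm, D.o02, map_zero]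
  have o21 : ∀ x y, ⟪j₂ y, j x⟫_ℂ = 0 := fun x y => by rw [← inner_conj_symm, o12, map_zero]
  have hq : ∀ x g y, adjoint j₀.toContinuousLinearMap (j₀ x + j g + j₂ y) = x ∧
      adjoint j.toContinuousLinearMap (j₀ x + j g + j₂ y) = g ∧
      adjoint j₂.toContinuousLinearMap (j₀ x + j g + j₂ y) = y := by
    intro x g y
    refine ⟨?_, ?_, ?_⟩
    · rw [map_add, map_add, ai, ao j₀ j o01, ao j₀ j₂ D.o02, add_zero, add_zero]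
    · rw [map_add, map_add, ai, ao j j₀ fun a b => o10 b a, ao j j₂ o12, add_zero, zero_add]
    · rw [map_add, map_add, ai, ao j₂ j₀ fun a b => o20 b a, ao j₂ j fun a b => o21 b a, zero_add,
        zero_add]
  refine ⟨(adjoint j₀.toContinuousLinearMap).comp (A.comp j.toContinuousLinearMap),
    (adjoint j₀.toContinuousLinearMap).comp (A.comp j₂.toContinuousLinearMap),
    (adjoint j.toContinuousLinearMap).comp (A.comp j₂.toContinuousLinearMap),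
    hM, ai j₀, ai j, ai j₂, ao j₀ j o01, ao j₀ j₂ D.o02, ao j j₀ fun a b => o10 b a,
    ao j j₂ o12, ao j₂ j₀ fun a b => o20 b a, ao j₂ j fun a b => o21 b a, fun z => ?_, D.op0,
    fun g => ?_, fun y => ?_⟩
  · obtain ⟨x, y, w, rfl⟩ := D.sum z
    rw [← hjy, (hq _ _ _).1, (hq _ _ _).2.1, (hq _ _ _).2.2]
    rfl
  · obtain ⟨x, hx⟩ := D.op1 (J g)
    have e1 : A (j g) = j₀ x + j (M g) + j₂ 0 := by
      rw [hjx, hx, hJ, hjx, map_zero, add_zero]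
    show A (j g) = j₀ (adjoint j₀.toContinuousLinearMap (A (j g))) + j (M g)
    rw [e1, (hq _ _ _).1, map_zero, add_zero]
  · obtain ⟨x, y', hx⟩ := D.op2 y
    have e1 : A (j₂ y) = j₀ x + j (J.symm y') + j₂ (R y) := by
      rw [hx, hjy]
    show A (j₂ y) = j₀ (adjoint j₀.toContinuousLinearMap (A (j₂ y))) +
      j (adjoint j.toContinuousLinearMap (A (j₂ y))) + j₂ (R y)
    rw [e1, (hq _ _ _).1, (hq _ _ _).2.1]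

/-- the chains near a point off the spectra of `R₀` and `R` -/
lemma Tr3.loc [SigmaFinite μ] {C' : Lp ℂ 2 μ →L[ℂ] H₀} {M : Lp ℂ 2 μ →L[ℂ] Lp ℂ 2 μ}
    {B₀ : H₂ →L[ℂ] H₀} {B' : H₂ →L[ℂ] Lp ℂ 2 μ}
    {i₀ : H₀ →L[ℂ] H} {i₁ : Lp ℂ 2 μ →L[ℂ] H} {i₂ : H₂ →L[ℂ] H} {q₀ : H →L[ℂ] H₀}
    {q₁ : H →L[ℂ] Lp ℂ 2 μ} {q₂ : H →L[ℂ] H₂}
    (T : Tr3 μ φ A R₀ C' M B₀ B' R i₀ i₁ i₂ q₀ q₁ q₂) (hφ : Measurable φ) {b : ℝ≥0}
    (hb : ∀ s, ‖φ s‖ ≤ b)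
    {F : Lp ℂ 2 μ} {τ : ℝ} {C : ℝ≥0}
    (hpot : ∀ w, ∫⁻ s, ‖φ s - w‖ₑ ^ (-τ) * ‖F s‖ₑ ^ 2 ∂μ ≤ C) (h1 : 1 ≤ τ) (h2 : τ < 2)
    {s : ℕ → ℝ} {u v : ℕ → H} (hs : ∀ j, 0 ≤ s j) (hu : Orthonormal ℂ u) (hv : Orthonormal ℂ v)
    (hK : ∀ y, HasSum (fun j => ((s j : ℂ) * ⟪v j, y⟫_ℂ) • u j) (K y)) (hS : Sn τ s)
    {l : ℂ} (hl : l ∈ (spectrum ℂ R₀ ∪ spectrum ℂ R)ᶜ)
    (hlF : ∀ δ : ℝ, 0 < δ → μ ({s | F s ≠ 0} ∩ φ ⁻¹' ball l δ) ≠ 0)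
    {c : ℂ} {r : ℝ} (hr : 0 < r) (hlc : l ∈ ball c r) :
    Chn (A + K) c r ∧ Chn (adjoint (A + K)) (conj c) r := by
  obtain ⟨ρ, R', i₁', p₁, i₂', p₂, hρ, DD, hU⟩ := T.dg hφ ⟨b, hb⟩ (fun h => hl (Or.inl h))
    (fun h => hl (Or.inr h))
  obtain ⟨δ, hδ, hδs⟩ : ∃ δ : ℝ, 0 < δ ∧
      ball l δ ⊆ ball l ρ ∩ ball c r ∩ (spectrum ℂ R₀ ∪ spectrum ℂ R)ᶜ := by
    have hO : IsOpen (ball l ρ ∩ ball c r ∩ (spectrum ℂ R₀ ∪ spectrum ℂ R)ᶜ) :=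
      (isOpen_ball.inter isOpen_ball).inter
        ((spectrum.isClosed R₀).union (spectrum.isClosed R)).isOpen_compl
    exact Metric.isOpen_iff.1 hO l ⟨⟨mem_ball_self hρ, hlc⟩, hl⟩
  have h3 : μ (φ ⁻¹' ball l δ ∩ {s | F s ≠ 0 ∧ IsUnit (wR R' (φ s))}) ≠ 0 := by
    intro hcon
    refine hlF δ hδ (measure_mono_null ?_ hcon)
    rintro s ⟨h4, h5⟩
    have h6 := hδs h5
    exact ⟨h5, h4, hU _ h6.1.1 (fun h => h6.2 (Or.inl h)) (fun h => h6.2 (Or.inr h))⟩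
  obtain ⟨n, hn⟩ := ex_Ep R' F h3
  refine DD.both hφ ⟨b, hb⟩ (hφ measurableSet_ball) hpot h1 h2 hs hu hv hK hS n c r hr ?_
  intro hcon
  refine hn (measure_mono_null ?_ hcon)
  rintro s ⟨h4, h5⟩
  have h6 := hδs h5
  exact ⟨⟨h4, h6.1.1⟩, h6.1.2⟩

end

/-- **The main theorem, general form** -/
theorem fin3 [TopologicalSpace.SeparableSpace H₁] {R₀ : H₀ →L[ℂ] H₀} {N : H₁ →L[ℂ] H₁}
    {R : H₂ →L[ℂ] H₂}
    {A K : H →L[ℂ] H} {j₀ : H₀ →ₗᵢ[ℂ] H} {j₁ : H₁ →ₗᵢ[ℂ] H} {j₂ : H₂ →ₗᵢ[ℂ] H}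
    (hN : IsStarNormal N)
    (D : Tm3 R₀ N R A j₀ j₁ j₂) {x : H₁} {τ : ℝ} (hx : BP τ N x) (h1 : 1 ≤ τ) (h2 : τ < 2)
    {s : ℕ → ℝ} {u v : ℕ → H} (hs : ∀ j, 0 ≤ s j) (hu : Orthonormal ℂ u) (hv : Orthonormal ℂ v)
    (hK : ∀ y, HasSum (fun j => ((s j : ℂ) * ⟪v j, y⟫_ℂ) • u j) (K y)) (hS : Sn τ s) :
    (∀ (c : ℂ) (r : ℝ) (h : ℂ → ℂ), 0 < r → Continuous h →
      (∀ z ∈ spectrum ℂ R₀ ∪ spectrum ℂ R, h z = 0) →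
      (∀ z, z ∉ ball c r → h z = 0) → cfc h N x ≠ 0 →
      Chn (A + K) c r ∧ Chn (adjoint (A + K)) (conj c) r) ∧
    ((∃ h : ℂ → ℂ, Continuous h ∧ (∀ z ∈ spectrum ℂ R₀ ∪ spectrum ℂ R, h z = 0) ∧
      cfc h N x ≠ 0) → HasHyp (A + K)) := by
  obtain ⟨S, _, μ, _, φ, J, hφ, hφN, hSc⟩ := spn N hN
  have hb : ∀ s, ‖φ s‖ ≤ ‖N‖₊ := fun s => by
    have h1 := spectrum.norm_le_norm_mul_of_mem (hφN s)
    have h2 : ‖(1 : H₁ →L[ℂ] H₁)‖ ≤ 1 := ContinuousLinearMap.norm_id_le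
    exact h1.trans (mul_le_of_le_one_right (norm_nonneg _) h2)
  set σR : Set ℂ := spectrum ℂ R₀ ∪ spectrum ℂ R with hσR
  have hσo : IsOpen σRᶜ := ((spectrum.isClosed R₀).union (spectrum.isClosed R)).isOpen_compl
  -- the model
  set M : Lp ℂ 2 μ →L[ℂ] Lp ℂ 2 μ := (J.symm : H₁ →L[ℂ] Lp ℂ 2 μ).comp (N.comp
    (J : Lp ℂ 2 μ →L[ℂ] H₁)) with hMd
  have hJ : ∀ g, N (J g) = J (M g) := fun g => (J.apply_symm_apply _).symm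
  have hM : ∀ g : Lp ℂ 2 μ, M g =ᵐ[μ] fun s => φ s * g s := by
    intro g
    have e1 := hSc id continuous_id g ((mul_memLp hφ hb g).toLp _) (MemLp.coeFn_toLp _)
    rw [cfc_id ℂ N hN, hJ] at e1
    rw [J.injective e1]
    exact MemLp.coeFn_toLp _
  obtain ⟨C', B₀, B', DD⟩ := D.tr hM hJ
  -- the potential
  set F : Lp ℂ 2 μ := J.symm x with hF
  have hJF : J F = x := J.apply_symm_apply x
  obtain ⟨C, hC⟩ := hx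
  have hpot : ∀ w, ∫⁻ s, ‖φ s - w‖ₑ ^ (-τ) * ‖F s‖ₑ ^ 2 ∂μ ≤ (C.toNNReal : ℝ≥0∞) := by
    intro w
    refine pot_le (N := N) (J := J) hSc hφ (by linarith) F fun ε hε => ?_
    rw [hJF]
    exact hC w ε hε
  have hfn : ∀ h : ℂ → ℂ, Continuous h → cfc h N x ≠ 0 →
      ∃ G : Lp ℂ 2 μ, (G =ᵐ[μ] fun s => h (φ s) * F s) ∧ G ≠ 0 := by
    intro h hh hne
    obtain ⟨B, hB⟩ := (isCompact_closedBall (0:ℂ) ‖N‖).exists_bound_of_continuousOn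
      hh.continuousOn
    have hB' : ∀ s, ‖h (φ s)‖ ≤ B := fun s => hB _ (mem_closedBall_zero_iff.2 (hb s))
    refine ⟨(mul_memLp (hh.measurable.comp hφ) hB' F).toLp _, MemLp.coeFn_toLp _, fun h0 => ?_⟩
    apply hne
    have e1 := hSc h hh F _ (MemLp.coeFn_toLp (mul_memLp (hh.measurable.comp hφ) hB' F))
    rw [hJF] at e1
    rw [e1, h0, map_zero]
  have hset : ∀ (h : ℂ → ℂ) (O : Set ℂ), Continuous h → cfc h N x ≠ 0 →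
      (∀ z, z ∉ O → h z = 0) → μ ({s | F s ≠ 0} ∩ φ ⁻¹' O) ≠ 0 := by
    intro h O hh hne hO hcon
    obtain ⟨G, hG, hG0⟩ := hfn h hh hne
    apply hG0
    rw [Lp.eq_zero_iff_ae_eq_zero]
    rw [measure_eq_zero_iff_ae_notMem] at hcon
    filter_upwards [hG, hcon] with s h1 h2
    rw [h1, Pi.zero_apply]
    by_contra hne'
    apply h2
    refine ⟨fun h3 => hne' (by rw [h3, mul_zero]), ?_⟩
    by_contra h3
    exact hne' (by rw [hO _ h3, zero_mul])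
  refine ⟨fun c r h hr hh hR hcr hne => ?_, ?_⟩
  · have h3 := hset h (ball c r ∩ σRᶜ) hh hne fun z hz => by
      by_cases hzc : z ∈ ball c r
      · refine hR z ?_
        by_contra hzR
        exact hz ⟨hzc, hzR⟩
      · exact hcr z hzc
    obtain ⟨l, hlO, hl⟩ := ex_ptO hφ (isOpen_ball.inter hσo) h3
    exact DD.loc hφ hb hpot h1 h2 hs hu hv hK hS hlO.2 hl hr hlO.1
  · rintro ⟨h, hh, hR, hne⟩
    have h3 := hset h σRᶜ hh hne fun z hz => hR z (not_not.1 hz)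
    obtain ⟨c₁, hc₁, h4⟩ := ex_ptO hφ hσo h3
    have h5 : μ ({s | F s ≠ 0} ∩ φ ⁻¹' {c₁}) = 0 := by
      have h6 : ∀ᵐ s ∂μ, ‖φ s - c₁‖ₑ ^ (-τ) * ‖F s‖ₑ ^ 2 < ⊤ := by
        refine ae_lt_top' ?_ (ne_top_of_le_ne_top ENNReal.coe_ne_top (hpot c₁))
        refine AEMeasurable.mul ?_ ((Lp.aestronglyMeasurable F).enorm.pow_const 2)
        refine Measurable.aemeasurable ?_
        fun_prop
      rw [measure_eq_zero_iff_ae_notMem]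
      filter_upwards [h6] with s h7 h8
      have h9 : φ s = c₁ := h8.2
      have h10 : ‖F s‖ₑ ^ 2 ≠ 0 := pow_ne_zero 2 (by simpa using h8.1)
      rw [h9, sub_self, enorm_zero, ENNReal.zero_rpow_of_neg (by linarith),
        ENNReal.top_mul h10] at h7
      exact lt_irrefl _ h7
    have h6 : μ ({s | F s ≠ 0} ∩ φ ⁻¹' (σRᶜ ∩ {c₁}ᶜ)) ≠ 0 := by
      intro hcon
      refine h3 (measure_mono_null ?_ (measure_union_null h5 hcon))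
      rintro s ⟨h7, h8⟩
      by_cases h9 : φ s = c₁
      · exact Or.inl ⟨h7, h9⟩
      · exact Or.inr ⟨h7, h8, h9⟩
    obtain ⟨c₂, hc₂, h7⟩ := ex_ptO hφ (hσo.inter isOpen_compl_singleton) h6
    exact hyp_of (fun h8 => hc₂.2 h8.symm)
      (fun r hr => (DD.loc hφ hb hpot h1 h2 hs hu hv hK hS hc₁ h4 hr (mem_ball_self hr)).1)
      (fun r hr => (DD.loc hφ hb hpot h1 h2 hs hu hv hK hS hc₂.1 h7 hr (mem_ball_self hr)).2)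

end Pool.Agent.N812.WO
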