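import Pool.Agent.N812.WO.Ker

/-!
# Perturbations on a Hilbert space: the factors
-/

set_option autoImplicit false

namespace Pool.Agent.N812.WO

open MeasureTheory Set Metric Filter Topology
open Pool.Agent.N812.IS
open scoped InnerProductSpace ENNReal NNReal ComplexConjugate

/-- multiplication by a bounded sequence -/
noncomputable def dg (σ : ℕ → ℝ) (b : ℝ≥0) (hb : ∀ j, ‖σ j‖ ≤ b) : l2 →L[ℂ] l2 :=
  have key : ∀ c : l2, Summable fun j => ‖(σ j : ℂ) * (c : ℕ → ℂ) j‖ ^ 2 := fun c => by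
    refine Summable.of_nonneg_of_le (fun j => by positivity) (fun j => ?_)
      ((summable_l2 c).mul_left ((b : ℝ) ^ 2))
    rw [norm_mul, Complex.norm_real, mul_pow]
    exact mul_le_mul_of_nonneg_right (pow_le_pow_left₀ (norm_nonneg _) (hb j) 2) (by positivity)
  have e1 : ∀ (c : l2) (j : ℕ), (vec (fun j => (σ j : ℂ) * (c : ℕ → ℂ) j) : ℕ → ℂ) j =
      (σ j : ℂ) * (c : ℕ → ℂ) j := fun c j => vec_apply (key c) j
  LinearMap.mkContinuous
    { toFun := fun c => vec fun j => (σ j : ℂ) * (c : ℕ → ℂ) j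
      map_add' := fun c c' => by
        refine lp.ext (funext fun j => ?_)
        refine (e1 (c + c') j).trans ?_
        rw [lp.coeFn_add, Pi.add_apply, mul_add]
        exact (congrArg₂ (· + ·) (e1 c j) (e1 c' j)).symm
      map_smul' := fun t c => by
        refine lp.ext (funext fun j => ?_)
        refine (e1 (t • c) j).trans ?_
        rw [lp.coeFn_smul, Pi.smul_apply, smul_eq_mul, mul_left_comm]
        exact (congrArg (fun w => t * w) (e1 c j)).symm } b fun c => by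
    show ‖vec fun j => (σ j : ℂ) * (c : ℕ → ℂ) j‖ ≤ b * ‖c‖
    refine le_of_sq_le_sq ?_ (by positivity)
    rw [norm_sq_l2, mul_pow, norm_sq_l2 c, ← tsum_mul_left]
    refine Summable.tsum_le_tsum (fun j => ?_) ?_ ((summable_l2 c).mul_left _)
    · rw [vec_apply (key _), norm_mul, Complex.norm_real, mul_pow]
      exact mul_le_mul_of_nonneg_right (pow_le_pow_left₀ (norm_nonneg _) (hb j) 2) (by positivity)
    · exact summable_l2 _

lemma dg_apply (σ : ℕ → ℝ) (b : ℝ≥0) (hb : ∀ j, ‖σ j‖ ≤ b) (c : l2) (j : ℕ) :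
    (dg σ b hb c : ℕ → ℂ) j = (σ j : ℂ) * (c : ℕ → ℂ) j := by
  have key : Summable fun j => ‖(σ j : ℂ) * (c : ℕ → ℂ) j‖ ^ 2 := by
    refine Summable.of_nonneg_of_le (fun j => by positivity) (fun j => ?_)
      ((summable_l2 c).mul_left ((b : ℝ) ^ 2))
    rw [norm_mul, Complex.norm_real, mul_pow]
    exact mul_le_mul_of_nonneg_right (pow_le_pow_left₀ (norm_nonneg _) (hb j) 2) (by positivity)
  exact vec_apply key j

variable {H : Type} [NormedAddCommGroup H] [InnerProductSpace ℂ H] [CompleteSpace H]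

/-- the isometry of an orthonormal sequence -/
noncomputable def oi {u : ℕ → H} (hu : Orthonormal ℂ u) : l2 →L[ℂ] H :=
  (hu.orthogonalFamily.linearIsometry).toContinuousLinearMap

lemma oi_sum {u : ℕ → H} (hu : Orthonormal ℂ u) (c : l2) :
    HasSum (fun j => (c : ℕ → ℂ) j • u j) (oi hu c) :=
  hu.orthogonalFamily.hasSum_linearIsometry c

/-- the factor `c ↦ ∑ σ j c j u j` -/
noncomputable def Uo {u : ℕ → H} (hu : Orthonormal ℂ u) (σ : ℕ → ℝ) (b : ℝ≥0)
    (hb : ∀ j, ‖σ j‖ ≤ b) : l2 →L[ℂ] H := (oi hu).comp (dg σ b hb)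

lemma Uo_sum {u : ℕ → H} (hu : Orthonormal ℂ u) (σ : ℕ → ℝ) (b : ℝ≥0)
    (hb : ∀ j, ‖σ j‖ ≤ b) (c : l2) :
    HasSum (fun j => ((σ j : ℂ) * (c : ℕ → ℂ) j) • u j) (Uo hu σ b hb c) := by
  have h := oi_sum hu (dg σ b hb c)
  simp_rw [dg_apply] at h
  exact h

lemma Uo_ee {u : ℕ → H} (hu : Orthonormal ℂ u) (σ : ℕ → ℝ) (b : ℝ≥0)
    (hb : ∀ j, ‖σ j‖ ≤ b) (i : ℕ) : Uo hu σ b hb (ee i) = (σ i : ℂ) • u i := by
  have h := Uo_sum hu σ b hb (ee i)
  refine h.unique ?_
  have h2 : (fun j => ((σ j : ℂ) * (ee i : ℕ → ℂ) j) • u j) =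
      fun j => if j = i then (σ i : ℂ) • u i else 0 := by
    funext j
    rw [ee_apply]
    split_ifs with hj
    · rw [hj, mul_one]
    · rw [mul_zero, zero_smul]
  rw [h2]
  exact hasSum_ite_eq i _

/-- the factor `x ↦ (σ j ⟪v j, x⟫)` -/
noncomputable def Wo {v : ℕ → H} (hv : Orthonormal ℂ v) (σ : ℕ → ℝ) (b : ℝ≥0)
    (hb : ∀ j, ‖σ j‖ ≤ b) : H →L[ℂ] l2 := ContinuousLinearMap.adjoint (Uo hv σ b hb)

lemma Wo_apply {v : ℕ → H} (hv : Orthonormal ℂ v) (σ : ℕ → ℝ) (b : ℝ≥0)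
    (hb : ∀ j, ‖σ j‖ ≤ b) (x : H) (j : ℕ) :
    (Wo hv σ b hb x : ℕ → ℂ) j = (σ j : ℂ) * ⟪v j, x⟫_ℂ := by
  rw [← inner_ee, Wo, ContinuousLinearMap.adjoint_inner_right, Uo_ee, inner_smul_left,
    Complex.conj_ofReal]

/-- the product of the factors -/
lemma UW {u v : ℕ → H} (hu : Orthonormal ℂ u) (hv : Orthonormal ℂ v) {σ σ' s : ℕ → ℝ}
    {b b' : ℝ≥0} (hb : ∀ j, ‖σ j‖ ≤ b) (hb' : ∀ j, ‖σ' j‖ ≤ b') (hs : ∀ j, σ j * σ' j = s j)
    {K : H →L[ℂ] H} (hK : ∀ x, HasSum (fun j => ((s j : ℂ) * ⟪v j, x⟫_ℂ) • u j) (K x)) (x : H) :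
    Uo hu σ b hb (Wo hv σ' b' hb' x) = K x := by
  refine (Uo_sum hu σ b hb _).unique ((hK x).congr_fun fun j => ?_)
  rw [Wo_apply, ← hs j]
  push_cast
  congr 1
  ring

/-- the factor `W` is compact if the weights are square summable -/
lemma Wo_compact {v : ℕ → H} (hv : Orthonormal ℂ v) {σ : ℕ → ℝ} {b : ℝ≥0}
    (hb : ∀ j, ‖σ j‖ ≤ b) (hσ : Summable fun j => σ j ^ 2) :
    IsCompactOperator (Wo hv σ b hb) := by
  -- finite sections
  set F : ℕ → (H →L[ℂ] l2) := fun n => ∑ j ∈ Finset.range n,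
    (innerSL ℂ (v j)).smulRight ((σ j : ℂ) • ee j) with hF
  have hFc : ∀ n x i, (F n x : ℕ → ℂ) i = if i < n then (σ i : ℂ) * ⟪v i, x⟫_ℂ else 0 := by
    intro n x i
    simp only [hF]
    rw [_root_.sum_apply, lp.coeFn_sum, Finset.sum_apply]
    have h1 : ∀ j ∈ Finset.range n, (((innerSL ℂ (v j)).smulRight ((σ j : ℂ) • ee j)) x : ℕ → ℂ) i =
        if i = j then (σ i : ℂ) * ⟪v i, x⟫_ℂ else 0 := by
      intro j _
      rw [ContinuousLinearMap.smulRight_apply, innerSL_apply_apply, lp.coeFn_smul, Pi.smul_apply,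
        lp.coeFn_smul, Pi.smul_apply, ee_apply, smul_eq_mul, smul_eq_mul]
      split_ifs with hij
      · rw [hij]
        ring
      · ring
    rw [Finset.sum_congr rfl h1, Finset.sum_ite_eq]
    simp only [Finset.mem_range]
  have hlim : Tendsto F atTop (𝓝 (Wo hv σ b hb)) := by
    rw [tendsto_iff_norm_sub_tendsto_zero]
    have h1 : Tendsto (fun n => Real.sqrt (∑' j, σ (j + n) ^ 2)) atTop (𝓝 0) := by
      have h2 := tendsto_sum_nat_add fun j => σ j ^ 2
      have h3 := h2.sqrt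
      rwa [Real.sqrt_zero] at h3
    refine squeeze_zero (fun n => norm_nonneg _) (fun n => ?_) h1
    refine ContinuousLinearMap.opNorm_le_bound _ (Real.sqrt_nonneg _) fun x => ?_
    refine le_of_sq_le_sq ?_ (by positivity)
    have hsn : Summable fun j => σ (j + n) ^ 2 := (summable_nat_add_iff n).2 hσ
    rw [norm_sq_l2, mul_pow, Real.sq_sqrt (tsum_nonneg fun j => by positivity)]
    have h4 : ∀ i, ‖((F n - Wo hv σ b hb) x : ℕ → ℂ) i‖ ^ 2 =
        if i < n then 0 else σ i ^ 2 * ‖⟪v i, x⟫_ℂ‖ ^ 2 := by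
      intro i
      rw [ContinuousLinearMap.sub_apply, lp.coeFn_sub, Pi.sub_apply, hFc, Wo_apply]
      split_ifs with hi
      · simp
      · rw [zero_sub, norm_neg, norm_mul, mul_pow, Complex.norm_real, Real.norm_eq_abs, sq_abs]
    have h5 : Summable fun i => ‖((F n - Wo hv σ b hb) x : ℕ → ℂ) i‖ ^ 2 := summable_l2 _
    rw [← h5.sum_add_tsum_nat_add n]
    have h6 : ∑ i ∈ Finset.range n, ‖((F n - Wo hv σ b hb) x : ℕ → ℂ) i‖ ^ 2 = 0 := by
      refine Finset.sum_eq_zero fun i hi => ?_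
      rw [h4, if_pos (Finset.mem_range.1 hi)]
    rw [h6, zero_add, ← tsum_mul_right]
    refine Summable.tsum_le_tsum (fun i => ?_) ((summable_nat_add_iff n).2 h5) (hsn.mul_right _)
    rw [h4, if_neg (by omega)]
    refine mul_le_mul_of_nonneg_left ?_ (by positivity)
    refine pow_le_pow_left₀ (norm_nonneg _) ?_ 2
    refine (norm_inner_le_norm _ _).trans ?_
    rw [hv.1, one_mul]
  refine isCompactOperator_of_tendsto hlim (Eventually.of_forall fun n => ?_)
  simp only [hF]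
  induction n with
  | zero =>
    simp only [Finset.range_zero, Finset.sum_empty]
    exact isCompactOperator_zero
  | succ n ih =>
    rw [Finset.sum_range_succ]
    refine ih.add ?_
    have h7 : (innerSL ℂ (v n)).smulRight ((σ n : ℂ) • ee n) =
        (ContinuousLinearMap.toSpanSingleton ℂ ((σ n : ℂ) • ee n)).comp (innerSL ℂ (v n)) := by
      ext1 x
      rfl
    rw [h7]
    have h8 : IsCompactOperator (innerSL ℂ (v n)) := isCompactOperator_of_locallyCompactSpace_dom _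
    exact h8.clm_comp (ContinuousLinearMap.toSpanSingleton ℂ ((σ n : ℂ) • ee n))

end Pool.Agent.N812.WO
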