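import Pool.Agent.N812.WO.Ex2

/-!
# Perturbations of multiplication operators: Schatten classes
-/

set_option autoImplicit false

namespace Pool.Agent.N812.WO

open MeasureTheory Set Metric Filter Topology
open Pool.Agent.N812.IS
open scoped InnerProductSpace ENNReal NNReal ComplexConjugate

variable {S : Type} [MeasurableSpace S] {μ : Measure S}

/-- sequences with `‖∑ c i v i‖² ≤ ∑ |c i|²` -/
structure Bes {H : Type} [NormedAddCommGroup H] [InnerProductSpace ℂ H] (v : ℕ → H) : Prop where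
  n1 : ∀ i, ‖v i‖ ≤ 1
  b : ∀ (n : ℕ) (c : ℕ → ℂ), ‖∑ i ∈ Finset.range n, c i • v i‖ ^ 2 ≤
    ∑ i ∈ Finset.range n, ‖c i‖ ^ 2

lemma bes_of {H : Type} [NormedAddCommGroup H] [InnerProductSpace ℂ H] {v : ℕ → H}
    (hv : Orthonormal ℂ v) {H' : Type} [NormedAddCommGroup H'] [InnerProductSpace ℂ H']
    (P : H →L[ℂ] H') (hP : ∀ x, ‖P x‖ ≤ ‖x‖) : Bes fun i => P (v i) := by
  refine ⟨fun i => (hP _).trans (hv.1 i).le, fun n c => ?_⟩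
  have e : ∑ i ∈ Finset.range n, c i • P (v i) = P (∑ i ∈ Finset.range n, c i • v i) := by
    rw [map_sum]
    exact Finset.sum_congr rfl fun i _ => (map_smul _ _ _).symm
  rw [e]
  refine (pow_le_pow_left₀ (norm_nonneg _) (hP _) 2).trans (le_of_eq ?_)
  have h3 := hv.inner_sum c c (Finset.range n)
  rw [inner_self_eq_norm_sq_to_K] at h3
  have h4 : ((‖∑ i ∈ Finset.range n, c i • v i‖ ^ 2 : ℝ) : ℂ) =
      ((∑ i ∈ Finset.range n, ‖c i‖ ^ 2 : ℝ) : ℂ) := by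
    push_cast
    refine Eq.trans ?_ (h3.trans ?_)
    · rfl
    · refine Finset.sum_congr rfl fun i _ => ?_
      rw [RCLike.conj_mul]
      rfl
  exact_mod_cast h4

/-- the function with the coordinates `conj (ρ i v i)` -/
noncomputable def Vf (v : ℕ → Lp ℂ 2 μ) (ρ : ℕ → ℝ) (w : S) : l2 :=
  vec fun i => conj ((ρ i : ℂ) * v i w)

lemma Vf_meas (v : ℕ → Lp ℂ 2 μ) (ρ : ℕ → ℝ) : StronglyMeasurable (Vf v ρ) := by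
  refine vecS_meas fun i => ?_
  exact Complex.continuous_conj.measurable.comp
    ((Lp.stronglyMeasurable (v i)).measurable.const_mul _)

lemma vec_enorm (b : ℕ → ℂ) : ‖vec b‖ₑ ^ 2 ≤ ∑' i, ‖b i‖ₑ ^ 2 := by
  by_cases hb : Summable fun i => ‖b i‖ ^ 2
  · have h1 := norm_sq_l2 (vec b)
    have h2 : ∀ i, ‖b i‖ₑ ^ 2 = ENNReal.ofReal (‖b i‖ ^ 2) := fun i => by
      rw [← ofReal_norm, ENNReal.ofReal_pow (norm_nonneg _)]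
    simp_rw [h2]
    rw [← ENNReal.ofReal_tsum_of_nonneg (fun i => by positivity) hb, ← ofReal_norm,
      ← ENNReal.ofReal_pow (norm_nonneg _), h1]
    refine ENNReal.ofReal_le_ofReal (le_of_eq ?_)
    exact tsum_congr fun i => by rw [vec_apply hb]
  · have : vec b = 0 := by
      unfold vec
      rw [dif_neg]
      rwa [memlp_iff]
    rw [this]
    simp

lemma lp_int (g : Lp ℂ 2 μ) : ∫⁻ w, ‖g w‖ₑ ^ 2 ∂μ = ‖g‖ₑ ^ 2 := by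
  rw [Lp.enorm_def, eLpNorm_eq_lintegral_rpow_enorm_toReal (by norm_num) (by norm_num)]
  have e : (2 : ℝ≥0∞).toReal = 2 := by norm_num
  rw [e, half_sq]
  simp only [ENNReal.rpow_two]

lemma term_int {v : ℕ → Lp ℂ 2 μ} (hv : Bes v) (ρ : ℕ → ℝ) :
    ∫⁻ w, ∑' i, ‖conj ((ρ i : ℂ) * v i w)‖ₑ ^ 2 ∂μ ≤ ∑' i, ‖ρ i‖ₑ ^ 2 := by
  rw [lintegral_tsum]
  · refine ENNReal.tsum_le_tsum fun i => ?_
    have e : ∀ w, ‖conj ((ρ i : ℂ) * v i w)‖ₑ ^ 2 = ‖ρ i‖ₑ ^ 2 * ‖v i w‖ₑ ^ 2 := by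
      intro w
      rw [← ofReal_norm, RCLike.norm_conj, norm_mul, Complex.norm_real,
        ENNReal.ofReal_mul (norm_nonneg _), ofReal_norm, ofReal_norm, mul_pow]
    simp_rw [e]
    rw [lintegral_const_mul' _ _ (ENNReal.pow_ne_top enorm_ne_top), lp_int]
    have h1 : ‖v i‖ₑ ≤ 1 := by
      rw [← ofReal_norm, ← ENNReal.ofReal_one]
      exact ENNReal.ofReal_le_ofReal (hv.n1 i)
    calc ‖ρ i‖ₑ ^ 2 * ‖v i‖ₑ ^ 2 ≤ ‖ρ i‖ₑ ^ 2 * 1 ^ 2 :=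
          mul_le_mul' le_rfl (pow_le_pow_left' h1 2)
      _ = ‖ρ i‖ₑ ^ 2 := by rw [one_pow, mul_one]
  · intro i
    have h1 : Measurable fun w => conj ((ρ i : ℂ) * v i w) :=
      Complex.continuous_conj.measurable.comp
        ((Lp.stronglyMeasurable (v i)).measurable.const_mul _)
    exact (h1.enorm.pow_const 2).aemeasurable

lemma Vf_int {v : ℕ → Lp ℂ 2 μ} (hv : Bes v) (ρ : ℕ → ℝ) :
    ∫⁻ w, ‖Vf v ρ w‖ₑ ^ 2 ∂μ ≤ ∑' i, ‖ρ i‖ₑ ^ 2 :=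
  (lintegral_mono fun w => vec_enorm _).trans (term_int hv ρ)

lemma Vf_ae {v : ℕ → Lp ℂ 2 μ} (hv : Bes v) {ρ : ℕ → ℝ}
    (hρ : ∑' i, ‖ρ i‖ₑ ^ 2 ≠ ⊤) :
    ∀ᵐ w ∂μ, ∀ i, (Vf v ρ w : ℕ → ℂ) i = conj ((ρ i : ℂ) * v i w) := by
  have hm : Measurable fun w => ∑' i, ‖conj ((ρ i : ℂ) * v i w)‖ₑ ^ 2 := by
    refine Measurable.tsum fun i => ?_
    have h1 : Measurable fun w => conj ((ρ i : ℂ) * v i w) :=
      Complex.continuous_conj.measurable.comp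
        ((Lp.stronglyMeasurable (v i)).measurable.const_mul _)
    exact h1.enorm.pow_const 2
  have h1 := ae_lt_top (μ := μ) hm (ne_top_of_le_ne_top hρ (term_int hv ρ))
  filter_upwards [h1] with w hw i
  refine vec_apply ?_ i
  have h2 := ENNReal.summable_toReal hw.ne
  refine h2.congr fun i => ?_
  rw [ENNReal.toReal_pow, toReal_enorm]

/-- the sum `∑ ρ i c i v i` -/
noncomputable def Wc (v : ℕ → Lp ℂ 2 μ) (ρ : ℕ → ℝ) (c : l2) : Lp ℂ 2 μ :=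
  ∑' i, ((ρ i : ℂ) * (c : ℕ → ℂ) i) • v i

lemma sq_summable {ρ : ℕ → ℝ} (hρ : ∑' i, ‖ρ i‖ₑ ^ 2 ≠ ⊤) : Summable fun i => ρ i ^ 2 := by
  have h2 := ENNReal.summable_toReal hρ
  refine h2.congr fun i => ?_
  rw [ENNReal.toReal_pow, toReal_enorm, Real.norm_eq_abs, sq_abs]

lemma Wc_sum {v : ℕ → Lp ℂ 2 μ} (hv : Bes v) {ρ : ℕ → ℝ}
    (hρ : ∑' i, ‖ρ i‖ₑ ^ 2 ≠ ⊤) (c : l2) :
    HasSum (fun i => ((ρ i : ℂ) * (c : ℕ → ℂ) i) • v i) (Wc v ρ c) := by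
  refine (Summable.of_norm ?_).hasSum
  refine Summable.of_nonneg_of_le (fun i => norm_nonneg _) (fun i => ?_)
    (((sq_summable hρ).add (summable_l2 c)).mul_left (1 / 2))
  rw [norm_smul, norm_mul, Complex.norm_real]
  have h1 : ρ i ^ 2 = ‖ρ i‖ ^ 2 := by rw [Real.norm_eq_abs, sq_abs]
  rw [h1]
  have h2 : ‖ρ i‖ * ‖(c : ℕ → ℂ) i‖ * ‖v i‖ ≤ ‖ρ i‖ * ‖(c : ℕ → ℂ) i‖ * 1 :=
    mul_le_mul_of_nonneg_left (hv.n1 i) (by positivity)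
  nlinarith [sq_nonneg (‖ρ i‖ - ‖(c : ℕ → ℂ) i‖)]

lemma Wc_ae {v : ℕ → Lp ℂ 2 μ} (hv : Bes v) {ρ : ℕ → ℝ}
    (hρ : ∑' i, ‖ρ i‖ₑ ^ 2 ≠ ⊤) (c : l2) : Wc v ρ c =ᵐ[μ] fun w => ⟪Vf v ρ w, c⟫_ℂ := by
  refine sum_ae (Wc_sum hv hρ c).tendsto_sum_nat ?_
  have h1 : ∀ n : ℕ, ∀ᵐ w ∂μ, (∑ i ∈ Finset.range n, ((ρ i : ℂ) * (c : ℕ → ℂ) i) • v i :
      Lp ℂ 2 μ) w = ∑ i ∈ Finset.range n, ((ρ i : ℂ) * (c : ℕ → ℂ) i) * v i w := by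
    intro n
    induction n with
    | zero =>
      simp only [Finset.range_zero, Finset.sum_empty]
      filter_upwards [Lp.coeFn_zero ℂ 2 μ] with w hw
      rw [hw, Pi.zero_apply]
    | succ n ih =>
      simp only [Finset.sum_range_succ]
      filter_upwards [ih, Lp.coeFn_add (∑ i ∈ Finset.range n, ((ρ i : ℂ) * (c : ℕ → ℂ) i) • v i)
        (((ρ n : ℂ) * (c : ℕ → ℂ) n) • v n), Lp.coeFn_smul ((ρ n : ℂ) * (c : ℕ → ℂ) n) (v n)]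
        with w h1 h2 h3
      rw [h2, Pi.add_apply, h1, h3, Pi.smul_apply, smul_eq_mul]
  filter_upwards [ae_all_iff.2 h1, Vf_ae hv hρ] with w hw1 hw2
  simp_rw [hw1]
  have h2 := (lp.hasSum_inner (𝕜 := ℂ) (Vf v ρ w) c).tendsto_sum_nat
  refine h2.congr fun n => Finset.sum_congr rfl fun i _ => ?_
  rw [hw2 i, RCLike.inner_apply, Complex.conj_conj]
  ring

lemma Wc_norm {v : ℕ → Lp ℂ 2 μ} (hv : Bes v) {ρ : ℕ → ℝ}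
    (hρ : ∑' i, ‖ρ i‖ₑ ^ 2 ≠ ⊤) {b : ℝ≥0} (hb : ∀ i, ‖ρ i‖ ≤ b) (c : l2) :
    ‖Wc v ρ c‖ ≤ b * ‖c‖ := by
  have h1 := (Wc_sum hv hρ c).tendsto_sum_nat.norm
  refine le_of_tendsto' h1 fun n => ?_
  refine le_of_sq_le_sq ?_ (by positivity)
  rw [mul_pow]
  refine (hv.b n fun i => (ρ i : ℂ) * (c : ℕ → ℂ) i).trans ?_
  calc ∑ i ∈ Finset.range n, ‖(ρ i : ℂ) * (c : ℕ → ℂ) i‖ ^ 2
      ≤ ∑ i ∈ Finset.range n, (b : ℝ) ^ 2 * ‖(c : ℕ → ℂ) i‖ ^ 2 := by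
        refine Finset.sum_le_sum fun i _ => ?_
        rw [norm_mul, mul_pow, Complex.norm_real]
        exact mul_le_mul_of_nonneg_right (pow_le_pow_left₀ (norm_nonneg _) (hb i) 2)
          (by positivity)
    _ = (b : ℝ) ^ 2 * ∑ i ∈ Finset.range n, ‖(c : ℕ → ℂ) i‖ ^ 2 := by rw [Finset.mul_sum]
    _ ≤ (b : ℝ) ^ 2 * ‖c‖ ^ 2 := by
        refine mul_le_mul_of_nonneg_left ?_ (by positivity)
        rw [norm_sq_l2]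
        exact (summable_l2 c).sum_le_tsum _ fun i _ => by positivity

lemma Vf_inner {v : ℕ → Lp ℂ 2 μ} (hv : Bes v) {ρ : ℕ → ℝ}
    (hρ : ∑' i, ‖ρ i‖ₑ ^ 2 ≠ ⊤) {b : ℝ≥0} (hb : ∀ i, ‖ρ i‖ ≤ b) (c : l2) :
    ∫⁻ w, ‖⟪Vf v ρ w, c⟫_ℂ‖ₑ ^ 2 ∂μ ≤ ((b : ℝ≥0∞) * ‖c‖ₑ) ^ 2 := by
  have h1 : ∫⁻ w, ‖⟪Vf v ρ w, c⟫_ℂ‖ₑ ^ 2 ∂μ = ∫⁻ w, ‖Wc v ρ c w‖ₑ ^ 2 ∂μ := by
    refine lintegral_congr_ae ?_
    filter_upwards [Wc_ae hv hρ c] with w hw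
    rw [hw]
  rw [h1, lp_int]
  refine pow_le_pow_left' ?_ 2
  rw [← ofReal_norm, ← ofReal_norm, ← ENNReal.ofReal_coe_nnreal,
    ← ENNReal.ofReal_mul (NNReal.coe_nonneg b)]
  exact ENNReal.ofReal_le_ofReal (Wc_norm hv hρ hb c)

/-- the coordinates of `V* g` -/
lemma vs_coord {v : ℕ → Lp ℂ 2 μ} (hv : Bes v) {ρ : ℕ → ℝ}
    (hρ : ∑' i, ‖ρ i‖ₑ ^ 2 ≠ ⊤) (g : Lp ℂ 2 μ) (hi : Integrable (fun w => g w • Vf v ρ w) μ)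
    (i : ℕ) : (vs μ (Vf v ρ) g : ℕ → ℂ) i = (ρ i : ℂ) * ⟪v i, g⟫_ℂ := by
  rw [← inner_ee, vs, ← integral_inner hi, L2.inner_def, ← integral_const_mul]
  refine integral_congr_ae ?_
  filter_upwards [Vf_ae hv hρ] with w hw
  rw [inner_smul_right, inner_ee, hw i, RCLike.inner_apply, map_mul, Complex.conj_ofReal]
  ring

/-- the block weights -/
noncomputable def bw (σ : ℕ → ℝ) (κ : ℕ → ℕ) (k j : ℕ) : ℝ := if κ j = k then σ j else 0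

section

variable [SigmaFinite μ] {φ : S → ℂ} {E : Set S} {A B : ℕ → ℂ → ℂ} {n f h a : ℕ → ℝ≥0}
  {u v : ℕ → Lp ℂ 2 μ} {σ σ' s : ℕ → ℝ} {κ : ℕ → ℕ}

/-- the data of a perturbation -/
structure Wt (σ σ' s : ℕ → ℝ) (κ : ℕ → ℕ) (h a : ℕ → ℝ≥0) : Prop where
  prod : ∀ j, σ j * σ' j = s j
  a : ∀ j, ‖σ j‖ ≤ a (κ j)
  h : ∀ k, ∑' j, ‖bw σ κ k j‖ₑ ^ 2 ≤ (h k : ℝ≥0∞) ^ 2
  v : ∑' j, ‖σ' j‖ₑ ^ 2 ≠ ⊤
  bd : ∃ b : ℝ≥0, ∀ j, ‖σ j‖ ≤ b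

lemma Wt.hne (W : Wt σ σ' s κ h a) (k : ℕ) : ∑' j, ‖bw σ κ k j‖ₑ ^ 2 ≠ ⊤ :=
  ne_top_of_le_ne_top (ENNReal.pow_ne_top ENNReal.coe_ne_top) (W.h k)

lemma Wt.ab (W : Wt σ σ' s κ h a) (k j : ℕ) : ‖bw σ κ k j‖ ≤ a k := by
  unfold bw
  split_ifs with hk
  · rw [← hk]
    exact W.a j
  · simp

/-- the kernels -/
structure Kn (μ : Measure S) (φ : S → ℂ) (E : Set S) (A B : ℕ → ℂ → ℂ) (n f h a : ℕ → ℝ≥0) :
    Prop where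
  phi : Measurable φ
  phib : ∃ b : ℝ, ∀ s, ‖φ s‖ ≤ b
  Em : MeasurableSet E
  Ef : μ E ≠ ⊤
  pot : ∃ C : ℝ≥0, ∀ w, ∫⁻ z in E, ‖φ z - φ w‖ₑ⁻¹ ∂μ ≤ C
  Am : ∀ k, Measurable (A k)
  Bm : ∀ k, Measurable (B k)
  AB : ∀ k ζ, A k ζ + B k ζ = ζ⁻¹
  An : ∀ k w, ∫⁻ z in E, ‖A k (φ z - φ w)‖ₑ ∂μ ≤ n k
  Bf : ∀ k w, ∫⁻ z in E, ‖B k (φ z - φ w)‖ₑ ^ 2 ∂μ ≤ (f k : ℝ≥0∞) ^ 2
  sum : ∑' k, ((h k : ℝ≥0∞) * n k + a k * f k) ≠ ⊤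

/-- the functions `U k` -/
noncomputable def Uf (u : ℕ → Lp ℂ 2 μ) (σ : ℕ → ℝ) (κ : ℕ → ℕ) (k : ℕ) : S → l2 :=
  Vf u (bw σ κ k)

theorem mk_dat (R : Kn μ φ E A B n f h a) (W : Wt σ σ' s κ h a) (hu : Bes u)
    (hv : Bes v) : Dat μ φ E (Vf v σ') (Uf u σ κ) A B n f h a where
  phi := R.phi
  phib := R.phib
  Em := R.Em
  Ef := R.Ef
  pot := R.pot
  Vm := Vf_meas _ _
  Vf := ne_top_of_le_ne_top W.v (Vf_int hv σ')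
  Um := fun k => Vf_meas _ _
  Am := R.Am
  Bm := R.Bm
  AB := R.AB
  An := R.An
  Bf := R.Bf
  Uh := fun k => (Vf_int hu _).trans (W.h k)
  Ua := fun k c => Vf_inner hu (W.hne k) (W.ab k) c
  sum := R.sum

theorem mk_op (R : Kn μ φ E A B n f h a) (W : Wt σ σ' s κ h a) (hu : Bes u)
    (hv : Bes v) {N K : Lp ℂ 2 μ →L[ℂ] Lp ℂ 2 μ}
    (hN : ∀ g : Lp ℂ 2 μ, N g =ᵐ[μ] fun s => φ s * g s)
    (hK : ∀ g : Lp ℂ 2 μ, HasSum (fun j => ((s j : ℂ) * ⟪v j, g⟫_ℂ) • u j) (K g)) :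
    Op μ φ (Vf v σ') (Uf u σ κ) N (N + K) := by
  have D := mk_dat R W hu hv
  refine ⟨hN, fun g => ?_⟩
  have e1 : (N + K) g - N g = K g := by
    rw [ContinuousLinearMap.add_apply]
    abel
  rw [e1]
  have h1 := (hK g).tsum_fiberwise κ
  refine h1.congr_fun fun k => ?_
  have h2 : uc μ (Uf u σ κ) k (vs μ (Vf v σ') g) = Wc u (bw σ κ k) (vs μ (Vf v σ') g) := by
    apply Lp.ext
    have h3 := vl_ae (D.uc_memLp k (vs μ (Vf v σ') g))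
    filter_upwards [h3, Wc_ae hu (W.hne k) (vs μ (Vf v σ') g)] with w h4 h5
    rw [h5]
    exact h4
  rw [h2, Wc, tsum_subtype (κ ⁻¹' {k}) (fun j => ((s j : ℂ) * ⟪v j, g⟫_ℂ) • u j)]
  refine tsum_congr fun j => ?_
  rw [vs_coord hv W.v g (D.vs_integrable g)]
  by_cases hk : κ j = k
  · rw [indicator_of_mem (show j ∈ κ ⁻¹' {k} from hk), bw, if_pos hk, ← W.prod j]
    push_cast
    congr 1
    ring
  · rw [indicator_of_notMem (show j ∉ κ ⁻¹' {k} from hk), bw, if_neg hk]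
    simp

end

end Pool.Agent.N812.WO
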