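import Pool.Agent.N812.WO.Dg

/-!
# Extensions of normal operators: local splitting
-/

set_option autoImplicit false

namespace Pool.Agent.N812.WO

open MeasureTheory Set Metric Filter Topology
open Pool.Agent.N812.IS
open scoped InnerProductSpace ENNReal NNReal ComplexConjugate
open ContinuousLinearMap (adjoint)

variable {S : Type} [MeasurableSpace S] {μ : Measure S} {φ : S → ℂ}
  {H Z : Type} [NormedAddCommGroup H] [InnerProductSpace ℂ H] [CompleteSpace H]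
  [NormedAddCommGroup Z] [InnerProductSpace ℂ Z] [CompleteSpace Z]

/-! ### multiplication operators -/

/-- multiplication by a bounded measurable function -/
noncomputable def Mu (μ : Measure S) (g : S → ℂ) (hg : Measurable g) (M : ℝ≥0)
    (hM : ∀ s, ‖g s‖ ≤ M) : Lp ℂ 2 μ →L[ℂ] Lp ℂ 2 μ :=
  LinearMap.mkContinuous
    { toFun := fun F => (mul_memLp hg hM F).toLp _
      map_add' := fun F G => by
        apply Lp.ext
        filter_upwards [MemLp.coeFn_toLp (mul_memLp hg hM (F + G)),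
          Lp.coeFn_add ((mul_memLp hg hM F).toLp _) ((mul_memLp hg hM G).toLp _),
          MemLp.coeFn_toLp (mul_memLp hg hM F), MemLp.coeFn_toLp (mul_memLp hg hM G),
          Lp.coeFn_add F G] with s h1 h2 h3 h4 h5
        rw [h1, h2, Pi.add_apply, h3, h4, h5, Pi.add_apply, mul_add]
      map_smul' := fun c F => by
        apply Lp.ext
        filter_upwards [MemLp.coeFn_toLp (mul_memLp hg hM (c • F)),
          Lp.coeFn_smul c ((mul_memLp hg hM F).toLp _),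
          MemLp.coeFn_toLp (mul_memLp hg hM F), Lp.coeFn_smul c F] with s h1 h2 h3 h4
        rw [h1, RingHom.id_apply, h2, Pi.smul_apply, h3, h4, Pi.smul_apply, smul_eq_mul,
          smul_eq_mul]
        ring } M fun F => by
    show ‖(mul_memLp hg hM F).toLp _‖ ≤ M * ‖F‖
    refine Lp.norm_le_mul_norm_of_ae_le_mul ?_
    filter_upwards [MemLp.coeFn_toLp (mul_memLp hg hM F)] with s hs
    rw [hs, norm_mul]
    exact mul_le_mul_of_nonneg_right (hM s) (norm_nonneg _)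

lemma Mu_ae (g : S → ℂ) (hg : Measurable g) (M : ℝ≥0) (hM : ∀ s, ‖g s‖ ≤ M) (F : Lp ℂ 2 μ) :
    Mu μ g hg M hM F =ᵐ[μ] fun s => g s * F s := MemLp.coeFn_toLp (mul_memLp hg hM F)

lemma Mu_norm (g : S → ℂ) (hg : Measurable g) (M : ℝ≥0) (hM : ∀ s, ‖g s‖ ≤ M) :
    ‖Mu μ g hg M hM‖ ≤ M := LinearMap.mkContinuous_norm_le _ M.2 _

/-! ### the Sylvester equation -/

lemma sylv {Y : Type} [NormedAddCommGroup Y] [NormedSpace ℂ Y] [CompleteSpace Y]
    (N P M₁ : Y →L[ℂ] Y) (B : Z →L[ℂ] Y) (R Q₀ : Z →L[ℂ] Z) (l : ℂ) (h1 : ∀ f, P (P f) = P f)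
    (h2 : ∀ f, N (P f) = M₁ f + l • P f) (h3 : ∀ f, P (M₁ f) = M₁ f) (h4 : ‖M₁‖ * ‖Q₀‖ < 1)
    (h5 : ∀ y, Q₀ (R y - l • y) = y) :
    ∃ X : Z →L[ℂ] Y, (∀ y, P (X y) = X y) ∧ ∀ y, N (X y) - X (R y) = -P (B y) := by
  set F : (Z →L[ℂ] Y) → (Z →L[ℂ] Y) := fun X => P.comp (B.comp Q₀) + M₁.comp (X.comp Q₀) with hF
  have hc : ContractingWith (‖M₁‖₊ * ‖Q₀‖₊) F := by
    refine ⟨by exact_mod_cast h4, LipschitzWith.of_dist_le_mul fun X Y => ?_⟩
    rw [dist_eq_norm, dist_eq_norm]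
    have e : F X - F Y = M₁.comp ((X - Y).comp Q₀) := by
      ext y
      simp only [hF, ContinuousLinearMap.sub_apply, ContinuousLinearMap.add_apply,
        ContinuousLinearMap.comp_apply, map_sub]
      abel
    rw [e]
    refine (ContinuousLinearMap.opNorm_comp_le _ _).trans ?_
    push_cast
    calc ‖M₁‖ * ‖(X - Y).comp Q₀‖ ≤ ‖M₁‖ * (‖X - Y‖ * ‖Q₀‖) :=
          mul_le_mul_of_nonneg_left (ContinuousLinearMap.opNorm_comp_le _ _) (norm_nonneg _)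
      _ = ‖M₁‖ * ‖Q₀‖ * ‖X - Y‖ := by ring
  obtain ⟨X, hX⟩ : ∃ X, F X = X := ⟨_, hc.fixedPoint_isFixedPt⟩
  have hXy : ∀ y, P (B (Q₀ y)) + M₁ (X (Q₀ y)) = X y := fun y => by
    conv_rhs => rw [← hX]
    rfl
  have hP : ∀ y, P (X y) = X y := fun y => by
    rw [← hXy, map_add, h1, h3]
  refine ⟨X, hP, fun y => ?_⟩
  have e1 := hXy (R y - l • y)
  rw [h5, map_sub, map_smul] at e1
  have e2 : N (X y) = M₁ (X y) + l • X y := by
    have := h2 (X y)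
    rwa [hP] at this
  rw [e2]
  rw [eq_sub_iff_add_eq] at e1
  rw [← e1]
  abel

/-! ### triangular operators -/

/-- `A` is the triangular operator with the entries `N`, `B`, `R` -/
structure Tr (μ : Measure S) (φ : S → ℂ) (A : H →L[ℂ] H) (N : Lp ℂ 2 μ →L[ℂ] Lp ℂ 2 μ)
    (B : Z →L[ℂ] Lp ℂ 2 μ) (R : Z →L[ℂ] Z) (j₁ : Lp ℂ 2 μ →L[ℂ] H) (j₂ : Z →L[ℂ] H)
    (q₁ : H →L[ℂ] Lp ℂ 2 μ) (q₂ : H →L[ℂ] Z) : Prop where
  mul : ∀ g : Lp ℂ 2 μ, N g =ᵐ[μ] fun s => φ s * g s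
  i11 : ∀ g, q₁ (j₁ g) = g
  i22 : ∀ x, q₂ (j₂ x) = x
  i12 : ∀ x, q₁ (j₂ x) = 0
  i21 : ∀ g, q₂ (j₁ g) = 0
  res : ∀ y, j₁ (q₁ y) + j₂ (q₂ y) = y
  op1 : ∀ g, A (j₁ g) = j₁ (N g)
  op2 : ∀ x, A (j₂ x) = j₁ (B x) + j₂ (R x)

variable {A : H →L[ℂ] H} {N : Lp ℂ 2 μ →L[ℂ] Lp ℂ 2 μ} {B : Z →L[ℂ] Lp ℂ 2 μ}
    {R : Z →L[ℂ] Z} {j₁ : Lp ℂ 2 μ →L[ℂ] H} {j₂ : Z →L[ℂ] H}
    {q₁ : H →L[ℂ] Lp ℂ 2 μ} {q₂ : H →L[ℂ] Z}

theorem Tr.dg (T : Tr μ φ A N B R j₁ j₂ q₁ q₂) (hφ : Measurable φ)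
    (hb : ∃ b : ℝ≥0, ∀ s, ‖φ s‖ ≤ b) {l : ℂ} (hl : l ∉ spectrum ℂ R) :
    ∃ (ρ : ℝ) (R' : H →L[ℂ] H) (i₁ : Lp ℂ 2 μ →L[ℂ] H) (p₁ : H →L[ℂ] Lp ℂ 2 μ)
      (i₂ p₂ : H →L[ℂ] H), 0 < ρ ∧ Dg μ φ (φ ⁻¹' ball l ρ) A N R' i₁ p₁ i₂ p₂ ∧
      ∀ w ∈ ball l ρ, w ∉ spectrum ℂ R → IsUnit (wR R' w) := by
  classical
  obtain ⟨b, hb⟩ := hb
  -- the inverse of `R - l`
  obtain ⟨Q₀, hQ₀⟩ : ∃ Q₀ : Z →L[ℂ] Z, ∀ y, Q₀ (R y - l • y) = y := by
    refine ⟨-Ring.inverse (wR R l), fun y => ?_⟩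
    have h3 := congrArg (fun B : Z →L[ℂ] Z => B y) (Ring.inverse_mul_cancel _ (unit_of hl))
    change Ring.inverse (wR R l) (l • y - R y) = y at h3
    rw [ContinuousLinearMap.neg_apply, ← map_neg, neg_sub, h3]
  obtain ⟨ρ, hρ, hρQ⟩ : ∃ ρ : ℝ≥0, 0 < ρ ∧ ρ * ‖Q₀‖ < 1 := by
    refine ⟨⟨(‖Q₀‖ + 1)⁻¹, by positivity⟩, ?_, ?_⟩
    · rw [← NNReal.coe_pos]
      show 0 < (‖Q₀‖ + 1)⁻¹
      positivity
    · show (‖Q₀‖ + 1)⁻¹ * ‖Q₀‖ < 1
      rw [inv_mul_lt_iff₀ (by positivity)]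
      linarith
  set D₀ : Set S := φ ⁻¹' ball l ρ with hD₀
  have hDm : MeasurableSet D₀ := hφ measurableSet_ball
  -- the projection
  set P : Lp ℂ 2 μ →L[ℂ] Lp ℂ 2 μ := Mu μ (D₀.indicator fun _ => 1) (ind_meas hDm) 1
    (ind_le D₀) with hP
  have hPa : ∀ F : Lp ℂ 2 μ, P F =ᵐ[μ] fun s => D₀.indicator (fun _ => (1:ℂ)) s * F s :=
    fun F => Mu_ae _ _ _ _ F
  have hm1 : Measurable fun s => D₀.indicator (fun s => φ s - l) s :=
    (hφ.sub_const l).indicator hDm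
  have hm1b : ∀ s, ‖D₀.indicator (fun s => φ s - l) s‖ ≤ ρ := by
    intro s
    by_cases hs : s ∈ D₀
    · rw [indicator_of_mem hs, ← dist_eq_norm]
      exact (mem_ball.1 hs).le
    · rw [indicator_of_notMem hs, norm_zero]
      exact ρ.2
  set M₁ : Lp ℂ 2 μ →L[ℂ] Lp ℂ 2 μ := Mu μ (D₀.indicator fun s => φ s - l) hm1 ρ hm1b with hM₁
  have hM1a : ∀ F : Lp ℂ 2 μ, M₁ F =ᵐ[μ] fun s => D₀.indicator (fun s => φ s - l) s * F s :=
    fun F => Mu_ae _ _ _ _ F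
  have hPP : ∀ f, P (P f) = P f := by
    intro f
    apply Lp.ext
    filter_upwards [hPa (P f), hPa f] with s h1 h2
    rw [h1, h2]
    by_cases hs : s ∈ D₀
    · simp [indicator_of_mem hs]
    · simp [indicator_of_notMem hs]
  have hNP : ∀ f, N (P f) = M₁ f + l • P f := by
    intro f
    apply Lp.ext
    filter_upwards [T.mul (P f), hPa f, hM1a f, Lp.coeFn_add (M₁ f) (l • P f),
      Lp.coeFn_smul l (P f)] with s h1 h2 h3 h4 h5
    rw [h1, h4, Pi.add_apply, h5, Pi.smul_apply, h2, h3]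
    by_cases hs : s ∈ D₀
    · simp only [indicator_of_mem hs, smul_eq_mul]
      ring
    · simp [indicator_of_notMem hs]
  have hPM : ∀ f, P (M₁ f) = M₁ f := by
    intro f
    apply Lp.ext
    filter_upwards [hPa (M₁ f), hM1a f] with s h1 h2
    rw [h1, h2]
    by_cases hs : s ∈ D₀
    · simp [indicator_of_mem hs]
    · simp [indicator_of_notMem hs]
  have hPN : ∀ f, P (N f) = N (P f) := by
    intro f
    apply Lp.ext
    filter_upwards [hPa (N f), hPa f, T.mul f, T.mul (P f)] with s h1 h2 h3 h4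
    rw [h1, h4, h2, h3]
    ring
  obtain ⟨X, hPX, hXs⟩ := sylv N P M₁ B R Q₀ l hPP hNP hPM
    (lt_of_le_of_lt (mul_le_mul_of_nonneg_right (Mu_norm _ _ _ _) (norm_nonneg _)) hρQ) hQ₀
  -- the decomposition
  set i₁ : Lp ℂ 2 μ →L[ℂ] H := j₁.comp P with hi₁
  set p₁ : H →L[ℂ] Lp ℂ 2 μ := P.comp q₁ - X.comp q₂ with hp₁
  have hip : ∀ g, p₁ (i₁ g) = P g := by
    intro g
    show P (q₁ (j₁ (P g))) - X (q₂ (j₁ (P g))) = P g
    rw [T.i11, T.i21, map_zero, sub_zero, hPP]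
  have hPp : ∀ y, P (p₁ y) = p₁ y := by
    intro y
    show P (P (q₁ y) - X (q₂ y)) = P (q₁ y) - X (q₂ y)
    rw [map_sub, hPP, hPX]
  have ha1 : ∀ g, A (i₁ g) = i₁ (N g) := by
    intro g
    show A (j₁ (P g)) = j₁ (P (N g))
    rw [T.op1, hPN]
  have hAq : ∀ y, q₁ (A y) = N (q₁ y) + B (q₂ y) ∧ q₂ (A y) = R (q₂ y) := by
    intro y
    have e : A y = j₁ (N (q₁ y) + B (q₂ y)) + j₂ (R (q₂ y)) := by
      conv_lhs => rw [← T.res y, map_add, T.op1, T.op2]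
      rw [map_add]
      abel
    rw [e]
    constructor
    · rw [map_add q₁, T.i11, T.i12, add_zero]
    · rw [map_add q₂, T.i21, T.i22, zero_add]
  have hb1 : ∀ y, p₁ (A y) = N (p₁ y) := by
    intro y
    show P (q₁ (A y)) - X (q₂ (A y)) = N (P (q₁ y) - X (q₂ y))
    have h6 := hXs (q₂ y)
    rw [sub_eq_iff_eq_add] at h6
    rw [(hAq y).1, (hAq y).2, map_add, map_sub, hPN, h6]
    abel
  set G₁ : H →L[ℂ] H := i₁.comp p₁ with hG1
  have hGG : ∀ y, G₁ (G₁ y) = G₁ y := by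
    intro y
    show i₁ (p₁ (i₁ (p₁ y))) = i₁ (p₁ y)
    rw [hip, hPp]
  have hAG : ∀ y, A (G₁ y) = G₁ (A y) := by
    intro y
    show A (i₁ (p₁ y)) = i₁ (p₁ (A y))
    rw [ha1, hb1]
  set c₀ : ℂ := l + ρ with hc₀
  set R' : H →L[ℂ] H := A.comp (1 - G₁) + c₀ • G₁ with hR'
  have hR'a : ∀ y, R' y = A (y - G₁ y) + c₀ • G₁ y := fun y => rfl
  refine ⟨ρ, R', i₁, p₁, 1 - G₁, 1 - G₁, hρ, ⟨T.mul, fun g => ?_, fun y => ?_, ha1, fun x => ?_,
    hb1, fun y => ?_⟩, fun w hw hwR => ?_⟩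
  · rw [hip]
    exact hPa g
  · show G₁ y + ((y - G₁ y) - G₁ (y - G₁ y)) = y
    rw [map_sub, hGG]
    abel
  · show A (x - G₁ x) = R' x - G₁ (R' x)
    rw [hR'a, map_add, ← hAG, map_sub G₁, hGG, map_smul, hGG, sub_self, map_zero]
    abel
  · show A y - G₁ (A y) = R' (y - G₁ y)
    rw [hR'a, map_sub G₁, hGG, sub_self, smul_zero, sub_zero, add_zero, map_sub, hAG]
  · -- invertibility
    have hcoord : ∀ f y, R' (j₁ f + j₂ y) =
        j₁ (N (f - P f) + c₀ • P f + (N (X y) + B y - c₀ • X y)) + j₂ (R y) := by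
      intro f y
      have e1 : G₁ (j₁ f + j₂ y) = j₁ (P f - X y) := by
        show j₁ (P (P (q₁ (j₁ f + j₂ y)) - X (q₂ (j₁ f + j₂ y)))) = j₁ (P f - X y)
        rw [map_add q₁, map_add q₂, T.i11, T.i12, T.i21, T.i22, add_zero, zero_add, map_sub, hPP,
          hPX]
      have e2 : j₁ f + j₂ y - G₁ (j₁ f + j₂ y) = j₁ (f - P f + X y) + j₂ y := by
        rw [e1]
        simp only [map_sub, map_add]
        abel
      rw [hR'a, e2, e1, map_add A, T.op1, T.op2]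
      simp only [map_sub, map_add, map_smul, smul_sub]
      abel
    have hgap : ∀ s, ρ - ‖w - l‖ ≤ ‖w - D₀.piecewise (fun _ => c₀) φ s‖ := by
      intro s
      have h7 : (ρ : ℝ) ≤ ‖l - D₀.piecewise (fun _ => c₀) φ s‖ := by
        by_cases hs : s ∈ D₀
        · rw [piecewise_eq_of_mem _ _ _ hs, hc₀]
          simp
        · rw [piecewise_eq_of_notMem _ _ _ hs]
          have h8 : φ s ∉ ball l ρ := hs
          rw [mem_ball, not_lt, dist_eq_norm, norm_sub_rev] at h8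
          exact h8
      have h8 : ‖l - D₀.piecewise (fun _ => c₀) φ s‖ ≤
          ‖l - w‖ + ‖w - D₀.piecewise (fun _ => c₀) φ s‖ := norm_sub_le_norm_sub_add_norm_sub _ _ _
      rw [norm_sub_rev l w] at h8
      linarith
    have hw' : 0 < ρ - ‖w - l‖ := by
      rw [mem_ball, dist_eq_norm] at hw
      linarith
    have hpm : Measurable (D₀.piecewise (fun _ => c₀) φ) := measurable_const.piecewise hDm hφ
    have hvb : ∀ s, ‖(w - D₀.piecewise (fun _ => c₀) φ s)⁻¹‖ ≤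
        (⟨(ρ - ‖w - l‖)⁻¹, by positivity⟩ : ℝ≥0) := by
      intro s
      rw [norm_inv]
      exact inv_anti₀ hw' (hgap s)
    set I : Lp ℂ 2 μ →L[ℂ] Lp ℂ 2 μ := Mu μ (fun s => (w - D₀.piecewise (fun _ => c₀) φ s)⁻¹)
      (hpm.const_sub w).inv _ hvb with hI
    have hIa : ∀ F : Lp ℂ 2 μ, I F =ᵐ[μ] fun s => (w - D₀.piecewise (fun _ => c₀) φ s)⁻¹ * F s :=
      fun F => Mu_ae _ _ _ _ F
    have hne : ∀ s, w - D₀.piecewise (fun _ => c₀) φ s ≠ 0 := fun s => by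
      rw [← norm_pos_iff]
      exact lt_of_lt_of_le hw' (hgap s)
    have hN'' : ∀ f : Lp ℂ 2 μ, (N (f - P f) + c₀ • P f : Lp ℂ 2 μ) =ᵐ[μ]
        fun s => D₀.piecewise (fun _ => c₀) φ s * f s := by
      intro f
      filter_upwards [Lp.coeFn_add (N (f - P f)) (c₀ • P f), Lp.coeFn_smul c₀ (P f),
        T.mul (f - P f), Lp.coeFn_sub f (P f), hPa f] with s g1 g2 g3 g4 g5
      rw [g1, Pi.add_apply, g2, Pi.smul_apply, g3, g4, Pi.sub_apply, g5]
      by_cases hs : s ∈ D₀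
      · rw [piecewise_eq_of_mem _ _ _ hs]
        simp [indicator_of_mem hs]
      · rw [piecewise_eq_of_notMem _ _ _ hs]
        simp [indicator_of_notMem hs]
    have hI1 : ∀ f : Lp ℂ 2 μ, I (w • f - (N (f - P f) + c₀ • P f)) = f := by
      intro f
      apply Lp.ext
      filter_upwards [hIa (w • f - (N (f - P f) + c₀ • P f)), hN'' f,
        Lp.coeFn_sub (w • f) (N (f - P f) + c₀ • P f), Lp.coeFn_smul w f] with s g1 g2 g3 g4
      rw [g1, g3, Pi.sub_apply, g2, g4, Pi.smul_apply, smul_eq_mul, ← sub_mul, ← mul_assoc,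
        inv_mul_cancel₀ (hne s), one_mul]
    have hI2 : ∀ f : Lp ℂ 2 μ, w • I f - (N (I f - P (I f)) + c₀ • P (I f)) = f := by
      intro f
      apply Lp.ext
      filter_upwards [hIa f, hN'' (I f),
        Lp.coeFn_sub (w • I f) (N (I f - P (I f)) + c₀ • P (I f)), Lp.coeFn_smul w (I f)]
        with s g1 g2 g3 g4
      rw [g3, Pi.sub_apply, g2, g4, Pi.smul_apply, smul_eq_mul, ← sub_mul, g1, ← mul_assoc,
        mul_inv_cancel₀ (hne s), one_mul]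
    have hRu := unit_of hwR
    have hRi1 : ∀ y, Ring.inverse (wR R w) (w • y - R y) = y := fun y =>
      congrArg (fun B : Z →L[ℂ] Z => B y) (Ring.inverse_mul_cancel _ hRu)
    have hRi2 : ∀ y, w • Ring.inverse (wR R w) y - R (Ring.inverse (wR R w) y) = y := fun y =>
      congrArg (fun B : Z →L[ℂ] Z => B y) (Ring.mul_inverse_cancel _ hRu)
    have hwRa : ∀ f y, wR R' w (j₁ f + j₂ y) =
        j₁ (w • f - (N (f - P f) + c₀ • P f) - (N (X y) + B y - c₀ • X y)) +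
          j₂ (w • y - R y) := by
      intro f y
      show w • (j₁ f + j₂ y) - R' (j₁ f + j₂ y) = _
      rw [hcoord]
      simp only [map_sub, map_add, map_smul, smul_add]
      abel
    rw [ContinuousLinearMap.isUnit_iff_bijective]
    constructor
    · rw [injective_iff_map_eq_zero]
      intro h hh
      have e0 := T.res h
      rw [← e0, hwRa] at hh
      have e1 := congrArg q₂ hh
      rw [map_add, T.i21, T.i22, zero_add, map_zero] at e1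
      have e2 : q₂ h = 0 := by
        rw [← hRi1 (q₂ h), e1, map_zero]
      have e3 := congrArg q₁ hh
      rw [map_add, T.i11, T.i12, add_zero, map_zero, e2, map_zero, map_zero, map_zero, smul_zero,
        add_zero, sub_zero, sub_zero] at e3
      have e4 : q₁ h = 0 := by
        rw [← hI1 (q₁ h), e3, map_zero]
      rw [← e0, e2, e4, map_zero, map_zero, add_zero]
    · intro h
      obtain ⟨y, hy⟩ : ∃ y, y = Ring.inverse (wR R w) (q₂ h) := ⟨_, rfl⟩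
      refine ⟨j₁ (I (q₁ h + (N (X y) + B y - c₀ • X y))) + j₂ y, ?_⟩
      rw [hwRa, hI2, add_sub_cancel_right, hy, hRi2, T.res]

end Pool.Agent.N812.WO
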