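import Pool.Agent.N812.WO.Fin4

/-!
# Operators with a normal block: local splitting
-/

set_option autoImplicit false

namespace Pool.Agent.N812.WO

open MeasureTheory Set Metric Filter Topology
open Pool.Agent.N812.IS
open scoped InnerProductSpace ENNReal NNReal ComplexConjugate
open ContinuousLinearMap (adjoint)

variable {S : Type} [MeasurableSpace S] {μ : Measure S} {φ : S → ℂ}
  {H Z₀ Z : Type} [NormedAddCommGroup H] [InnerProductSpace ℂ H] [CompleteSpace H]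
  [NormedAddCommGroup Z₀] [InnerProductSpace ℂ Z₀] [CompleteSpace Z₀]
  [NormedAddCommGroup Z] [InnerProductSpace ℂ Z] [CompleteSpace Z]

/-! ### the dual Sylvester equation -/

lemma sylv' {Y : Type} [NormedAddCommGroup Y] [NormedSpace ℂ Y] [CompleteSpace Y]
    (N P M₁ : Y →L[ℂ] Y) (C : Y →L[ℂ] Z₀) (R Q₀ : Z₀ →L[ℂ] Z₀) (l : ℂ)
    (h1 : ∀ f, P (P f) = P f)
    (h2 : ∀ f, P (N f) = M₁ f + l • P f) (h3 : ∀ f, M₁ (P f) = M₁ f) (h4 : ‖M₁‖ * ‖Q₀‖ < 1)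
    (h5 : ∀ y, R (Q₀ y) - l • Q₀ y = y) :
    ∃ X : Y →L[ℂ] Z₀, (∀ y, X (P y) = X y) ∧ ∀ y, R (X y) - X (N y) = -C (P y) := by
  set F : (Y →L[ℂ] Z₀) → (Y →L[ℂ] Z₀) := fun X => Q₀.comp (X.comp M₁) - Q₀.comp (C.comp P) with hF
  have hc : ContractingWith (‖M₁‖₊ * ‖Q₀‖₊) F := by
    refine ⟨by exact_mod_cast h4, LipschitzWith.of_dist_le_mul fun X Y => ?_⟩
    rw [dist_eq_norm, dist_eq_norm]
    have e : F X - F Y = Q₀.comp ((X - Y).comp M₁) := by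
      ext y
      simp only [hF, ContinuousLinearMap.sub_apply,
        ContinuousLinearMap.comp_apply, map_sub]
      abel
    rw [e]
    refine (ContinuousLinearMap.opNorm_comp_le _ _).trans ?_
    push_cast
    calc ‖Q₀‖ * ‖(X - Y).comp M₁‖ ≤ ‖Q₀‖ * (‖X - Y‖ * ‖M₁‖) :=
          mul_le_mul_of_nonneg_left (ContinuousLinearMap.opNorm_comp_le _ _) (norm_nonneg _)
      _ = ‖M₁‖ * ‖Q₀‖ * ‖X - Y‖ := by ring
  obtain ⟨X, hX⟩ : ∃ X, F X = X := ⟨_, hc.fixedPoint_isFixedPt⟩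
  have hXy : ∀ y, Q₀ (X (M₁ y)) - Q₀ (C (P y)) = X y := fun y => by
    conv_rhs => rw [← hX]
    rfl
  have hP : ∀ y, X (P y) = X y := fun y => by
    rw [← hXy, h1, h3, hXy]
  refine ⟨X, hP, fun y => ?_⟩
  have e1 : R (X y) - l • X y = X (M₁ y) - C (P y) := by
    have e := h5 (X (M₁ y) - C (P y))
    rw [map_sub Q₀, hXy] at e
    exact e
  have e2 : X (N y) = X (M₁ y) + l • X y := by
    rw [← hP (N y), h2, map_add, map_smul, hP]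
  rw [e2]
  rw [sub_eq_iff_eq_add] at e1
  rw [e1]
  abel

/-! ### triangular operators -/

/-- `A` is the triangular operator with the diagonal entries `R₀`, `N`, `R` -/
structure Tr3 (μ : Measure S) (φ : S → ℂ) (A : H →L[ℂ] H) (R₀ : Z₀ →L[ℂ] Z₀)
    (C : Lp ℂ 2 μ →L[ℂ] Z₀) (N : Lp ℂ 2 μ →L[ℂ] Lp ℂ 2 μ) (B₀ : Z →L[ℂ] Z₀)
    (B : Z →L[ℂ] Lp ℂ 2 μ) (R : Z →L[ℂ] Z) (j₀ : Z₀ →L[ℂ] H) (j₁ : Lp ℂ 2 μ →L[ℂ] H)
    (j₂ : Z →L[ℂ] H) (q₀ : H →L[ℂ] Z₀) (q₁ : H →L[ℂ] Lp ℂ 2 μ) (q₂ : H →L[ℂ] Z) : Prop where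
  mul : ∀ g : Lp ℂ 2 μ, N g =ᵐ[μ] fun s => φ s * g s
  i00 : ∀ x, q₀ (j₀ x) = x
  i11 : ∀ g, q₁ (j₁ g) = g
  i22 : ∀ x, q₂ (j₂ x) = x
  i01 : ∀ g, q₀ (j₁ g) = 0
  i02 : ∀ x, q₀ (j₂ x) = 0
  i10 : ∀ x, q₁ (j₀ x) = 0
  i12 : ∀ x, q₁ (j₂ x) = 0
  i20 : ∀ x, q₂ (j₀ x) = 0
  i21 : ∀ g, q₂ (j₁ g) = 0
  res : ∀ y, j₀ (q₀ y) + j₁ (q₁ y) + j₂ (q₂ y) = y
  op0 : ∀ x, A (j₀ x) = j₀ (R₀ x)
  op1 : ∀ g, A (j₁ g) = j₀ (C g) + j₁ (N g)
  op2 : ∀ x, A (j₂ x) = j₀ (B₀ x) + j₁ (B x) + j₂ (R x)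

variable {A : H →L[ℂ] H} {R₀ : Z₀ →L[ℂ] Z₀} {C : Lp ℂ 2 μ →L[ℂ] Z₀}
    {N : Lp ℂ 2 μ →L[ℂ] Lp ℂ 2 μ} {B₀ : Z →L[ℂ] Z₀} {B : Z →L[ℂ] Lp ℂ 2 μ}
    {R : Z →L[ℂ] Z} {j₀ : Z₀ →L[ℂ] H} {j₁ : Lp ℂ 2 μ →L[ℂ] H} {j₂ : Z →L[ℂ] H}
    {q₀ : H →L[ℂ] Z₀} {q₁ : H →L[ℂ] Lp ℂ 2 μ} {q₂ : H →L[ℂ] Z}

theorem Tr3.dg (T : Tr3 μ φ A R₀ C N B₀ B R j₀ j₁ j₂ q₀ q₁ q₂) (hφ : Measurable φ)
    (hb : ∃ b : ℝ≥0, ∀ s, ‖φ s‖ ≤ b) {l : ℂ} (hl0 : l ∉ spectrum ℂ R₀) (hl : l ∉ spectrum ℂ R) :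
    ∃ (ρ : ℝ) (R' : H →L[ℂ] H) (i₁ : Lp ℂ 2 μ →L[ℂ] H) (p₁ : H →L[ℂ] Lp ℂ 2 μ)
      (i₂ p₂ : H →L[ℂ] H), 0 < ρ ∧ Dg μ φ (φ ⁻¹' ball l ρ) A N R' i₁ p₁ i₂ p₂ ∧
      ∀ w ∈ ball l ρ, w ∉ spectrum ℂ R₀ → w ∉ spectrum ℂ R → IsUnit (wR R' w) := by
  classical
  obtain ⟨b, hb⟩ := hb
  -- the inverses of `R - l` and `R₀ - l`
  obtain ⟨Q₀, hQ₀⟩ : ∃ Q₀ : Z →L[ℂ] Z, ∀ y, Q₀ (R y - l • y) = y := by
    refine ⟨-Ring.inverse (wR R l), fun y => ?_⟩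
    have h3 := congrArg (fun B : Z →L[ℂ] Z => B y) (Ring.inverse_mul_cancel _ (unit_of hl))
    change Ring.inverse (wR R l) (l • y - R y) = y at h3
    rw [ContinuousLinearMap.neg_apply, ← map_neg, neg_sub, h3]
  obtain ⟨Q₁, hQ₁⟩ : ∃ Q₁ : Z₀ →L[ℂ] Z₀, ∀ y, R₀ (Q₁ y) - l • Q₁ y = y := by
    refine ⟨-Ring.inverse (wR R₀ l), fun y => ?_⟩
    have h3 := congrArg (fun B : Z₀ →L[ℂ] Z₀ => B y) (Ring.mul_inverse_cancel _ (unit_of hl0))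
    change l • Ring.inverse (wR R₀ l) y - R₀ (Ring.inverse (wR R₀ l) y) = y at h3
    rw [ContinuousLinearMap.neg_apply, map_neg, smul_neg, sub_neg_eq_add, neg_add_eq_sub, h3]
  obtain ⟨ρ, hρ, hρQ, hρQ1⟩ : ∃ ρ : ℝ≥0, 0 < ρ ∧ ρ * ‖Q₀‖ < 1 ∧ ρ * ‖Q₁‖ < 1 := by
    refine ⟨⟨(‖Q₀‖ + ‖Q₁‖ + 1)⁻¹, by positivity⟩, ?_, ?_, ?_⟩
    · rw [← NNReal.coe_pos]
      show 0 < (‖Q₀‖ + ‖Q₁‖ + 1)⁻¹
      positivity
    · show (‖Q₀‖ + ‖Q₁‖ + 1)⁻¹ * ‖Q₀‖ < 1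
      rw [inv_mul_lt_iff₀ (by positivity)]
      linarith [norm_nonneg Q₁]
    · show (‖Q₀‖ + ‖Q₁‖ + 1)⁻¹ * ‖Q₁‖ < 1
      rw [inv_mul_lt_iff₀ (by positivity)]
      linarith [norm_nonneg Q₀]
  set D₀ : Set S := φ ⁻¹' ball l ρ with hD₀
  have hDm : MeasurableSet D₀ := hφ measurableSet_ball
  -- the projection
  set P : Lp ℂ 2 μ →L[ℂ] Lp ℂ 2 μ := Mu μ (D₀.indicator fun _ => 1) (ind_meas hDm) 1
    (ind_le D₀) with hP
  have hPa : ∀ F : Lp ℂ 2 μ, P F =ᵐ[μ] fun s => D₀.indicator (fun _ => (1:ℂ)) s * F s :=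
    fun F => Mu_ae _ _ _ _ F
  have hm1 : Measurable fun s => D₀.indicator (fun s => φ s - l) s :=
    (hφ.sub_const l).indicator hDm
  have hm1b : ∀ s, ‖D₀.indicator (fun s => φ s - l) s‖ ≤ ρ := by
    intro s
    by_cases hs : s ∈ D₀
    · rw [indicator_of_mem hs, ← dist_eq_norm]
      exact (mem_ball.1 hs).le
    · rw [indicator_of_notMem hs, norm_zero]
      exact ρ.2
  set M₁ : Lp ℂ 2 μ →L[ℂ] Lp ℂ 2 μ := Mu μ (D₀.indicator fun s => φ s - l) hm1 ρ hm1b with hM₁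
  have hM1a : ∀ F : Lp ℂ 2 μ, M₁ F =ᵐ[μ] fun s => D₀.indicator (fun s => φ s - l) s * F s :=
    fun F => Mu_ae _ _ _ _ F
  have hPP : ∀ f, P (P f) = P f := by
    intro f
    apply Lp.ext
    filter_upwards [hPa (P f), hPa f] with s h1 h2
    rw [h1, h2]
    by_cases hs : s ∈ D₀
    · simp [indicator_of_mem hs]
    · simp [indicator_of_notMem hs]
  have hNP : ∀ f, N (P f) = M₁ f + l • P f := by
    intro f
    apply Lp.ext
    filter_upwards [T.mul (P f), hPa f, hM1a f, Lp.coeFn_add (M₁ f) (l • P f),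
      Lp.coeFn_smul l (P f)] with s h1 h2 h3 h4 h5
    rw [h1, h4, Pi.add_apply, h5, Pi.smul_apply, h2, h3]
    by_cases hs : s ∈ D₀
    · simp only [indicator_of_mem hs, smul_eq_mul]
      ring
    · simp [indicator_of_notMem hs]
  have hPM : ∀ f, P (M₁ f) = M₁ f := by
    intro f
    apply Lp.ext
    filter_upwards [hPa (M₁ f), hM1a f] with s h1 h2
    rw [h1, h2]
    by_cases hs : s ∈ D₀
    · simp [indicator_of_mem hs]
    · simp [indicator_of_notMem hs]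
  have hMP : ∀ f, M₁ (P f) = M₁ f := by
    intro f
    apply Lp.ext
    filter_upwards [hPa f, hM1a f, hM1a (P f)] with s h1 h2 h3
    rw [h3, h2, h1]
    by_cases hs : s ∈ D₀
    · simp [indicator_of_mem hs]
    · simp [indicator_of_notMem hs]
  have hPN : ∀ f, P (N f) = N (P f) := by
    intro f
    apply Lp.ext
    filter_upwards [hPa (N f), hPa f, T.mul f, T.mul (P f)] with s h1 h2 h3 h4
    rw [h1, h4, h2, h3]
    ring
  obtain ⟨X, hPX, hXs⟩ := sylv N P M₁ B R Q₀ l hPP hNP hPM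
    (lt_of_le_of_lt (mul_le_mul_of_nonneg_right (Mu_norm _ _ _ _) (norm_nonneg _)) hρQ) hQ₀
  obtain ⟨Y, hYP, hYs⟩ := sylv' N P M₁ C R₀ Q₁ l hPP (fun f => by rw [hPN, hNP]) hMP
    (lt_of_le_of_lt (mul_le_mul_of_nonneg_right (Mu_norm _ _ _ _) (norm_nonneg _)) hρQ1) hQ₁
  -- the decomposition
  set i₁ : Lp ℂ 2 μ →L[ℂ] H := j₁.comp P + j₀.comp Y with hi₁
  set p₁ : H →L[ℂ] Lp ℂ 2 μ := P.comp q₁ - X.comp q₂ with hp₁
  have hip : ∀ g, p₁ (i₁ g) = P g := by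
    intro g
    show P (q₁ (j₁ (P g) + j₀ (Y g))) - X (q₂ (j₁ (P g) + j₀ (Y g))) = P g
    rw [map_add q₁, map_add q₂, T.i11, T.i10, T.i21, T.i20, add_zero, add_zero, map_zero,
      sub_zero, hPP]
  have hPp : ∀ y, P (p₁ y) = p₁ y := by
    intro y
    show P (P (q₁ y) - X (q₂ y)) = P (q₁ y) - X (q₂ y)
    rw [map_sub, hPP, hPX]
  have ha1 : ∀ g, A (i₁ g) = i₁ (N g) := by
    intro g
    show A (j₁ (P g) + j₀ (Y g)) = j₁ (P (N g)) + j₀ (Y (N g))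
    have h6 := hYs g
    rw [sub_eq_iff_eq_add] at h6
    rw [map_add, T.op1, T.op0, h6, map_add, map_neg, hPN]
    abel
  have hAq : ∀ y, q₁ (A y) = N (q₁ y) + B (q₂ y) ∧ q₂ (A y) = R (q₂ y) := by
    intro y
    have e : A y = j₀ (R₀ (q₀ y) + C (q₁ y) + B₀ (q₂ y)) + j₁ (N (q₁ y) + B (q₂ y)) +
        j₂ (R (q₂ y)) := by
      conv_lhs => rw [← T.res y, map_add, map_add, T.op0, T.op1, T.op2]
      simp only [map_add]
      abel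
    rw [e]
    constructor
    · rw [map_add q₁, map_add q₁, T.i10, T.i11, T.i12, add_zero, zero_add]
    · rw [map_add q₂, map_add q₂, T.i20, T.i21, T.i22, zero_add, zero_add]
  have hb1 : ∀ y, p₁ (A y) = N (p₁ y) := by
    intro y
    show P (q₁ (A y)) - X (q₂ (A y)) = N (P (q₁ y) - X (q₂ y))
    have h6 := hXs (q₂ y)
    rw [sub_eq_iff_eq_add] at h6
    rw [(hAq y).1, (hAq y).2, map_add, map_sub, hPN, h6]
    abel
  set G₁ : H →L[ℂ] H := i₁.comp p₁ with hG1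
  have hGG : ∀ y, G₁ (G₁ y) = G₁ y := by
    intro y
    show i₁ (p₁ (i₁ (p₁ y))) = i₁ (p₁ y)
    rw [hip, hPp]
  have hAG : ∀ y, A (G₁ y) = G₁ (A y) := by
    intro y
    show A (i₁ (p₁ y)) = i₁ (p₁ (A y))
    rw [ha1, hb1]
  set c₀ : ℂ := l + ρ with hc₀
  set R' : H →L[ℂ] H := A.comp (1 - G₁) + c₀ • G₁ with hR'
  have hR'a : ∀ y, R' y = A (y - G₁ y) + c₀ • G₁ y := fun y => rfl
  refine ⟨ρ, R', i₁, p₁, 1 - G₁, 1 - G₁, hρ, ⟨T.mul, fun g => ?_, fun y => ?_, ha1, fun x => ?_,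
    hb1, fun y => ?_⟩, fun w hw hwR0 hwR => ?_⟩
  · rw [hip]
    exact hPa g
  · show G₁ y + ((y - G₁ y) - G₁ (y - G₁ y)) = y
    rw [map_sub, hGG]
    abel
  · show A (x - G₁ x) = R' x - G₁ (R' x)
    rw [hR'a, map_add, ← hAG, map_sub G₁, hGG, map_smul, hGG, sub_self, map_zero]
    abel
  · show A y - G₁ (A y) = R' (y - G₁ y)
    rw [hR'a, map_sub G₁, hGG, sub_self, smul_zero, sub_zero, add_zero, map_sub, hAG]
  · -- invertibility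
    obtain ⟨C₁, hC₁⟩ : ∃ C₁ : Lp ℂ 2 μ →L[ℂ] Z₀, ∀ f, C₁ f = C (f - P f) - R₀ (Y f) + c₀ • Y f :=
      ⟨C.comp (1 - P) - R₀.comp Y + c₀ • Y, fun f => rfl⟩
    obtain ⟨E₁, hE₁⟩ : ∃ E₁ : Z →L[ℂ] Z₀, ∀ y, E₁ y =
        R₀ (Y (X y)) + C (X y) + B₀ y - c₀ • Y (X y) :=
      ⟨R₀.comp (Y.comp X) + C.comp X + B₀ - c₀ • Y.comp X, fun f => rfl⟩
    obtain ⟨B₁, hB₁⟩ : ∃ B₁ : Z →L[ℂ] Lp ℂ 2 μ, ∀ y, B₁ y = N (X y) + B y - c₀ • X y :=
      ⟨N.comp X + B - c₀ • X, fun f => rfl⟩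
    have hcoord : ∀ z f y, R' (j₀ z + j₁ f + j₂ y) =
        j₀ (R₀ z + C₁ f + E₁ y) + j₁ (N (f - P f) + c₀ • P f + B₁ y) + j₂ (R y) := by
      intro z f y
      have e1 : G₁ (j₀ z + j₁ f + j₂ y) = j₁ (P f - X y) + j₀ (Y f - Y (X y)) := by
        show j₁ (P (P (q₁ (j₀ z + j₁ f + j₂ y)) - X (q₂ (j₀ z + j₁ f + j₂ y)))) +
          j₀ (Y (P (q₁ (j₀ z + j₁ f + j₂ y)) - X (q₂ (j₀ z + j₁ f + j₂ y)))) =
          j₁ (P f - X y) + j₀ (Y f - Y (X y))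
        have k1 : q₁ (j₀ z + j₁ f + j₂ y) = f := by
          rw [map_add q₁, map_add q₁, T.i10, T.i11, T.i12, add_zero, zero_add]
        have k2 : q₂ (j₀ z + j₁ f + j₂ y) = y := by
          rw [map_add q₂, map_add q₂, T.i20, T.i21, T.i22, zero_add, zero_add]
        rw [k1, k2, map_sub P, hPP, hPX, map_sub Y, hYP]
      have e2 : j₀ z + j₁ f + j₂ y - G₁ (j₀ z + j₁ f + j₂ y) =
          j₀ (z - Y f + Y (X y)) + j₁ (f - P f + X y) + j₂ y := by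
        rw [e1]
        simp only [map_sub, map_add]
        abel
      rw [hR'a, e2, e1, map_add A, map_add A, T.op0, T.op1, T.op2, hC₁, hE₁, hB₁]
      simp only [map_sub, map_add, map_smul, smul_sub, smul_add]
      abel
    have hgap : ∀ s, ρ - ‖w - l‖ ≤ ‖w - D₀.piecewise (fun _ => c₀) φ s‖ := by
      intro s
      have h7 : (ρ : ℝ) ≤ ‖l - D₀.piecewise (fun _ => c₀) φ s‖ := by
        by_cases hs : s ∈ D₀
        · rw [piecewise_eq_of_mem _ _ _ hs, hc₀]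
          simp
        · rw [piecewise_eq_of_notMem _ _ _ hs]
          have h8 : φ s ∉ ball l ρ := hs
          rw [mem_ball, not_lt, dist_eq_norm, norm_sub_rev] at h8
          exact h8
      have h8 : ‖l - D₀.piecewise (fun _ => c₀) φ s‖ ≤
          ‖l - w‖ + ‖w - D₀.piecewise (fun _ => c₀) φ s‖ := norm_sub_le_norm_sub_add_norm_sub _ _ _
      rw [norm_sub_rev l w] at h8
      linarith
    have hw' : 0 < ρ - ‖w - l‖ := by
      rw [mem_ball, dist_eq_norm] at hw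
      linarith
    have hpm : Measurable (D₀.piecewise (fun _ => c₀) φ) := measurable_const.piecewise hDm hφ
    have hvb : ∀ s, ‖(w - D₀.piecewise (fun _ => c₀) φ s)⁻¹‖ ≤
        (⟨(ρ - ‖w - l‖)⁻¹, by positivity⟩ : ℝ≥0) := by
      intro s
      rw [norm_inv]
      exact inv_anti₀ hw' (hgap s)
    set I : Lp ℂ 2 μ →L[ℂ] Lp ℂ 2 μ := Mu μ (fun s => (w - D₀.piecewise (fun _ => c₀) φ s)⁻¹)
      (hpm.const_sub w).inv _ hvb with hI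
    have hIa : ∀ F : Lp ℂ 2 μ, I F =ᵐ[μ] fun s => (w - D₀.piecewise (fun _ => c₀) φ s)⁻¹ * F s :=
      fun F => Mu_ae _ _ _ _ F
    have hne : ∀ s, w - D₀.piecewise (fun _ => c₀) φ s ≠ 0 := fun s => by
      rw [← norm_pos_iff]
      exact lt_of_lt_of_le hw' (hgap s)
    have hN'' : ∀ f : Lp ℂ 2 μ, (N (f - P f) + c₀ • P f : Lp ℂ 2 μ) =ᵐ[μ]
        fun s => D₀.piecewise (fun _ => c₀) φ s * f s := by
      intro f
      filter_upwards [Lp.coeFn_add (N (f - P f)) (c₀ • P f), Lp.coeFn_smul c₀ (P f),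
        T.mul (f - P f), Lp.coeFn_sub f (P f), hPa f] with s g1 g2 g3 g4 g5
      rw [g1, Pi.add_apply, g2, Pi.smul_apply, g3, g4, Pi.sub_apply, g5]
      by_cases hs : s ∈ D₀
      · rw [piecewise_eq_of_mem _ _ _ hs]
        simp [indicator_of_mem hs]
      · rw [piecewise_eq_of_notMem _ _ _ hs]
        simp [indicator_of_notMem hs]
    have hI1 : ∀ f : Lp ℂ 2 μ, I (w • f - (N (f - P f) + c₀ • P f)) = f := by
      intro f
      apply Lp.ext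
      filter_upwards [hIa (w • f - (N (f - P f) + c₀ • P f)), hN'' f,
        Lp.coeFn_sub (w • f) (N (f - P f) + c₀ • P f), Lp.coeFn_smul w f] with s g1 g2 g3 g4
      rw [g1, g3, Pi.sub_apply, g2, g4, Pi.smul_apply, smul_eq_mul, ← sub_mul, ← mul_assoc,
        inv_mul_cancel₀ (hne s), one_mul]
    have hI2 : ∀ f : Lp ℂ 2 μ, w • I f - (N (I f - P (I f)) + c₀ • P (I f)) = f := by
      intro f
      apply Lp.ext
      filter_upwards [hIa f, hN'' (I f),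
        Lp.coeFn_sub (w • I f) (N (I f - P (I f)) + c₀ • P (I f)), Lp.coeFn_smul w (I f)]
        with s g1 g2 g3 g4
      rw [g3, Pi.sub_apply, g2, g4, Pi.smul_apply, smul_eq_mul, ← sub_mul, g1, ← mul_assoc,
        mul_inv_cancel₀ (hne s), one_mul]
    have hRu := unit_of hwR
    have hRi1 : ∀ y, Ring.inverse (wR R w) (w • y - R y) = y := fun y =>
      congrArg (fun B : Z →L[ℂ] Z => B y) (Ring.inverse_mul_cancel _ hRu)
    have hRi2 : ∀ y, w • Ring.inverse (wR R w) y - R (Ring.inverse (wR R w) y) = y := fun y =>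
      congrArg (fun B : Z →L[ℂ] Z => B y) (Ring.mul_inverse_cancel _ hRu)
    have hRu0 := unit_of hwR0
    have hRj1 : ∀ y, Ring.inverse (wR R₀ w) (w • y - R₀ y) = y := fun y =>
      congrArg (fun B : Z₀ →L[ℂ] Z₀ => B y) (Ring.inverse_mul_cancel _ hRu0)
    have hRj2 : ∀ y, w • Ring.inverse (wR R₀ w) y - R₀ (Ring.inverse (wR R₀ w) y) = y := fun y =>
      congrArg (fun B : Z₀ →L[ℂ] Z₀ => B y) (Ring.mul_inverse_cancel _ hRu0)
    have hwRa : ∀ z f y, wR R' w (j₀ z + j₁ f + j₂ y) =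
        j₀ (w • z - R₀ z - C₁ f - E₁ y) + j₁ (w • f - (N (f - P f) + c₀ • P f) - B₁ y) +
          j₂ (w • y - R y) := by
      intro z f y
      show w • (j₀ z + j₁ f + j₂ y) - R' (j₀ z + j₁ f + j₂ y) = _
      rw [hcoord]
      simp only [map_sub, map_add, map_smul, smul_add]
      abel
    have hq : ∀ z f y, q₀ (j₀ z + j₁ f + j₂ y) = z ∧ q₁ (j₀ z + j₁ f + j₂ y) = f ∧
        q₂ (j₀ z + j₁ f + j₂ y) = y := by
      intro z f y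
      refine ⟨?_, ?_, ?_⟩
      · rw [map_add q₀, map_add q₀, T.i00, T.i01, T.i02, add_zero, add_zero]
      · rw [map_add q₁, map_add q₁, T.i10, T.i11, T.i12, add_zero, zero_add]
      · rw [map_add q₂, map_add q₂, T.i20, T.i21, T.i22, zero_add, zero_add]
    rw [ContinuousLinearMap.isUnit_iff_bijective]
    constructor
    · rw [injective_iff_map_eq_zero]
      intro h hh
      have e0 := T.res h
      rw [← e0, hwRa] at hh
      have e1 := congrArg q₂ hh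
      rw [(hq _ _ _).2.2, map_zero] at e1
      have e2 : q₂ h = 0 := by
        rw [← hRi1 (q₂ h), e1, map_zero]
      have e3 := congrArg q₁ hh
      rw [(hq _ _ _).2.1, map_zero, e2, map_zero, sub_zero] at e3
      have e4 : q₁ h = 0 := by
        rw [← hI1 (q₁ h), e3, map_zero]
      have e5 := congrArg q₀ hh
      rw [(hq _ _ _).1, map_zero, e2, e4, map_zero, map_zero, sub_zero, sub_zero] at e5
      have e6 : q₀ h = 0 := by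
        rw [← hRj1 (q₀ h), e5, map_zero]
      rw [← e0, e2, e4, e6, map_zero, map_zero, map_zero, add_zero, add_zero]
    · intro h
      obtain ⟨y, hy⟩ : ∃ y, y = Ring.inverse (wR R w) (q₂ h) := ⟨_, rfl⟩
      obtain ⟨f, hf⟩ : ∃ f, f = I (q₁ h + B₁ y) := ⟨_, rfl⟩
      refine ⟨j₀ (Ring.inverse (wR R₀ w) (q₀ h + C₁ f + E₁ y)) + j₁ f + j₂ y, ?_⟩
      rw [hwRa, hRj2]
      have e1 : w • f - (N (f - P f) + c₀ • P f) = q₁ h + B₁ y := by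
        rw [hf]
        exact hI2 _
      have e2 : w • y - R y = q₂ h := by
        rw [hy]
        exact hRi2 _
      have e3 : q₀ h + C₁ f + E₁ y - C₁ f - E₁ y = q₀ h := by abel
      rw [e1, e2, e3, add_sub_cancel_right, T.res]

end Pool.Agent.N812.WO
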