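import Pool.Agent.N812.WO.Dat

/-!
# Perturbations of multiplication operators: the vectors `Z(ξ)`
-/

set_option autoImplicit false

namespace Pool.Agent.N812.WO

open MeasureTheory Set Metric Filter Topology
open Pool.Agent.N812.IS
open scoped InnerProductSpace ENNReal NNReal ComplexConjugate

variable {S : Type} [MeasurableSpace S] {μ : Measure S} {φ : S → ℂ} {E : Set S} {V : S → l2}
  {U : ℕ → S → l2} {A B : ℕ → ℂ → ℂ} {n f h a : ℕ → ℝ≥0}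

/-- bounded measurable fields of vectors -/
structure Bx (ξ : S → l2) (M : ℝ≥0) : Prop where
  meas : StronglyMeasurable ξ
  bd : ∀ z, ‖ξ z‖ ≤ M

lemma Bx.ebd {ξ : S → l2} {M : ℝ≥0} (hx : Bx ξ M) (z : S) : ‖ξ z‖ₑ ≤ M := by
  rw [← ofReal_norm]
  exact (ENNReal.ofReal_le_ofReal (hx.bd z)).trans (le_of_eq (ENNReal.ofReal_coe_nnreal))

lemma inv_le_inv (x : ℂ) : ‖x⁻¹‖ₑ ≤ ‖x‖ₑ⁻¹ := by
  by_cases hx : x = 0
  · rw [hx]
    simp
  · rw [enorm_inv hx]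

/-- Minkowski's inequality for `L²` -/
lemma mink {f g : S → ℝ≥0∞} (hf : AEMeasurable f μ) (hg : AEMeasurable g μ) {x y : ℝ≥0∞}
    (hx : ∫⁻ s, f s ^ 2 ∂μ ≤ x ^ 2) (hy : ∫⁻ s, g s ^ 2 ∂μ ≤ y ^ 2) :
    ∫⁻ s, (f s + g s) ^ 2 ∂μ ≤ (x + y) ^ 2 := by
  have e : ∀ s, (f s + g s) ^ 2 = f s ^ 2 + (2 * (f s * g s) + g s ^ 2) := fun s => by ring
  simp_rw [e]
  have hfg : AEMeasurable (fun s => 2 * (f s * g s)) μ := (hf.mul hg).const_mul 2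
  rw [lintegral_add_left' (hf.pow_const 2), lintegral_add_left' hfg,
    lintegral_const_mul' _ _ (by norm_num)]
  calc ∫⁻ s, f s ^ 2 ∂μ + (2 * ∫⁻ s, f s * g s ∂μ + ∫⁻ s, g s ^ 2 ∂μ)
      ≤ x ^ 2 + (2 * (x * y) + y ^ 2) :=
        add_le_add hx (add_le_add (mul_le_mul' le_rfl (cs hf hg hx hy)) hy)
    _ = (x + y) ^ 2 := by ring

/-- the function `Z k ξ` -/
noncomputable def zf (μ : Measure S) (φ : S → ℂ) (E : Set S) (U : ℕ → S → l2) (k : ℕ)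
    (ξ : S → l2) (w : S) : ℂ := ∫ z in E, (φ z - φ w)⁻¹ * ⟪U k w, ξ z⟫_ℂ ∂μ

/-- the bounds -/
noncomputable def Rk (μ : Measure S) (E : Set S) (n f h a : ℕ → ℝ≥0) (k : ℕ) : ℝ≥0∞ :=
  n k * h k + f k * (a k * (μ E) ^ (1 / 2 : ℝ))

section

variable [SigmaFinite μ]

lemma Dat.zjm (D : Dat μ φ E V U A B n f h a) (k : ℕ) {ξ : S → l2} (hx : StronglyMeasurable ξ) :
    StronglyMeasurable fun p : S × S => (φ p.2 - φ p.1)⁻¹ * ⟪U k p.1, ξ p.2⟫_ℂ :=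
  (((D.phi.comp measurable_snd).sub (D.phi.comp measurable_fst)).inv.stronglyMeasurable).mul
    (((D.Um k).comp_measurable measurable_fst).inner (hx.comp_measurable measurable_snd))

lemma Dat.zf_meas (D : Dat μ φ E V U A B n f h a) (k : ℕ) {ξ : S → l2}
    (hx : StronglyMeasurable ξ) : StronglyMeasurable (zf μ φ E U k ξ) :=
  (D.zjm k hx).integral_prod_right

lemma Dat.zf_le (D : Dat μ φ E V U A B n f h a) (k : ℕ) {ξ : S → l2} {M : ℝ≥0} (hx : Bx ξ M)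
    (w : S) : ‖zf μ φ E U k ξ w‖ₑ ≤ n k * (‖U k w‖ₑ * M) +
      f k * (∫⁻ z in E, ‖⟪U k w, ξ z⟫_ℂ‖ₑ ^ 2 ∂μ) ^ (1 / 2 : ℝ) := by
  have hin : Measurable fun z => ‖⟪U k w, ξ z⟫_ℂ‖ₑ :=
    ((stronglyMeasurable_const (b := U k w)).inner hx.meas).enorm
  calc ‖zf μ φ E U k ξ w‖ₑ ≤ ∫⁻ z in E, ‖(φ z - φ w)⁻¹ * ⟪U k w, ξ z⟫_ℂ‖ₑ ∂μ :=
        enorm_integral_le_lintegral_enorm _
    _ ≤ ∫⁻ z in E, (‖A k (φ z - φ w)‖ₑ * (‖U k w‖ₑ * M) +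
          ‖B k (φ z - φ w)‖ₑ * ‖⟪U k w, ξ z⟫_ℂ‖ₑ) ∂μ := by
        refine lintegral_mono fun z => ?_
        simp only
        rw [← D.AB k, enorm_mul]
        calc ‖A k (φ z - φ w) + B k (φ z - φ w)‖ₑ * ‖⟪U k w, ξ z⟫_ℂ‖ₑ
            ≤ (‖A k (φ z - φ w)‖ₑ + ‖B k (φ z - φ w)‖ₑ) * ‖⟪U k w, ξ z⟫_ℂ‖ₑ :=
              mul_le_mul' (enorm_add_le _ _) le_rfl
          _ = ‖A k (φ z - φ w)‖ₑ * ‖⟪U k w, ξ z⟫_ℂ‖ₑ +
              ‖B k (φ z - φ w)‖ₑ * ‖⟪U k w, ξ z⟫_ℂ‖ₑ := by ring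
          _ ≤ _ := by
              refine add_le_add (mul_le_mul' le_rfl ?_) le_rfl
              have h1 : ‖⟪U k w, ξ z⟫_ℂ‖ₑ ≤ ‖U k w‖ₑ * ‖ξ z‖ₑ := by
                rw [← ofReal_norm, ← ofReal_norm, ← ofReal_norm,
                  ← ENNReal.ofReal_mul (norm_nonneg _)]
                exact ENNReal.ofReal_le_ofReal (norm_inner_le_norm _ _)
              exact h1.trans (mul_le_mul' le_rfl (hx.ebd z))
    _ = (∫⁻ z in E, ‖A k (φ z - φ w)‖ₑ ∂μ) * (‖U k w‖ₑ * M) +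
          ∫⁻ z in E, ‖B k (φ z - φ w)‖ₑ * ‖⟪U k w, ξ z⟫_ℂ‖ₑ ∂μ := by
        have hm1 : Measurable fun z => ‖A k (φ z - φ w)‖ₑ :=
          ((D.Am k).comp (D.phi.sub_const _)).enorm
        rw [lintegral_add_left (hm1.mul_const _), lintegral_mul_const _ hm1]
    _ ≤ n k * (‖U k w‖ₑ * M) +
          f k * (∫⁻ z in E, ‖⟪U k w, ξ z⟫_ℂ‖ₑ ^ 2 ∂μ) ^ (1 / 2 : ℝ) := by
        refine add_le_add (mul_le_mul' (D.An k w) le_rfl) ?_
        refine cs ((D.Bm k).comp (D.phi.sub_const _)).enorm.aemeasurable hin.aemeasurable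
          (D.Bf k w) ?_
        rw [half_sq]

lemma Dat.gz_meas (D : Dat μ φ E V U A B n f h a) (k : ℕ) {ξ : S → l2}
    (hx : StronglyMeasurable ξ) :
    Measurable fun w => ∫⁻ z in E, ‖⟪U k w, ξ z⟫_ℂ‖ₑ ^ 2 ∂μ := by
  have h1 : Measurable fun p : S × S => ‖⟪U k p.1, ξ p.2⟫_ℂ‖ₑ ^ 2 :=
    (((D.Um k).comp_measurable measurable_fst).inner
      (hx.comp_measurable measurable_snd)).enorm.pow_const 2
  exact h1.lintegral_prod_right'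

lemma Dat.zf_int (D : Dat μ φ E V U A B n f h a) (k : ℕ) {ξ : S → l2} {M : ℝ≥0} (hx : Bx ξ M) :
    ∫⁻ w, ‖zf μ φ E U k ξ w‖ₑ ^ 2 ∂μ ≤ (M * Rk μ E n f h a k) ^ 2 := by
  have h1 := mink (μ := μ) (f := fun w => n k * (‖U k w‖ₑ * M))
    (g := fun w => f k * (∫⁻ z in E, ‖⟪U k w, ξ z⟫_ℂ‖ₑ ^ 2 ∂μ) ^ (1 / 2 : ℝ))
    (x := n k * (h k * M)) (y := f k * (a k * M * (μ E) ^ (1 / 2 : ℝ)))
    (((D.Um k).enorm.mul_const _).const_mul _).aemeasurable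
    (((D.gz_meas k hx.meas).pow_const _).const_mul _).aemeasurable ?_ ?_
  · refine (lintegral_mono fun w => ?_).trans (h1.trans (le_of_eq ?_))
    · exact pow_le_pow_left' (D.zf_le k hx w) 2
    · unfold Rk
      ring
  · simp only [mul_pow]
    rw [lintegral_const_mul' _ _ (ENNReal.pow_ne_top ENNReal.coe_ne_top),
      lintegral_mul_const' _ _ (ENNReal.pow_ne_top ENNReal.coe_ne_top)]
    exact mul_le_mul' le_rfl (mul_le_mul' (D.Uh k) le_rfl)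
  · simp only [mul_pow, half_sq]
    rw [lintegral_const_mul' _ _ (ENNReal.pow_ne_top ENNReal.coe_ne_top)]
    refine mul_le_mul' le_rfl ?_
    rw [lintegral_lintegral_swap]
    · calc ∫⁻ z in E, ∫⁻ w, ‖⟪U k w, ξ z⟫_ℂ‖ₑ ^ 2 ∂μ ∂μ
          ≤ ∫⁻ z in E, ((a k : ℝ≥0∞) * M) ^ 2 ∂μ := by
            refine lintegral_mono fun z => ?_
            refine (D.Ua k (ξ z)).trans (pow_le_pow_left' (mul_le_mul' le_rfl (hx.ebd z)) 2)
        _ = (a k : ℝ≥0∞) ^ 2 * M ^ 2 * μ E := by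
            rw [setLIntegral_const, mul_pow]
    · have h2 : Measurable fun p : S × S => ‖⟪U k p.1, ξ p.2⟫_ℂ‖ₑ ^ 2 :=
        (((D.Um k).comp_measurable measurable_fst).inner
          (hx.meas.comp_measurable measurable_snd)).enorm.pow_const 2
      exact h2.aemeasurable

lemma Dat.Rk_ne (D : Dat μ φ E V U A B n f h a) (k : ℕ) : Rk μ E n f h a k ≠ ⊤ :=
  ENNReal.add_ne_top.2 ⟨ENNReal.mul_ne_top ENNReal.coe_ne_top ENNReal.coe_ne_top,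
    ENNReal.mul_ne_top ENNReal.coe_ne_top (ENNReal.mul_ne_top ENNReal.coe_ne_top
      (ENNReal.rpow_ne_top_of_nonneg (by norm_num) D.Ef))⟩

lemma Dat.Rk_sum (D : Dat μ φ E V U A B n f h a) : ∑' k, Rk μ E n f h a k ≠ ⊤ := by
  have h1 : ∀ k, Rk μ E n f h a k ≤ (1 + (μ E) ^ (1 / 2 : ℝ)) *
      ((h k : ℝ≥0∞) * n k + a k * f k) := by
    intro k
    unfold Rk
    calc (n k : ℝ≥0∞) * h k + f k * (a k * (μ E) ^ (1 / 2 : ℝ))
        = 1 * (h k * n k) + (μ E) ^ (1 / 2 : ℝ) * (a k * f k) := by ring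
      _ ≤ (1 + (μ E) ^ (1 / 2 : ℝ)) * (h k * n k) + (1 + (μ E) ^ (1 / 2 : ℝ)) * (a k * f k) :=
          add_le_add (mul_le_mul' le_self_add le_rfl) (mul_le_mul' le_add_self le_rfl)
      _ = _ := by ring
  refine ne_top_of_le_ne_top ?_ (ENNReal.tsum_le_tsum h1)
  rw [ENNReal.tsum_mul_left]
  exact ENNReal.mul_ne_top (ENNReal.add_ne_top.2 ⟨ENNReal.one_ne_top,
    ENNReal.rpow_ne_top_of_nonneg (by norm_num) D.Ef⟩) D.sum

lemma elp_sq {g : S → ℂ} {x : ℝ≥0∞} (hg : ∫⁻ w, ‖g w‖ₑ ^ 2 ∂μ ≤ x ^ 2) :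
    eLpNorm g 2 μ ≤ x := by
  rw [eLpNorm_eq_lintegral_rpow_enorm_toReal (by norm_num) (by norm_num)]
  have e : (2 : ℝ≥0∞).toReal = 2 := by norm_num
  rw [e]
  simp only [ENNReal.rpow_two]
  refine (ENNReal.rpow_le_rpow hg (by norm_num)).trans (le_of_eq ?_)
  exact sq_half x

lemma Dat.zf_memLp (D : Dat μ φ E V U A B n f h a) (k : ℕ) {ξ : S → l2} {M : ℝ≥0} (hx : Bx ξ M) :
    MemLp (zf μ φ E U k ξ) 2 μ :=
  ⟨(D.zf_meas k hx.meas).aestronglyMeasurable, lt_of_le_of_lt (elp_sq (D.zf_int k hx))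
    (lt_top_iff_ne_top.2 (ENNReal.mul_ne_top ENNReal.coe_ne_top (D.Rk_ne k)))⟩

end

open Classical in
/-- `Z k ξ` as a vector -/
noncomputable def zk (μ : Measure S) (φ : S → ℂ) (E : Set S) (U : ℕ → S → l2) (ξ : S → l2)
    (k : ℕ) : Lp ℂ 2 μ :=
  if h : MemLp (zf μ φ E U k ξ) 2 μ then h.toLp _ else 0

/-- `Z ξ` -/
noncomputable def zt (μ : Measure S) (φ : S → ℂ) (E : Set S) (U : ℕ → S → l2) (ξ : S → l2) :
    Lp ℂ 2 μ := ∑' k, zk μ φ E U ξ k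

section

variable [SigmaFinite μ]

lemma Dat.zk_ae (D : Dat μ φ E V U A B n f h a) (k : ℕ) {ξ : S → l2} {M : ℝ≥0} (hx : Bx ξ M) :
    zk μ φ E U ξ k =ᵐ[μ] zf μ φ E U k ξ := by
  rw [zk, dif_pos (D.zf_memLp k hx)]
  exact MemLp.coeFn_toLp _

lemma Dat.zk_norm (D : Dat μ φ E V U A B n f h a) (k : ℕ) {ξ : S → l2} {M : ℝ≥0} (hx : Bx ξ M) :
    ‖zk μ φ E U ξ k‖ ≤ (M * Rk μ E n f h a k).toReal := by
  rw [zk, dif_pos (D.zf_memLp k hx), Lp.norm_toLp]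
  exact ENNReal.toReal_mono (ENNReal.mul_ne_top ENNReal.coe_ne_top (D.Rk_ne k))
    (elp_sq (D.zf_int k hx))

lemma Dat.zk_summable_norm (D : Dat μ φ E V U A B n f h a) {ξ : S → l2} {M : ℝ≥0} (hx : Bx ξ M) :
    Summable fun k => ‖zk μ φ E U ξ k‖ := by
  have h1 : ∑' k, (M : ℝ≥0∞) * Rk μ E n f h a k ≠ ⊤ := by
    rw [ENNReal.tsum_mul_left]
    exact ENNReal.mul_ne_top ENNReal.coe_ne_top D.Rk_sum
  exact (ENNReal.summable_toReal h1).of_nonneg_of_le (fun k => norm_nonneg _)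
    fun k => D.zk_norm k hx

lemma Dat.zt_hasSum (D : Dat μ φ E V U A B n f h a) {ξ : S → l2} {M : ℝ≥0} (hx : Bx ξ M) :
    HasSum (fun k => zk μ φ E U ξ k) (zt μ φ E U ξ) :=
  (D.zk_summable_norm hx).of_norm.hasSum

lemma Dat.zt_norm (D : Dat μ φ E V U A B n f h a) {ξ : S → l2} {M : ℝ≥0} (hx : Bx ξ M) :
    ‖zt μ φ E U ξ‖ ≤ M * (∑' k, Rk μ E n f h a k).toReal := by
  have h1 : ∑' k, (M : ℝ≥0∞) * Rk μ E n f h a k ≠ ⊤ := by
    rw [ENNReal.tsum_mul_left]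
    exact ENNReal.mul_ne_top ENNReal.coe_ne_top D.Rk_sum
  calc ‖zt μ φ E U ξ‖ ≤ ∑' k, ‖zk μ φ E U ξ k‖ := norm_tsum_le_tsum_norm (D.zk_summable_norm hx)
    _ ≤ ∑' k, (M * Rk μ E n f h a k).toReal :=
        (D.zk_summable_norm hx).tsum_le_tsum (fun k => D.zk_norm k hx) (ENNReal.summable_toReal h1)
    _ = (∑' k, (M : ℝ≥0∞) * Rk μ E n f h a k).toReal :=
        (ENNReal.tsum_toReal_eq fun k => ENNReal.mul_ne_top ENNReal.coe_ne_top (D.Rk_ne k)).symm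
    _ = M * (∑' k, Rk μ E n f h a k).toReal := by
        rw [ENNReal.tsum_mul_left, ENNReal.toReal_mul, ENNReal.coe_toReal]

/-! ### identities -/

lemma Dat.ne_ae (D : Dat μ φ E V U A B n f h a) (w : S) :
    ∀ᵐ z ∂(μ.restrict E), φ z ≠ φ w := by
  obtain ⟨C, hC⟩ := D.pot
  have h1 : ∀ᵐ z ∂(μ.restrict E), ‖φ z - φ w‖ₑ⁻¹ < ⊤ :=
    ae_lt_top (D.phi.sub_const _).enorm.inv (ne_top_of_le_ne_top ENNReal.coe_ne_top (hC w))
  filter_upwards [h1] with z hz heq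
  rw [heq, sub_self] at hz
  simp at hz

lemma Dat.ker_int (D : Dat μ φ E V U A B n f h a) (w : S) :
    Integrable (fun z => (φ z - φ w)⁻¹) (μ.restrict E) := by
  obtain ⟨C, hC⟩ := D.pot
  refine ⟨(D.phi.sub_const _).inv.aestronglyMeasurable, ?_⟩
  rw [hasFiniteIntegral_iff_enorm]
  exact lt_of_le_of_lt (lintegral_mono fun z => inv_le_inv _)
    (lt_of_le_of_lt (hC w) ENNReal.coe_lt_top)

lemma Bx.inner_meas {ξ : S → l2} {M : ℝ≥0} (hx : Bx ξ M) (u : l2) :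
    StronglyMeasurable fun z => ⟪u, ξ z⟫_ℂ := stronglyMeasurable_const.inner hx.meas

lemma Bx.inner_bd {ξ : S → l2} {M : ℝ≥0} (hx : Bx ξ M) (u : l2) (z : S) :
    ‖⟪u, ξ z⟫_ℂ‖ ≤ ‖u‖ * M :=
  (norm_inner_le_norm _ _).trans (mul_le_mul_of_nonneg_left (hx.bd z) (norm_nonneg _))

lemma Dat.zint (D : Dat μ φ E V U A B n f h a) (k : ℕ) {ξ : S → l2} {M : ℝ≥0} (hx : Bx ξ M)
    (w : S) : Integrable (fun z => (φ z - φ w)⁻¹ * ⟪U k w, ξ z⟫_ℂ) (μ.restrict E) :=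
  (D.ker_int w).mul_bdd (hx.inner_meas _).aestronglyMeasurable
    (Eventually.of_forall fun z => hx.inner_bd _ z)

lemma Dat.xi_int (D : Dat μ φ E V U A B n f h a) {ξ : S → l2} {M : ℝ≥0} (hx : Bx ξ M) :
    Integrable ξ (μ.restrict E) := by
  have : IsFiniteMeasure (μ.restrict E) := ⟨by
    rw [Measure.restrict_apply_univ]
    exact lt_top_iff_ne_top.2 D.Ef⟩
  exact (integrable_const (M : ℝ)).mono' hx.meas.aestronglyMeasurable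
    (Eventually.of_forall hx.bd)

lemma Bx.smul {ξ : S → l2} {M : ℝ≥0} (hx : Bx ξ M) {g : S → ℂ} {L : ℝ≥0} (hg : Measurable g)
    (hL : ∀ z, ‖g z‖ ≤ L) : Bx (fun z => g z • ξ z) (L * M) :=
  ⟨hg.stronglyMeasurable.smul hx.meas, fun z => by
    rw [norm_smul, NNReal.coe_mul]
    exact mul_le_mul (hL z) (hx.bd z) (norm_nonneg _) L.2⟩

/-- the kernel identity -/
lemma Dat.zf_step (D : Dat μ φ E V U A B n f h a) (k : ℕ) {ξ : S → l2} {M : ℝ≥0} (hx : Bx ξ M)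
    {c : ℂ} {L : ℝ≥0} (hL : ∀ z, ‖φ z - c‖ ≤ L) (w : S) :
    (φ w - c) * zf μ φ E U k ξ w = zf μ φ E U k (fun z => (φ z - c) • ξ z) w -
      ⟪U k w, ∫ z in E, ξ z ∂μ⟫_ℂ := by
  have hx' := hx.smul (D.phi.sub_const c) hL
  have h1 : ∫ z in E, ⟪U k w, ξ z⟫_ℂ ∂μ = ⟪U k w, ∫ z in E, ξ z ∂μ⟫_ℂ :=
    integral_inner (D.xi_int hx) _
  have h2 : Integrable (fun z => ⟪U k w, ξ z⟫_ℂ) (μ.restrict E) :=
    (D.xi_int hx).const_inner _
  rw [← h1]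
  unfold zf
  rw [← integral_sub (D.zint k hx' w) h2, ← integral_const_mul]
  refine integral_congr_ae ?_
  filter_upwards [D.ne_ae w] with z hz
  have hne : φ z - φ w ≠ 0 := sub_ne_zero.2 hz
  rw [inner_smul_right]
  field_simp
  ring

/-- Fubini's theorem -/
lemma Dat.zf_V (D : Dat μ φ E V U A B n f h a) (k : ℕ) {ξ : S → l2} {M : ℝ≥0} (hx : Bx ξ M) :
    ∫ w, zf μ φ E U k ξ w • V w ∂μ = ∫ z in E, Gk μ φ V U k z (ξ z) ∂μ := by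
  obtain ⟨C, hC⟩ := D.pot
  have e1 : ∀ w, zf μ φ E U k ξ w • V w =
      ∫ z in E, ((φ z - φ w)⁻¹ * ⟪U k w, ξ z⟫_ℂ) • V w ∂μ := fun w => by
    rw [zf, integral_smul_const]
  simp_rw [e1]
  have hint : Integrable (fun p : S × S => ((φ p.2 - φ p.1)⁻¹ * ⟪U k p.1, ξ p.2⟫_ℂ) • V p.1)
      (μ.prod (μ.restrict E)) := by
    have hm : StronglyMeasurable fun p : S × S =>
        ((φ p.2 - φ p.1)⁻¹ * ⟪U k p.1, ξ p.2⟫_ℂ) • V p.1 :=
      (D.zjm k hx.meas).smul (D.Vm.comp_measurable measurable_fst)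
    refine ⟨hm.aestronglyMeasurable, ?_⟩
    rw [hasFiniteIntegral_iff_enorm, lintegral_prod _ hm.enorm.aemeasurable]
    have h1 : ∀ w, ∫⁻ z in E, ‖((φ z - φ w)⁻¹ * ⟪U k w, ξ z⟫_ℂ) • V w‖ₑ ∂μ ≤
        (C * M) * (‖V w‖ₑ * ‖U k w‖ₑ) := by
      intro w
      calc ∫⁻ z in E, ‖((φ z - φ w)⁻¹ * ⟪U k w, ξ z⟫_ℂ) • V w‖ₑ ∂μ
          ≤ ∫⁻ z in E, ‖φ z - φ w‖ₑ⁻¹ * (M * (‖V w‖ₑ * ‖U k w‖ₑ)) ∂μ := by
            refine lintegral_mono fun z => ?_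
            simp only
            rw [enorm_smul, enorm_mul]
            have h2 : ‖⟪U k w, ξ z⟫_ℂ‖ₑ ≤ ‖U k w‖ₑ * M := by
              have h3 : ‖⟪U k w, ξ z⟫_ℂ‖ₑ ≤ ‖U k w‖ₑ * ‖ξ z‖ₑ := by
                rw [← ofReal_norm, ← ofReal_norm, ← ofReal_norm,
                  ← ENNReal.ofReal_mul (norm_nonneg _)]
                exact ENNReal.ofReal_le_ofReal (norm_inner_le_norm _ _)
              exact h3.trans (mul_le_mul' le_rfl (hx.ebd z))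
            calc ‖(φ z - φ w)⁻¹‖ₑ * ‖⟪U k w, ξ z⟫_ℂ‖ₑ * ‖V w‖ₑ
                ≤ ‖φ z - φ w‖ₑ⁻¹ * (‖U k w‖ₑ * M) * ‖V w‖ₑ :=
                  mul_le_mul' (mul_le_mul' (inv_le_inv _) h2) le_rfl
              _ = _ := by ring
        _ = (∫⁻ z in E, ‖φ z - φ w‖ₑ⁻¹ ∂μ) * (M * (‖V w‖ₑ * ‖U k w‖ₑ)) :=
            lintegral_mul_const _ (D.phi.sub_const _).enorm.inv
        _ ≤ C * (M * (‖V w‖ₑ * ‖U k w‖ₑ)) := mul_le_mul' (hC w) le_rfl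
        _ = _ := by ring
    refine lt_of_le_of_lt (lintegral_mono h1) ?_
    rw [lintegral_const_mul' _ _ (ENNReal.mul_ne_top ENNReal.coe_ne_top ENNReal.coe_ne_top)]
    refine ENNReal.mul_lt_top (ENNReal.mul_lt_top ENNReal.coe_lt_top ENNReal.coe_lt_top) ?_
    exact lt_of_le_of_lt (D.VU k) (ENNReal.mul_lt_top (lt_top_iff_ne_top.2 D.vn_ne)
      ENNReal.coe_lt_top)
  rw [integral_integral_swap hint]
  refine integral_congr_ae ?_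
  filter_upwards [D.Gd_ae] with z hz
  have hi : Integrable (fun w => (φ z - φ w)⁻¹ • rk (V w) (U k w)) μ := by
    have hA := D.part_int k z (D.Am k) (D.al_ne k hz)
    have hB := D.part_int k z (D.Bm k) (D.be_part k hz)
    have h1 : Integrable (fun w => A k (φ z - φ w) • rk (V w) (U k w) +
      B k (φ z - φ w) • rk (V w) (U k w)) μ := by
      have h2 := Integrable.add (ε' := l2 →L[ℂ] l2) hA hB
      exact h2
    refine h1.congr (Eventually.of_forall fun w => ?_)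
    simp only
    rw [← add_smul, D.AB]
  rw [Gk, ContinuousLinearMap.integral_apply hi]
  refine integral_congr_ae (Eventually.of_forall fun w => ?_)
  simp only
  rw [ContinuousLinearMap.smul_apply, rk_apply, smul_smul]

end

end Pool.Agent.N812.WO
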